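import Pool.Agent.H671R2.OOF.NP

/-!
# Reachability in graphs in polynomial time
-/

namespace Pool.Agent.R552.Reach

open Pool.Agent.NPC Relation

/-- one step of the search -/
def step (N : ℕ) (E : ℕ → ℕ → Bool) (S : List Bool) : List Bool :=
  (List.range N).map fun j => S.getD j false || (List.range N).any fun i => S.getD i false && E i j

/-- the vertices reachable from the initial ones, as a list of booleans -/
def reachL (N : ℕ) (E : ℕ → ℕ → Bool) (init : ℕ → Bool) : List Bool :=
  (step N E)^[(List.range N).length] ((List.range N).map init)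

theorem getD_map {N : ℕ} {f : ℕ → Bool} {t : ℕ} :
    ((List.range N).map f).getD t false = true ↔ t < N ∧ f t = true := by
  rw [List.getD_eq_getElem?_getD, List.getElem?_map]
  by_cases h : t < N
  · rw [List.getElem?_range h]
    simp [h]
  · rw [List.getElem?_eq_none (by simpa using not_lt.1 h)]
    simp [h]

theorem step_getD {N : ℕ} {E : ℕ → ℕ → Bool} {S : List Bool} {t : ℕ} :
    (step N E S).getD t false = true ↔
      t < N ∧ (S.getD t false = true ∨ ∃ i < N, S.getD i false = true ∧ E i t = true) := by
  unfold step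
  rw [getD_map]
  simp only [Bool.or_eq_true, List.any_eq_true, List.mem_range, Bool.and_eq_true]

/-- the set after `k` steps -/
def gs (N : ℕ) (E : ℕ → ℕ → Bool) (init : ℕ → Bool) (k : ℕ) : Finset ℕ :=
  (Finset.range N).filter fun t =>
    ((step N E)^[k] ((List.range N).map init)).getD t false = true

variable {N : ℕ} {E : ℕ → ℕ → Bool} {init : ℕ → Bool}

theorem mem_gs {k t : ℕ} : t ∈ gs N E init k ↔ t < N ∧
    ((step N E)^[k] ((List.range N).map init)).getD t false = true := by
  unfold gs
  rw [Finset.mem_filter, Finset.mem_range]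

theorem lt_of_getD {k t : ℕ} (h : ((step N E)^[k] ((List.range N).map init)).getD t false = true) :
    t < N := by
  cases k with
  | zero => exact (getD_map.1 h).1
  | succ k =>
    rw [Function.iterate_succ_apply'] at h
    exact (step_getD.1 h).1

theorem mem_gs_succ {k t : ℕ} : t ∈ gs N E init (k + 1) ↔
    t ∈ gs N E init k ∨ t < N ∧ ∃ i ∈ gs N E init k, E i t = true := by
  rw [mem_gs, Function.iterate_succ_apply', step_getD]
  constructor
  · rintro ⟨h1, _, h2 | ⟨i, hi, h2, h3⟩⟩
    · exact Or.inl (mem_gs.2 ⟨h1, h2⟩)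
    · exact Or.inr ⟨h1, i, mem_gs.2 ⟨hi, h2⟩, h3⟩
  · rintro (h | ⟨h1, i, h2, h3⟩)
    · rw [mem_gs] at h
      exact ⟨h.1, h.1, Or.inl h.2⟩
    · rw [mem_gs] at h2
      exact ⟨h1, h1, Or.inr ⟨i, h2.1, h2.2, h3⟩⟩

theorem gs_mono (k : ℕ) : gs N E init k ⊆ gs N E init (k + 1) := fun _ h =>
  mem_gs_succ.2 (Or.inl h)

theorem gs_stable {k : ℕ} (h : gs N E init (k + 1) = gs N E init k) :
    ∀ m, gs N E init (k + m) = gs N E init k := by
  intro m
  induction m with
  | zero => rfl
  | succ m ih =>
    rw [← h]
    ext t
    rw [show k + (m + 1) = (k + m) + 1 from rfl, mem_gs_succ, mem_gs_succ, ih]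

theorem gs_closed : gs N E init (N + 1) = gs N E init N := by
  by_contra hne
  have h1 : ∀ k ≤ N, gs N E init (k + 1) ≠ gs N E init k := by
    intro k hk he
    apply hne
    have e1 := gs_stable he (N - k)
    have e2 := gs_stable he (N + 1 - k)
    rw [show k + (N - k) = N by omega] at e1
    rw [show k + (N + 1 - k) = N + 1 by omega] at e2
    rw [e1, e2]
  have h2 : ∀ k ≤ N + 1, k ≤ (gs N E init k).card := by
    intro k
    induction k with
    | zero => intro _; exact Nat.zero_le _
    | succ k ih =>
      intro hk
      have h3 := ih (by omega)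
      have h4 : (gs N E init k).card < (gs N E init (k + 1)).card := by
        apply Finset.card_lt_card
        exact (gs_mono k).ssubset_of_ne (h1 k (by omega)).symm
      omega
  have h3 := h2 (N + 1) le_rfl
  have h4 : (gs N E init (N + 1)).card ≤ N := by
    have : gs N E init (N + 1) ⊆ Finset.range N := Finset.filter_subset _ _
    simpa using Finset.card_le_card this
  omega

/-- **Correctness of the search.** -/
theorem reachL_iff {t : ℕ} : (reachL N E init).getD t false = true ↔
    ∃ s < N, init s = true ∧ ReflTransGen (fun i j => i < N ∧ j < N ∧ E i j = true) s t := by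
  have e : (reachL N E init).getD t false = true ↔ t ∈ gs N E init N := by
    unfold reachL
    rw [List.length_range, mem_gs]
    exact ⟨fun h => ⟨lt_of_getD h, h⟩, fun h => h.2⟩
  rw [e]
  constructor
  · have key : ∀ k t, t ∈ gs N E init k → ∃ s < N, init s = true ∧
        ReflTransGen (fun i j => i < N ∧ j < N ∧ E i j = true) s t := by
      intro k
      induction k with
      | zero =>
        intro t ht
        rw [mem_gs] at ht
        have := getD_map.1 ht.2
        exact ⟨t, this.1, this.2, .refl⟩
      | succ k ih =>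
        intro t ht
        rcases mem_gs_succ.1 ht with h | ⟨h1, i, h2, h3⟩
        · exact ih t h
        · obtain ⟨s, hs, hi, hr⟩ := ih i h2
          exact ⟨s, hs, hi, hr.tail ⟨(mem_gs.1 h2).1, h1, h3⟩⟩
    exact key N t
  · rintro ⟨s, hs, hi, hr⟩
    clear e
    induction hr with
    | refl =>
      have h0 : s ∈ gs N E init 0 := mem_gs.2 ⟨hs, getD_map.2 ⟨hs, hi⟩⟩
      have : ∀ k, s ∈ gs N E init k := by
        intro k
        induction k with
        | zero => exact h0
        | succ k ih => exact gs_mono k ih
      exact this N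
    | tail _ h ih =>
      rw [← gs_closed, mem_gs_succ]
      exact Or.inr ⟨h.2.1, _, ih, h.2.2⟩

theorem step_length (S : List Bool) : (step N E S).length = N := by
  unfold step
  simp

theorem reachL_poly {α : Type} [TEnc α] {N : α → ℕ} {E : α → ℕ → ℕ → Bool} {init : α → ℕ → Bool}
    (hN : UPoly N) (hE : Poly (fun p : α × ℕ × ℕ => E p.1 p.2.1 p.2.2))
    (hi : Poly (fun p : α × ℕ => init p.1 p.2)) :
    Poly (fun a => reachL (N a) (E a) (init a)) := by
  have hr := hN.range
  obtain ⟨q, hq⟩ := hr.sz_le
  unfold reachL
  refine NPC.Poly.iterLen (l := fun a => List.range (N a))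
    (s := fun a => (List.range (N a)).map (init a)) (F := fun a S => step (N a) (E a) S) hr
    (NPC.Poly.map (l := fun a => List.range (N a)) (F := fun a i => init a i) hr hi) ?_
    (4 * q + 1) ?_
  · unfold step
    have hr' : Poly (fun p : α × List Bool => List.range (N p.1)) :=
      hr.comp (NPC.Poly.fst NPC.Poly.id)
    refine NPC.Poly.map (l := fun p : α × List Bool => List.range (N p.1))
      (F := fun p j => p.2.getD j false || (List.range (N p.1)).any fun i =>
        p.2.getD i false && E p.1 i j) hr' ?_
    refine NPC.Poly.or (NPC.Poly.getD (NPC.Poly.snd (NPC.Poly.fst NPC.Poly.id))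
      (NPC.Poly.snd NPC.Poly.id) (NPC.Poly.const false)) ?_
    have hr'' : Poly (fun p : (α × List Bool) × ℕ => List.range (N p.1.1)) :=
      hr.comp (NPC.Poly.fst (NPC.Poly.fst NPC.Poly.id))
    refine NPC.Poly.any (l := fun p : (α × List Bool) × ℕ => List.range (N p.1.1))
      (p := fun p i => p.1.2.getD i false && E p.1.1 i p.2) hr'' ?_
    refine NPC.Poly.and (NPC.Poly.getD (NPC.Poly.snd (NPC.Poly.fst (NPC.Poly.fst NPC.Poly.id)))
      (NPC.Poly.snd NPC.Poly.id) (NPC.Poly.const false)) ?_
    have h1 : Poly (fun p : ((α × List Bool) × ℕ) × ℕ => (p.1.1.1, p.2, p.1.2)) :=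
      NPC.Poly.pair (NPC.Poly.fst (NPC.Poly.fst (NPC.Poly.fst NPC.Poly.id)))
        (NPC.Poly.pair (NPC.Poly.snd NPC.Poly.id) (NPC.Poly.snd (NPC.Poly.fst NPC.Poly.id)))
    have h2 := hE.comp h1
    exact h2
  · intro a k _
    have hl : ((step (N a) (E a))^[k] ((List.range (N a)).map (init a))).length = N a := by
      cases k with
      | zero => simp
      | succ k => rw [Function.iterate_succ_apply', step_length]
    have h1 := sz_listBool_le ((step (N a) (E a))^[k] ((List.range (N a)).map (init a)))
    rw [hl] at h1
    have h2 := hq a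
    have h3 := length_lt_sz (List.range (N a))
    rw [List.length_range] at h3
    simp only [Polynomial.eval_add, Polynomial.eval_mul, Polynomial.eval_ofNat,
      Polynomial.eval_one]
    change sz ((step (N a) (E a))^[k] ((List.range (N a)).map (init a))) ≤ _
    omega

end Pool.Agent.R552.Reach
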