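import Pool.Agent.R552.Fan.Path
import Pool.Agent.R552.Fan.Reach
import Pool.Agent.H671R2.OrdNP2

/-!
# The algorithm for one component
-/

namespace Pool.Agent.R552.Fan

open Pool.Agent.NPC Pool.Agent.NPC.R671 Pool.Agent.H671R2.Ord Relation Pool.Agent.R552.Reach

/-- the data of a component: the list of all vertices of the graph, the matrix, the vertex set of the
component and its upper vertices -/
abbrev Dt : Type := List ℕ × List (List Bool) × List Bool × List Bool

/-- codes of states -/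
abbrev Sc : Type := ℕ × ℕ × List ℕ

/-- membership in the component -/
def wb (d : Dt) (x : ℕ) : Bool := d.2.2.1.getD x false

/-- the upper layer -/
def ub (d : Dt) (x : ℕ) : Bool := d.2.2.2.getD x false

/-- adjacency away from a line -/
def lE (d : Dt) (s : Sc) (i j : ℕ) : Bool :=
  me d.2.1 i j && (wb d i && (wb d j && (!decide (i = s.1) && (!decide (i = s.2.1) &&
    (!decide (j = s.1) && !decide (j = s.2.1))))))

/-- the representatives -/
def lI (d : Dt) (s : Sc) (u : ℕ) : Bool :=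
  wb d u && (!decide (u = s.1) && (!decide (u = s.2.1) && s.2.2.any (fun c => decide (c = u))))

/-- the vertices on the left -/
def lL (d : Dt) (s : Sc) : List Bool := reachL d.1.length (lE d s) (lI d s)

/-- the vertices in the middle -/
def mid (l l' : List Bool) (s : Sc) (x : ℕ) : Bool :=
  l'.getD x false && (!l.getD x false && (!decide (x = s.1) && !decide (x = s.2.1)))

/-- `y` is the only neighbour of `x` -/
def only (d : Dt) (x y : ℕ) : Bool :=
  d.1.all fun z => !(wb d z && me d.2.1 x z) || decide (z = y)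

/-- the first part of the transition test -/
def trA (d : Dt) (s s' : Sc) (l l' : List Bool) : Bool :=
  d.1.all (fun x => !l.getD x false || l'.getD x false) &&
  (!l.getD s'.1 false && (!l.getD s'.2.1 false &&
  ((decide (s'.1 = s.1) || l'.getD s.1 false) && (decide (s'.2.1 = s.2.1) || l'.getD s.2.1 false))))

/-- the second part of the transition test -/
def trM (d : Dt) (s s' : Sc) (l l' : List Bool) : Bool :=
  d.1.all (fun x => !(mid l l' s x && ub d x) || !decide (s'.1 = s.1)) &&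
  d.1.all (fun x => !(mid l l' s x && !ub d x) || !decide (s'.2.1 = s.2.1))

/-- all middle vertices are leaves at the given two vertices -/
def trX (d : Dt) (s : Sc) (p q : ℕ) (l l' : List Bool) : Bool :=
  d.1.all (fun x => !(mid l l' s x && ub d x) || only d x q) &&
    d.1.all (fun x => !(mid l l' s x && !ub d x) || only d x p)

/-- the third part of the transition test -/
def trS (d : Dt) (s s' : Sc) (l l' : List Bool) : Bool :=
  d.1.all (fun x => !mid l l' s x || !ub d x) || (d.1.all (fun x => !mid l l' s x || ub d x) ||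
    (trX d s s.1 s.2.1 l l' || trX d s s'.1 s'.2.1 l l'))

/-- the transition test -/
def trB (d : Dt) (s s' : Sc) (l l' : List Bool) : Bool :=
  trA d s s' l l' && (trM d s s' l l' && trS d s s' l l')

/-- valid codes -/
def vl (d : Dt) (s : Sc) : Bool :=
  wb d s.1 && (ub d s.1 && (wb d s.2.1 && (!ub d s.2.1 && (decide (s.2.2.length = 6) &&
    s.2.2.all (fun c => wb d c)))))

/-- the transition relation -/
def tE (d : Dt) (s s' : Sc) : Bool := vl d s && (vl d s' && trB d s s' (lL d s) (lL d s'))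

/-- first states -/
def stI (d : Dt) (s : Sc) : Bool := vl d s && d.1.all (fun u => !(lL d s).getD u false)

/-- last states -/
def fin (d : Dt) (s : Sc) : Bool :=
  vl d s && d.1.all (fun u => !wb d u || (decide (u = s.1) || (decide (u = s.2.1) ||
    (lL d s).getD u false)))

/-- longer lists -/
def ext1 (V : List ℕ) (L : List (List ℕ)) : List (List ℕ) :=
  L.flatMap fun l => V.map fun c => c :: l

/-- lists of length six -/
def l6 (V : List ℕ) : List (List ℕ) :=
  ext1 V (ext1 V (ext1 V (ext1 V (ext1 V (ext1 V [[]])))))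

/-- all codes -/
def sts (V : List ℕ) : List Sc := V.flatMap fun t => V.flatMap fun b => (l6 V).map fun C => (t, b, C)

/-- the states that can be reached -/
def rl (d : Dt) (S : List Sc) : List Bool :=
  reachL S.length (fun i j => tE d (S.getD i (0, 0, [])) (S.getD j (0, 0, [])))
    (fun i => stI d (S.getD i (0, 0, [])))

/-- the test for one component -/
def acc (d : Dt) : Bool :=
  (List.range (sts d.1).length).any fun k =>
    (rl d (sts d.1)).getD k false && fin d ((sts d.1).getD k (0, 0, []))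

/-! ### Correctness -/

/-- adjacency -/
def ad (d : Dt) (i j : ℕ) : Prop := me d.2.1 i j = true

/-- the vertex set -/
def Wd (d : Dt) : Finset ℕ := d.1.toFinset.filter fun x => wb d x = true

/-- the upper vertices -/
def td (d : Dt) (x : ℕ) : Prop := ub d x = true

theorem mem_Wd {d : Dt} {x : ℕ} : x ∈ Wd d ↔ x ∈ d.1 ∧ wb d x = true := by
  unfold Wd
  rw [Finset.mem_filter, List.mem_toFinset]

/-- the data is as it should be -/
structure Ok (d : Dt) : Prop where
  V : d.1 = List.range d.1.length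
  wlt : ∀ x, wb d x = true → x < d.1.length

theorem Ok.mem {d : Dt} (h : Ok d) {x : ℕ} : x ∈ d.1 ↔ x < d.1.length := by
  constructor
  · intro hx
    rw [h.V, List.mem_range] at hx
    exact hx
  · intro hx
    rw [h.V, List.mem_range]
    exact hx

theorem Ok.memW {d : Dt} (h : Ok d) {x : ℕ} : x ∈ Wd d ↔ wb d x = true := by
  rw [mem_Wd, h.mem]
  exact ⟨fun h' => h'.2, fun h' => ⟨h.wlt x h', h'⟩⟩

theorem lL_iff {d : Dt} (h : Ok d) {s : Sc} {u : ℕ} :
    (lL d s).getD u false = true ↔ Rch (ad d) (Wd d) s.1 s.2.1 s.2.2 u := by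
  unfold lL
  rw [reachL_iff]
  have e : (fun i j => i < d.1.length ∧ j < d.1.length ∧ lE d s i j = true) =
      R' (ad d) (Wd d) s.1 s.2.1 := by
    funext i j
    unfold lE R' ad
    rw [h.memW, h.memW]
    simp only [Bool.and_eq_true, Bool.not_eq_true', decide_eq_false_iff_not]
    apply propext
    constructor
    · rintro ⟨_, _, h1, h2, h3, h4, h5, h6, h7⟩
      exact ⟨h2, h4, h5, h3, h6, h7, h1⟩
    · rintro ⟨h2, h4, h5, h3, h6, h7, h1⟩
      exact ⟨h.wlt i h2, h.wlt j h3, h1, h2, h3, h4, h5, h6, h7⟩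
  rw [e]
  unfold Rch lI
  simp only [Bool.and_eq_true, Bool.not_eq_true', decide_eq_false_iff_not, List.any_eq_true,
    decide_eq_true_eq]
  constructor
  · rintro ⟨c, _, ⟨h2, h3, h4, c', hc', rfl⟩, h5⟩
    exact ⟨c', hc', h.memW.2 h2, h3, h4, h5⟩
  · rintro ⟨c, hc, h1, h2, h3, h4⟩
    rw [h.memW] at h1
    exact ⟨c, h.wlt c h1, ⟨h1, h2, h3, c, hc, rfl⟩, h4⟩

theorem lL_lt {d : Dt} (h : Ok d) {s : Sc} {u : ℕ} (hu : (lL d s).getD u false = true) :
    u < d.1.length := by
  rw [lL_iff h] at hu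
  have := hu.inW.1
  rw [h.memW] at this
  exact h.wlt u this

theorem vl_iff {d : Dt} (h : Ok d) {s : Sc} : vl d s = true ↔ Vld (Wd d) (td d) s := by
  unfold vl
  simp only [Bool.and_eq_true, Bool.not_eq_true', decide_eq_true_eq, List.all_eq_true]
  constructor
  · rintro ⟨h1, h2, h3, h4, h5, h6⟩
    refine ⟨h.memW.2 h1, h2, h.memW.2 h3, ?_, h5, fun c hc => h.memW.2 (h6 c hc)⟩
    unfold td
    rw [h4]
    simp
  · rintro ⟨h1, h2, h3, h4, h5, h6⟩
    refine ⟨h.memW.1 h1, h2, h.memW.1 h3, ?_, h5, fun c hc => h.memW.1 (h6 c hc)⟩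
    unfold td at h4
    simpa using h4

theorem all_imp {d : Dt} (h : Ok d) {p q : ℕ → Bool} (hp : ∀ x, p x = true → x < d.1.length) :
    d.1.all (fun x => !p x || q x) = true ↔ ∀ x, p x = true → q x = true := by
  rw [List.all_eq_true]
  constructor
  · intro h1 x hx
    have := h1 x (h.mem.2 (hp x hx))
    rw [hx] at this
    simpa using this
  · intro h1 x _
    by_cases hx : p x = true
    · rw [h1 x hx]; simp
    · simp only [Bool.not_eq_true] at hx
      rw [hx]; simp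

theorem only_iff {d : Dt} (h : Ok d) {x y : ℕ} :
    only d x y = true ↔ ∀ z ∈ Wd d, ad d x z → z = y := by
  unfold only
  rw [all_imp h]
  · simp only [Bool.and_eq_true, decide_eq_true_eq]
    constructor
    · intro h1 z hz hxz
      exact h1 z ⟨h.memW.1 hz, hxz⟩
    · intro h1 z hz
      exact h1 z (h.memW.2 hz.1) hz.2
  · intro z hz
    simp only [Bool.and_eq_true] at hz
    exact h.wlt z hz.1

theorem mid_iff {d : Dt} (h : Ok d) {s s' : Sc} {x : ℕ} :
    mid (lL d s) (lL d s') s x = true ↔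
      Mid (stC (ad d) (Wd d) s.1 s.2.1 s.2.2) (stC (ad d) (Wd d) s'.1 s'.2.1 s'.2.2) x := by
  unfold mid Mid
  rw [mem_stC, mem_stC]
  simp only [Bool.and_eq_true, Bool.not_eq_true', decide_eq_false_iff_not, lL_iff h,
    ← Bool.not_eq_true]
  simp only [stC, decide_eq_true_eq, ne_eq]

theorem tr_iff {d : Dt} (h : Ok d) {s s' : Sc} :
    trB d s s' (lL d s) (lL d s') = true ↔
      Tr (ad d) (Wd d) (td d) (stC (ad d) (Wd d) s.1 s.2.1 s.2.2)
        (stC (ad d) (Wd d) s'.1 s'.2.1 s'.2.2) := by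
  have hml : ∀ x, mid (lL d s) (lL d s') s x = true → x < d.1.length := by
    intro x hx
    unfold mid at hx
    simp only [Bool.and_eq_true] at hx
    exact lL_lt h hx.1
  have e1 : trA d s s' (lL d s) (lL d s') = true ↔
      ((stC (ad d) (Wd d) s.1 s.2.1 s.2.2).L ⊆ (stC (ad d) (Wd d) s'.1 s'.2.1 s'.2.2).L ∧
      s'.1 ∉ (stC (ad d) (Wd d) s.1 s.2.1 s.2.2).L ∧ s'.2.1 ∉ (stC (ad d) (Wd d) s.1 s.2.1 s.2.2).L ∧
      (s'.1 = s.1 ∨ s.1 ∈ (stC (ad d) (Wd d) s'.1 s'.2.1 s'.2.2).L) ∧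
      (s'.2.1 = s.2.1 ∨ s.2.1 ∈ (stC (ad d) (Wd d) s'.1 s'.2.1 s'.2.2).L)) := by
    unfold trA
    simp only [Bool.and_eq_true, Bool.or_eq_true, decide_eq_true_eq]
    rw [all_imp h (fun x hx => lL_lt h hx)]
    simp only [Bool.not_eq_true', ← Bool.not_eq_true, mem_stC, lL_iff h]
    constructor
    · rintro ⟨h1, h2, h3, h4, h5⟩
      exact ⟨fun x hx => mem_stC.2 (h1 x (mem_stC.1 hx)), h2, h3, h4, h5⟩
    · rintro ⟨h1, h2, h3, h4, h5⟩
      exact ⟨fun x hx => mem_stC.1 (h1 (mem_stC.2 hx)), h2, h3, h4, h5⟩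
  have e2 : trM d s s' (lL d s) (lL d s') = true ↔
      ((∀ x, Mid (stC (ad d) (Wd d) s.1 s.2.1 s.2.2) (stC (ad d) (Wd d) s'.1 s'.2.1 s'.2.2) x →
        td d x → s'.1 ≠ s.1) ∧
      (∀ x, Mid (stC (ad d) (Wd d) s.1 s.2.1 s.2.2) (stC (ad d) (Wd d) s'.1 s'.2.1 s'.2.2) x →
        ¬ td d x → s'.2.1 ≠ s.2.1)) := by
    unfold trM
    rw [Bool.and_eq_true, all_imp h (p := fun x => mid (lL d s) (lL d s') s x && ub d x),
      all_imp h (p := fun x => mid (lL d s) (lL d s') s x && !ub d x)]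
    · simp only [Bool.and_eq_true, Bool.not_eq_true', decide_eq_false_iff_not, mid_iff h,
        ← Bool.not_eq_true]
      unfold td
      simp only [and_imp, decide_eq_true_eq, ne_eq]
    · intro x hx
      simp only [Bool.and_eq_true] at hx
      exact hml x hx.1
    · intro x hx
      simp only [Bool.and_eq_true] at hx
      exact hml x hx.1
  have e3 : ∀ p q, trX d s p q (lL d s) (lL d s') = true ↔
      ((∀ x, Mid (stC (ad d) (Wd d) s.1 s.2.1 s.2.2) (stC (ad d) (Wd d) s'.1 s'.2.1 s'.2.2) x →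
        td d x → ∀ y ∈ Wd d, ad d x y → y = q) ∧
      (∀ x, Mid (stC (ad d) (Wd d) s.1 s.2.1 s.2.2) (stC (ad d) (Wd d) s'.1 s'.2.1 s'.2.2) x →
        ¬ td d x → ∀ y ∈ Wd d, ad d x y → y = p)) := by
    intro p q
    unfold trX
    rw [Bool.and_eq_true, all_imp h (p := fun x => mid (lL d s) (lL d s') s x && ub d x),
      all_imp h (p := fun x => mid (lL d s) (lL d s') s x && !ub d x)]
    · simp only [Bool.and_eq_true, Bool.not_eq_true', mid_iff h, only_iff h,
        ← Bool.not_eq_true]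
      unfold td
      simp only [and_imp]
    · intro x hx
      simp only [Bool.and_eq_true] at hx
      exact hml x hx.1
    · intro x hx
      simp only [Bool.and_eq_true] at hx
      exact hml x hx.1
  have e4 : trS d s s' (lL d s) (lL d s') = true ↔
      ((∀ x, Mid (stC (ad d) (Wd d) s.1 s.2.1 s.2.2) (stC (ad d) (Wd d) s'.1 s'.2.1 s'.2.2) x →
        ¬ td d x) ∨
      (∀ x, Mid (stC (ad d) (Wd d) s.1 s.2.1 s.2.2) (stC (ad d) (Wd d) s'.1 s'.2.1 s'.2.2) x →
        td d x) ∨ trX d s s.1 s.2.1 (lL d s) (lL d s') = true ∨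
        trX d s s'.1 s'.2.1 (lL d s) (lL d s') = true) := by
    unfold trS
    rw [Bool.or_eq_true, Bool.or_eq_true, Bool.or_eq_true, all_imp h hml, all_imp h hml]
    simp only [Bool.not_eq_true', ← Bool.not_eq_true, mid_iff h]
    rfl
  unfold trB
  rw [Bool.and_eq_true, Bool.and_eq_true, e1, e2, e4, e3, e3]
  constructor
  · rintro ⟨⟨h1, h2, h3, h4, h5⟩, ⟨h6, h7⟩, h8⟩
    exact ⟨h1, h2, h3, h4, h5, h6, h7, h8⟩
  · rintro ⟨h1, h2, h3, h4, h5, h6, h7, h8⟩
    exact ⟨⟨h1, h2, h3, h4, h5⟩, ⟨h6, h7⟩, h8⟩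

theorem mem_ext1 {V : List ℕ} {L : List (List ℕ)} {l : List ℕ} :
    l ∈ ext1 V L ↔ ∃ c l', l = c :: l' ∧ c ∈ V ∧ l' ∈ L := by
  unfold ext1
  simp only [List.mem_flatMap, List.mem_map]
  constructor
  · rintro ⟨l', hl', c, hc, rfl⟩
    exact ⟨c, l', rfl, hc, hl'⟩
  · rintro ⟨c, l', rfl, hc, hl'⟩
    exact ⟨l', hl', c, hc, rfl⟩

theorem mem_ext1_len {V : List ℕ} {L : List (List ℕ)} {k : ℕ}
    (hL : ∀ l, l ∈ L ↔ l.length = k ∧ ∀ c ∈ l, c ∈ V) :
    ∀ l, l ∈ ext1 V L ↔ l.length = k + 1 ∧ ∀ c ∈ l, c ∈ V := by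
  intro l
  rw [mem_ext1]
  constructor
  · rintro ⟨c, l', rfl, hc, hl'⟩
    rw [hL] at hl'
    refine ⟨by simp [hl'.1], ?_⟩
    intro c' hc'
    rw [List.mem_cons] at hc'
    rcases hc' with rfl | hc'
    · exact hc
    · exact hl'.2 c' hc'
  · rintro ⟨h1, h2⟩
    cases l with
    | nil => simp at h1
    | cons c l' =>
      refine ⟨c, l', rfl, h2 c (List.mem_cons_self ..), (hL l').2 ⟨by simpa using h1, ?_⟩⟩
      intro c' hc'
      exact h2 c' (List.mem_cons_of_mem _ hc')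

theorem mem_l6 {V : List ℕ} {l : List ℕ} : l ∈ l6 V ↔ l.length = 6 ∧ ∀ c ∈ l, c ∈ V := by
  have h0 : ∀ l : List ℕ, l ∈ ([[]] : List (List ℕ)) ↔ l.length = 0 ∧ ∀ c ∈ l, c ∈ V := by
    intro l
    rw [List.mem_singleton]
    constructor
    · rintro rfl
      simp
    · rintro ⟨h, _⟩
      exact List.length_eq_zero_iff.1 h
  exact mem_ext1_len (mem_ext1_len (mem_ext1_len (mem_ext1_len (mem_ext1_len
    (mem_ext1_len h0))))) l

theorem mem_sts {V : List ℕ} {s : Sc} : s ∈ sts V ↔ s.1 ∈ V ∧ s.2.1 ∈ V ∧ s.2.2.length = 6 ∧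
    ∀ c ∈ s.2.2, c ∈ V := by
  unfold sts
  simp only [List.mem_flatMap, List.mem_map, mem_l6]
  constructor
  · rintro ⟨t, ht, b, hb, C, ⟨h1, h2⟩, rfl⟩
    exact ⟨ht, hb, h1, h2⟩
  · rintro ⟨h1, h2, h3, h4⟩
    exact ⟨s.1, h1, s.2.1, h2, s.2.2, ⟨h3, h4⟩, rfl⟩

theorem getD_of_mem {S : List Sc} {s : Sc} (h : s ∈ S) : ∃ k < S.length, S.getD k (0, 0, []) = s := by
  obtain ⟨k, hk, rfl⟩ := List.getElem_of_mem h
  refine ⟨k, hk, ?_⟩
  rw [List.getD_eq_getElem?_getD, List.getElem?_eq_getElem hk]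
  rfl

theorem tE_iff {d : Dt} (h : Ok d) {s s' : Sc} : tE d s s' = true ↔ TT (ad d) (Wd d) (td d) s s' := by
  unfold tE TT
  rw [Bool.and_eq_true, Bool.and_eq_true, vl_iff h, vl_iff h, tr_iff h]

theorem acc_iff {d : Dt} (h : Ok d) : acc d = true ↔ ∃ s s', Vld (Wd d) (td d) s ∧
    Vld (Wd d) (td d) s' ∧ ReflTransGen (TT (ad d) (Wd d) (td d)) s s' ∧
    (∀ u, ¬ Rch (ad d) (Wd d) s.1 s.2.1 s.2.2 u) ∧
    ∀ u ∈ Wd d, u = s'.1 ∨ u = s'.2.1 ∨ Rch (ad d) (Wd d) s'.1 s'.2.1 s'.2.2 u := by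
  have hst : ∀ s, stI d s = true ↔ Vld (Wd d) (td d) s ∧
      ∀ u, ¬ Rch (ad d) (Wd d) s.1 s.2.1 s.2.2 u := by
    intro s
    unfold stI
    rw [Bool.and_eq_true, vl_iff h, List.all_eq_true]
    apply and_congr_right
    intro _
    simp only [Bool.not_eq_true', ← Bool.not_eq_true, lL_iff h]
    constructor
    · intro h1 u hu
      have h2 := hu.inW.1
      rw [mem_Wd] at h2
      exact h1 u h2.1 hu
    · intro h1 u _
      exact h1 u
  have hfin : ∀ s, fin d s = true ↔ Vld (Wd d) (td d) s ∧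
      ∀ u ∈ Wd d, u = s.1 ∨ u = s.2.1 ∨ Rch (ad d) (Wd d) s.1 s.2.1 s.2.2 u := by
    intro s
    unfold fin
    rw [Bool.and_eq_true, vl_iff h, all_imp h h.wlt]
    apply and_congr_right
    intro _
    simp only [Bool.or_eq_true, decide_eq_true_eq, lL_iff h]
    constructor
    · intro h1 u hu
      exact h1 u (h.memW.1 hu)
    · intro h1 u hu
      exact h1 u (h.memW.2 hu)
  have hmem : ∀ s, Vld (Wd d) (td d) s → s ∈ sts d.1 := by
    intro s hs
    rw [mem_sts]
    exact ⟨(mem_Wd.1 hs.tW).1, (mem_Wd.1 hs.bW).1, hs.len, fun c hc => (mem_Wd.1 (hs.C c hc)).1⟩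
  unfold acc rl
  rw [List.any_eq_true]
  simp only [List.mem_range, Bool.and_eq_true, reachL_iff, hst, hfin, tE_iff h]
  constructor
  · rintro ⟨k, hk, ⟨k0, _, ⟨h2, h3⟩, h4⟩, h5, h6⟩
    refine ⟨_, _, h2, h5, ?_, h3, h6⟩
    clear h5 h6 hk
    induction h4 with
    | refl => exact .refl
    | tail _ h7 ih => exact ih.tail h7.2.2
  · rintro ⟨s, s', h1, h2, h3, h4, h5⟩
    obtain ⟨k0, hk0, e0⟩ := getD_of_mem (hmem s h1)
    have key : ∃ k < (sts d.1).length, (sts d.1).getD k (0, 0, []) = s' ∧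
        ReflTransGen (fun i j => i < (sts d.1).length ∧ j < (sts d.1).length ∧
          TT (ad d) (Wd d) (td d) ((sts d.1).getD i (0, 0, [])) ((sts d.1).getD j (0, 0, [])))
          k0 k := by
      clear h5 h2
      induction h3 with
      | refl => exact ⟨k0, hk0, e0, .refl⟩
      | tail _ h7 ih =>
        obtain ⟨k, hk, e, hr⟩ := ih
        obtain ⟨k', hk', e'⟩ := getD_of_mem (hmem _ h7.2.1)
        refine ⟨k', hk', e', hr.tail ⟨hk, hk', ?_⟩⟩
        rw [e, e']
        exact h7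
    obtain ⟨k, hk, e, hr⟩ := key
    refine ⟨k, hk, ⟨k0, hk0, ?_, hr⟩, ?_⟩
    · rw [e0]; exact ⟨h1, h4⟩
    · rw [e]; exact ⟨h2, h5⟩

end Pool.Agent.R552.Fan
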