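import Pool.Agent.R552.Fan.Alg

/-!
# The algorithm for one component runs in polynomial time
-/

namespace Pool.Agent.R552.Fan

open Pool.Agent.NPC Pool.Agent.NPC.R671 Pool.Agent.H671R2.Ord Relation Pool.Agent.R552.Reach

attribute [local irreducible] me reachL

variable {α : Type} [TEnc α]

theorem wb_poly {d : α → Dt} {x : α → ℕ} (hd : Poly d) (hx : Poly x) :
    Poly (fun a => wb (d a) (x a)) :=
  NPC.Poly.getD (NPC.Poly.fst (NPC.Poly.snd (NPC.Poly.snd hd))) hx (NPC.Poly.const false)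

theorem ub_poly {d : α → Dt} {x : α → ℕ} (hd : Poly d) (hx : Poly x) :
    Poly (fun a => ub (d a) (x a)) :=
  NPC.Poly.getD (NPC.Poly.snd (NPC.Poly.snd (NPC.Poly.snd hd))) hx (NPC.Poly.const false)

theorem ne_poly {x y : α → ℕ} (hx : Poly x) (hy : Poly y) :
    Poly (fun a => !decide (x a = y a)) := NPC.Poly.not (NPC.Poly.dec_eq hx hy)

theorem lE_poly {d : α → Dt} {s : α → Sc} {i j : α → ℕ} (hd : Poly d) (hs : Poly s) (hi : Poly i)
    (hj : Poly j) : Poly (fun a => lE (d a) (s a) (i a) (j a)) := by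
  have h1 : Poly (fun a => (s a).1) := NPC.Poly.fst hs
  have h2 : Poly (fun a => (s a).2.1) := NPC.Poly.fst (NPC.Poly.snd hs)
  exact NPC.Poly.and (me_poly (NPC.Poly.fst (NPC.Poly.snd hd)) hi hj) (NPC.Poly.and (wb_poly hd hi)
    (NPC.Poly.and (wb_poly hd hj) (NPC.Poly.and (ne_poly hi h1) (NPC.Poly.and (ne_poly hi h2)
    (NPC.Poly.and (ne_poly hj h1) (ne_poly hj h2))))))

theorem lI_poly {d : α → Dt} {s : α → Sc} {u : α → ℕ} (hd : Poly d) (hs : Poly s) (hu : Poly u) :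
    Poly (fun a => lI (d a) (s a) (u a)) := by
  have h1 : Poly (fun a => (s a).1) := NPC.Poly.fst hs
  have h2 : Poly (fun a => (s a).2.1) := NPC.Poly.fst (NPC.Poly.snd hs)
  have h3 : Poly (fun a => (s a).2.2) := NPC.Poly.snd (NPC.Poly.snd hs)
  refine NPC.Poly.and (wb_poly hd hu) (NPC.Poly.and (ne_poly hu h1) (NPC.Poly.and (ne_poly hu h2) ?_))
  have hu' : Poly (fun p : α × ℕ => u p.1) := hu.comp (NPC.Poly.fst NPC.Poly.id)
  exact NPC.Poly.any (l := fun a => (s a).2.2) (p := fun a c => decide (c = u a)) h3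
    (NPC.Poly.dec_eq (NPC.Poly.snd NPC.Poly.id) hu')

theorem lL_poly {d : α → Dt} {s : α → Sc} (hd : Poly d) (hs : Poly s) :
    Poly (fun a => lL (d a) (s a)) := by
  unfold lL
  refine reachL_poly (N := fun a => (d a).1.length) (E := fun a => lE (d a) (s a))
    (init := fun a => lI (d a) (s a)) (UPoly.length (NPC.Poly.fst hd)) ?_ ?_
  · have hd' : Poly (fun p : α × ℕ × ℕ => d p.1) := hd.comp (NPC.Poly.fst NPC.Poly.id)
    have hs' : Poly (fun p : α × ℕ × ℕ => s p.1) := hs.comp (NPC.Poly.fst NPC.Poly.id)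
    exact lE_poly hd' hs' (NPC.Poly.fst (NPC.Poly.snd NPC.Poly.id))
      (NPC.Poly.snd (NPC.Poly.snd NPC.Poly.id))
  · have hd' : Poly (fun p : α × ℕ => d p.1) := hd.comp (NPC.Poly.fst NPC.Poly.id)
    have hs' : Poly (fun p : α × ℕ => s p.1) := hs.comp (NPC.Poly.fst NPC.Poly.id)
    exact lI_poly hd' hs' (NPC.Poly.snd NPC.Poly.id)

theorem gb_poly {l : α → List Bool} {x : α → ℕ} (hl : Poly l) (hx : Poly x) :
    Poly (fun a => (l a).getD (x a) false) := NPC.Poly.getD hl hx (NPC.Poly.const false)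

theorem mid_poly {l l' : α → List Bool} {s : α → Sc} {x : α → ℕ} (hl : Poly l) (hl' : Poly l')
    (hs : Poly s) (hx : Poly x) : Poly (fun a => mid (l a) (l' a) (s a) (x a)) := by
  have h1 : Poly (fun a => (s a).1) := NPC.Poly.fst hs
  have h2 : Poly (fun a => (s a).2.1) := NPC.Poly.fst (NPC.Poly.snd hs)
  exact NPC.Poly.and (gb_poly hl' hx) (NPC.Poly.and (NPC.Poly.not (gb_poly hl hx))
    (NPC.Poly.and (ne_poly hx h1) (ne_poly hx h2)))

/-- quantification over the vertices -/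
theorem allV {d : α → Dt} {F : α → ℕ → Bool} (hd : Poly d)
    (hF : Poly (fun p : α × ℕ => F p.1 p.2)) : Poly (fun a => (d a).1.all (F a)) :=
  NPC.Poly.all (l := fun a => (d a).1) (p := F) (NPC.Poly.fst hd) hF

theorem only_poly {d : α → Dt} {x y : α → ℕ} (hd : Poly d) (hx : Poly x) (hy : Poly y) :
    Poly (fun a => only (d a) (x a) (y a)) := by
  have hd' : Poly (fun p : α × ℕ => d p.1) := hd.comp (NPC.Poly.fst NPC.Poly.id)
  have hx' : Poly (fun p : α × ℕ => x p.1) := hx.comp (NPC.Poly.fst NPC.Poly.id)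
  have hy' : Poly (fun p : α × ℕ => y p.1) := hy.comp (NPC.Poly.fst NPC.Poly.id)
  have hz : Poly (fun p : α × ℕ => p.2) := NPC.Poly.snd NPC.Poly.id
  exact allV hd (F := fun a z => !(wb (d a) z && me (d a).2.1 (x a) z) || decide (z = y a))
    (NPC.Poly.or (NPC.Poly.not (NPC.Poly.and (wb_poly hd' hz)
      (me_poly (NPC.Poly.fst (NPC.Poly.snd hd')) hx' hz))) (NPC.Poly.dec_eq hz hy'))

section

variable {d : α → Dt} {s s' : α → Sc} {l l' : α → List Bool} (hd : Poly d) (hs : Poly s)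
  (hs' : Poly s') (hl : Poly l) (hl' : Poly l')

include hd hs hs' hl hl'

theorem trA_poly : Poly (fun a => trA (d a) (s a) (s' a) (l a) (l' a)) := by
  have h1 : Poly (fun a => (s a).1) := NPC.Poly.fst hs
  have h2 : Poly (fun a => (s a).2.1) := NPC.Poly.fst (NPC.Poly.snd hs)
  have h3 : Poly (fun a => (s' a).1) := NPC.Poly.fst hs'
  have h4 : Poly (fun a => (s' a).2.1) := NPC.Poly.fst (NPC.Poly.snd hs')
  have hl1 : Poly (fun p : α × ℕ => l p.1) := hl.comp (NPC.Poly.fst NPC.Poly.id)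
  have hl2 : Poly (fun p : α × ℕ => l' p.1) := hl'.comp (NPC.Poly.fst NPC.Poly.id)
  have hz : Poly (fun p : α × ℕ => p.2) := NPC.Poly.snd NPC.Poly.id
  exact NPC.Poly.and (allV hd (F := fun a x => !(l a).getD x false || (l' a).getD x false)
    (NPC.Poly.or (NPC.Poly.not (gb_poly hl1 hz)) (gb_poly hl2 hz)))
    (NPC.Poly.and (NPC.Poly.not (gb_poly hl h3)) (NPC.Poly.and (NPC.Poly.not (gb_poly hl h4))
    (NPC.Poly.and (NPC.Poly.or (NPC.Poly.dec_eq h3 h1) (gb_poly hl' h1))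
      (NPC.Poly.or (NPC.Poly.dec_eq h4 h2) (gb_poly hl' h2)))))

theorem midu_poly : Poly (fun p : α × ℕ => mid (l p.1) (l' p.1) (s p.1) p.2 && ub (d p.1) p.2) := by
  have hd1 : Poly (fun p : α × ℕ => d p.1) := hd.comp (NPC.Poly.fst NPC.Poly.id)
  have hs1 : Poly (fun p : α × ℕ => s p.1) := hs.comp (NPC.Poly.fst NPC.Poly.id)
  have hl1 : Poly (fun p : α × ℕ => l p.1) := hl.comp (NPC.Poly.fst NPC.Poly.id)
  have hl2 : Poly (fun p : α × ℕ => l' p.1) := hl'.comp (NPC.Poly.fst NPC.Poly.id)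
  have hz : Poly (fun p : α × ℕ => p.2) := NPC.Poly.snd NPC.Poly.id
  exact NPC.Poly.and (mid_poly hl1 hl2 hs1 hz) (ub_poly hd1 hz)

theorem midn_poly : Poly (fun p : α × ℕ => mid (l p.1) (l' p.1) (s p.1) p.2 && !ub (d p.1) p.2) := by
  have hd1 : Poly (fun p : α × ℕ => d p.1) := hd.comp (NPC.Poly.fst NPC.Poly.id)
  have hs1 : Poly (fun p : α × ℕ => s p.1) := hs.comp (NPC.Poly.fst NPC.Poly.id)
  have hl1 : Poly (fun p : α × ℕ => l p.1) := hl.comp (NPC.Poly.fst NPC.Poly.id)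
  have hl2 : Poly (fun p : α × ℕ => l' p.1) := hl'.comp (NPC.Poly.fst NPC.Poly.id)
  have hz : Poly (fun p : α × ℕ => p.2) := NPC.Poly.snd NPC.Poly.id
  exact NPC.Poly.and (mid_poly hl1 hl2 hs1 hz) (NPC.Poly.not (ub_poly hd1 hz))

theorem trM_poly : Poly (fun a => trM (d a) (s a) (s' a) (l a) (l' a)) := by
  have hs1 : Poly (fun p : α × ℕ => s p.1) := hs.comp (NPC.Poly.fst NPC.Poly.id)
  have hs2 : Poly (fun p : α × ℕ => s' p.1) := hs'.comp (NPC.Poly.fst NPC.Poly.id)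
  exact NPC.Poly.and (allV hd (F := fun a x => !(mid (l a) (l' a) (s a) x && ub (d a) x) ||
      !decide ((s' a).1 = (s a).1))
      (NPC.Poly.or (NPC.Poly.not (midu_poly hd hs hs' hl hl'))
        (ne_poly (NPC.Poly.fst hs2) (NPC.Poly.fst hs1))))
    (allV hd (F := fun a x => !(mid (l a) (l' a) (s a) x && !ub (d a) x) ||
      !decide ((s' a).2.1 = (s a).2.1))
      (NPC.Poly.or (NPC.Poly.not (midn_poly hd hs hs' hl hl'))
        (ne_poly (NPC.Poly.fst (NPC.Poly.snd hs2)) (NPC.Poly.fst (NPC.Poly.snd hs1)))))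

theorem trX_poly {p q : α → ℕ} (hp : Poly p) (hq : Poly q) :
    Poly (fun a => trX (d a) (s a) (p a) (q a) (l a) (l' a)) := by
  have hd1 : Poly (fun p : α × ℕ => d p.1) := hd.comp (NPC.Poly.fst NPC.Poly.id)
  have hp1 : Poly (fun x : α × ℕ => p x.1) := hp.comp (NPC.Poly.fst NPC.Poly.id)
  have hq1 : Poly (fun x : α × ℕ => q x.1) := hq.comp (NPC.Poly.fst NPC.Poly.id)
  have hz : Poly (fun p : α × ℕ => p.2) := NPC.Poly.snd NPC.Poly.id
  exact NPC.Poly.and (allV hd (F := fun a x => !(mid (l a) (l' a) (s a) x && ub (d a) x) ||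
      only (d a) x (q a))
      (NPC.Poly.or (NPC.Poly.not (midu_poly hd hs hs' hl hl')) (only_poly hd1 hz hq1)))
    (allV hd (F := fun a x => !(mid (l a) (l' a) (s a) x && !ub (d a) x) ||
      only (d a) x (p a))
      (NPC.Poly.or (NPC.Poly.not (midn_poly hd hs hs' hl hl')) (only_poly hd1 hz hp1)))

theorem trS_poly : Poly (fun a => trS (d a) (s a) (s' a) (l a) (l' a)) := by
  have hd1 : Poly (fun p : α × ℕ => d p.1) := hd.comp (NPC.Poly.fst NPC.Poly.id)
  have hs1 : Poly (fun p : α × ℕ => s p.1) := hs.comp (NPC.Poly.fst NPC.Poly.id)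
  have hl1 : Poly (fun p : α × ℕ => l p.1) := hl.comp (NPC.Poly.fst NPC.Poly.id)
  have hl2 : Poly (fun p : α × ℕ => l' p.1) := hl'.comp (NPC.Poly.fst NPC.Poly.id)
  have hz : Poly (fun p : α × ℕ => p.2) := NPC.Poly.snd NPC.Poly.id
  have hm := mid_poly hl1 hl2 hs1 hz
  have hu := ub_poly hd1 hz
  exact NPC.Poly.or (allV hd (F := fun a x => !mid (l a) (l' a) (s a) x || !ub (d a) x)
      (NPC.Poly.or (NPC.Poly.not hm) (NPC.Poly.not hu)))
    (NPC.Poly.or (allV hd (F := fun a x => !mid (l a) (l' a) (s a) x || ub (d a) x)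
      (NPC.Poly.or (NPC.Poly.not hm) hu))
    (NPC.Poly.or (trX_poly hd hs hs' hl hl' (NPC.Poly.fst hs) (NPC.Poly.fst (NPC.Poly.snd hs)))
      (trX_poly hd hs hs' hl hl' (NPC.Poly.fst hs') (NPC.Poly.fst (NPC.Poly.snd hs')))))

theorem trB_poly : Poly (fun a => trB (d a) (s a) (s' a) (l a) (l' a)) :=
  NPC.Poly.and (trA_poly hd hs hs' hl hl') (NPC.Poly.and (trM_poly hd hs hs' hl hl')
    (trS_poly hd hs hs' hl hl'))

end

theorem vl_poly {d : α → Dt} {s : α → Sc} (hd : Poly d) (hs : Poly s) :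
    Poly (fun a => vl (d a) (s a)) := by
  have h1 : Poly (fun a => (s a).1) := NPC.Poly.fst hs
  have h2 : Poly (fun a => (s a).2.1) := NPC.Poly.fst (NPC.Poly.snd hs)
  have h3 : Poly (fun a => (s a).2.2) := NPC.Poly.snd (NPC.Poly.snd hs)
  have hd' : Poly (fun p : α × ℕ => d p.1) := hd.comp (NPC.Poly.fst NPC.Poly.id)
  exact NPC.Poly.and (wb_poly hd h1) (NPC.Poly.and (ub_poly hd h1) (NPC.Poly.and (wb_poly hd h2)
    (NPC.Poly.and (NPC.Poly.not (ub_poly hd h2)) (NPC.Poly.and (NPC.Poly.dec_eq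
      (NPC.Poly.length h3) (NPC.Poly.const 6)) (NPC.Poly.all (l := fun a => (s a).2.2)
        (p := fun a c => wb (d a) c) h3 (wb_poly hd' (NPC.Poly.snd NPC.Poly.id)))))))

theorem tE_poly {d : α → Dt} {s s' : α → Sc} (hd : Poly d) (hs : Poly s) (hs' : Poly s') :
    Poly (fun a => tE (d a) (s a) (s' a)) :=
  NPC.Poly.and (vl_poly hd hs) (NPC.Poly.and (vl_poly hd hs')
    (trB_poly hd hs hs' (lL_poly hd hs) (lL_poly hd hs')))

theorem stI_poly {d : α → Dt} {s : α → Sc} (hd : Poly d) (hs : Poly s) :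
    Poly (fun a => stI (d a) (s a)) := by
  have hd1 : Poly (fun p : α × ℕ => d p.1) := hd.comp (NPC.Poly.fst NPC.Poly.id)
  have hs1 : Poly (fun p : α × ℕ => s p.1) := hs.comp (NPC.Poly.fst NPC.Poly.id)
  exact NPC.Poly.and (vl_poly hd hs) (allV hd (F := fun a u => !(lL (d a) (s a)).getD u false)
    (NPC.Poly.not (gb_poly (lL_poly hd1 hs1) (NPC.Poly.snd NPC.Poly.id))))

theorem fin_poly {d : α → Dt} {s : α → Sc} (hd : Poly d) (hs : Poly s) :
    Poly (fun a => fin (d a) (s a)) := by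
  have hd1 : Poly (fun p : α × ℕ => d p.1) := hd.comp (NPC.Poly.fst NPC.Poly.id)
  have hs1 : Poly (fun p : α × ℕ => s p.1) := hs.comp (NPC.Poly.fst NPC.Poly.id)
  have hz : Poly (fun p : α × ℕ => p.2) := NPC.Poly.snd NPC.Poly.id
  exact NPC.Poly.and (vl_poly hd hs) (allV hd (F := fun a u => !wb (d a) u ||
    (decide (u = (s a).1) || (decide (u = (s a).2.1) || (lL (d a) (s a)).getD u false)))
    (NPC.Poly.or (NPC.Poly.not (wb_poly hd1 hz)) (NPC.Poly.or (NPC.Poly.dec_eq hz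
      (NPC.Poly.fst hs1)) (NPC.Poly.or (NPC.Poly.dec_eq hz (NPC.Poly.fst (NPC.Poly.snd hs1)))
      (gb_poly (lL_poly hd1 hs1) hz)))))

theorem ext1_poly {V : α → List ℕ} {L : α → List (List ℕ)} (hV : Poly V) (hL : Poly L) :
    Poly (fun a => ext1 (V a) (L a)) := by
  have hV' : Poly (fun p : α × List ℕ => V p.1) := hV.comp (NPC.Poly.fst NPC.Poly.id)
  exact NPC.Poly.flatMap (l := L) (F := fun a l => (V a).map fun c => c :: l) hL
    (NPC.Poly.map (l := fun p : α × List ℕ => V p.1) (F := fun p c => c :: p.2) hV'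
      (NPC.Poly.cons (NPC.Poly.snd NPC.Poly.id) (NPC.Poly.snd (NPC.Poly.fst NPC.Poly.id))))

theorem l6_poly {V : α → List ℕ} (hV : Poly V) : Poly (fun a => l6 (V a)) :=
  ext1_poly hV (ext1_poly hV (ext1_poly hV (ext1_poly hV (ext1_poly hV (ext1_poly hV
    (NPC.Poly.const [[]]))))))

theorem sts_poly {V : α → List ℕ} (hV : Poly V) : Poly (fun a => sts (V a)) := by
  have hV' : Poly (fun p : α × ℕ => V p.1) := hV.comp (NPC.Poly.fst NPC.Poly.id)
  have hV'' : Poly (fun p : (α × ℕ) × ℕ => V p.1.1) :=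
    hV.comp (NPC.Poly.fst (NPC.Poly.fst NPC.Poly.id))
  exact NPC.Poly.flatMap (l := V) (F := fun a t => (V a).flatMap fun b => (l6 (V a)).map
    fun C => (t, b, C)) hV (NPC.Poly.flatMap (l := fun p : α × ℕ => V p.1)
      (F := fun p b => (l6 (V p.1)).map fun C => (p.2, b, C)) hV'
      (NPC.Poly.map (l := fun p : (α × ℕ) × ℕ => l6 (V p.1.1)) (F := fun p C => (p.1.2, p.2, C))
        (l6_poly hV'') (NPC.Poly.pair (NPC.Poly.snd (NPC.Poly.fst (NPC.Poly.fst NPC.Poly.id)))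
          (NPC.Poly.pair (NPC.Poly.snd (NPC.Poly.fst NPC.Poly.id)) (NPC.Poly.snd NPC.Poly.id)))))

theorem gs_poly {S : α → List Sc} {x : α → ℕ} (hS : Poly S) (hx : Poly x) :
    Poly (fun a => (S a).getD (x a) (0, 0, [])) := NPC.Poly.getD hS hx (NPC.Poly.const (0, 0, []))

theorem rl_poly {d : α → Dt} {S : α → List Sc} (hd : Poly d) (hS : Poly S) :
    Poly (fun a => rl (d a) (S a)) := by
  unfold rl
  refine reachL_poly (N := fun a => (S a).length)
    (E := fun a i j => tE (d a) ((S a).getD i (0, 0, [])) ((S a).getD j (0, 0, [])))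
    (init := fun a i => stI (d a) ((S a).getD i (0, 0, []))) (UPoly.length hS) ?_ ?_
  · have hd' : Poly (fun p : α × ℕ × ℕ => d p.1) := hd.comp (NPC.Poly.fst NPC.Poly.id)
    have hs' : Poly (fun p : α × ℕ × ℕ => S p.1) := hS.comp (NPC.Poly.fst NPC.Poly.id)
    exact tE_poly hd' (gs_poly hs' (NPC.Poly.fst (NPC.Poly.snd NPC.Poly.id)))
      (gs_poly hs' (NPC.Poly.snd (NPC.Poly.snd NPC.Poly.id)))
  · have hd' : Poly (fun p : α × ℕ => d p.1) := hd.comp (NPC.Poly.fst NPC.Poly.id)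
    have hs' : Poly (fun p : α × ℕ => S p.1) := hS.comp (NPC.Poly.fst NPC.Poly.id)
    exact stI_poly hd' (gs_poly hs' (NPC.Poly.snd NPC.Poly.id))

theorem acc_poly : Poly acc := by
  unfold acc
  have hS : Poly (fun d : Dt => sts d.1) := sts_poly (NPC.Poly.fst NPC.Poly.id)
  have hS' : Poly (fun p : Dt × ℕ => sts p.1.1) := hS.comp (NPC.Poly.fst NPC.Poly.id)
  have hd : Poly (fun p : Dt × ℕ => p.1) := NPC.Poly.fst NPC.Poly.id
  have hz : Poly (fun p : Dt × ℕ => p.2) := NPC.Poly.snd NPC.Poly.id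
  exact NPC.Poly.any (l := fun d : Dt => List.range (sts d.1).length)
    (p := fun d k => (rl d (sts d.1)).getD k false && fin d ((sts d.1).getD k (0, 0, [])))
    (UPoly.length hS).range (NPC.Poly.and (gb_poly (rl_poly hd hS') hz)
      (fin_poly hd (gs_poly hS' hz)))

end Pool.Agent.R552.Fan
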