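import Mathlib

/-!
# Two-layer fan-planar drawings: the combinatorial core

Drawings are given by the positions of the vertices on their layers.
-/

namespace Pool.Agent.R552.Fan

/-- The edges `a b` and `c d` (with `a, c` on the upper and `b, d` on the lower layer) cross. -/
def X (pos : ℕ → ℕ) (a b c d : ℕ) : Prop :=
  (pos a < pos c ∧ pos d < pos b) ∨ (pos c < pos a ∧ pos b < pos d)

/-- A fan-planar drawing on two layers of the graph induced by `W`. -/
structure Dr (adj : ℕ → ℕ → Prop) (W : Finset ℕ) (top : ℕ → Prop) (pos : ℕ → ℕ) : Prop where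
  alt : ∀ u ∈ W, ∀ v ∈ W, adj u v → (top u ↔ ¬ top v)
  inj : ∀ u ∈ W, ∀ v ∈ W, (top u ↔ top v) → pos u = pos v → u = v
  fan : ∀ a ∈ W, ∀ b ∈ W, ∀ c ∈ W, ∀ d ∈ W, ∀ e ∈ W, ∀ f ∈ W, top a → top c → top e →
    adj a b → adj c d → adj e f → X pos a b c d → X pos a b e f → c = e ∨ d = f

/-- the states of the algorithm: a vertical line, and the vertices on its left -/
structure St where
  t : ℕ
  b : ℕ
  L : Finset ℕ

/-- valid states -/
structure Valid (adj : ℕ → ℕ → Prop) (W : Finset ℕ) (top : ℕ → Prop) (s : St) : Prop where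
  tW : s.t ∈ W
  bW : s.b ∈ W
  tt : top s.t
  tb : ¬ top s.b
  LW : s.L ⊆ W
  tL : s.t ∉ s.L
  bL : s.b ∉ s.L
  cl : ∀ u ∈ s.L, ∀ v ∈ W, adj u v → v ∈ s.L ∨ v = s.t ∨ v = s.b

/-- the vertices strictly between two states -/
def Mid (s s' : St) (x : ℕ) : Prop := x ∈ s'.L ∧ x ∉ s.L ∧ x ≠ s.t ∧ x ≠ s.b

/-- transitions between states -/
structure Tr (adj : ℕ → ℕ → Prop) (W : Finset ℕ) (top : ℕ → Prop) (s s' : St) : Prop where
  sub : s.L ⊆ s'.L
  t' : s'.t ∉ s.L
  b' : s'.b ∉ s.L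
  ht : s'.t = s.t ∨ s.t ∈ s'.L
  hb : s'.b = s.b ∨ s.b ∈ s'.L
  mt : ∀ x, Mid s s' x → top x → s'.t ≠ s.t
  mb : ∀ x, Mid s s' x → ¬ top x → s'.b ≠ s.b
  shape : (∀ x, Mid s s' x → ¬ top x) ∨ (∀ x, Mid s s' x → top x) ∨
    ((∀ x, Mid s s' x → top x → ∀ y ∈ W, adj x y → y = s.b) ∧
      (∀ x, Mid s s' x → ¬ top x → ∀ y ∈ W, adj x y → y = s.t)) ∨
    ((∀ x, Mid s s' x → top x → ∀ y ∈ W, adj x y → y = s'.b) ∧
      (∀ x, Mid s s' x → ¬ top x → ∀ y ∈ W, adj x y → y = s'.t))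

/-! ### Soundness -/

section sound

variable {adj : ℕ → ℕ → Prop} {W : Finset ℕ} {top : ℕ → Prop}

/-- the processed part of the graph is drawn, with the last vertices at the end -/
def Part (adj : ℕ → ℕ → Prop) (top : ℕ → Prop) (s : St) : Prop :=
  ∃ pos : ℕ → ℕ, Dr adj (insert s.t (insert s.b s.L)) top pos ∧
    (∀ x ∈ s.L, top x → pos x < pos s.t) ∧ (∀ x ∈ s.L, ¬ top x → pos x < pos s.b)

theorem part_start (hsym : ∀ u v, adj u v → adj v u) {s : St} (hv : Valid adj W top s)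
    (alt : ∀ u ∈ W, ∀ v ∈ W, adj u v → (top u ↔ ¬ top v)) (h0 : s.L = ∅) : Part adj top s := by
  have htt := hv.tt
  have htb := hv.tb
  refine ⟨fun _ => 0, ⟨?_, ?_, ?_⟩, ?_, ?_⟩
  · intro u hu v hv'
    apply alt
    · rw [h0] at hu
      simp only [Finset.mem_insert, Finset.notMem_empty, or_false] at hu
      rcases hu with rfl | rfl
      · exact hv.tW
      · exact hv.bW
    · rw [h0] at hv'
      simp only [Finset.mem_insert, Finset.notMem_empty, or_false] at hv'
      rcases hv' with rfl | rfl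
      · exact hv.tW
      · exact hv.bW
  · intro u hu v hv' h _
    rw [h0] at hu hv'
    simp only [Finset.mem_insert, Finset.notMem_empty, or_false] at hu hv'
    rcases hu with rfl | rfl <;> rcases hv' with rfl | rfl
    · rfl
    · exact absurd (h.1 htt) htb
    · exact absurd (h.2 htt) htb
    · rfl
  · intro a _ b _ c _ d _ e _ f _ _ _ _ _ _ _ hX
    rcases hX with ⟨h, _⟩ | ⟨h, _⟩ <;> exact absurd h (lt_irrefl 0)
  · rw [h0]
    intro x hx
    exact absurd hx (Finset.notMem_empty x)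
  · rw [h0]
    intro x hx
    exact absurd hx (Finset.notMem_empty x)

end sound

end Pool.Agent.R552.Fan
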