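import Mathlib

/-!
# Straight-line fan-planar drawings on two layers
-/

namespace Pool.Agent.R552.Fan

variable {V : Type*}

/-- The straight-line edges `uv` and `wz` of a drawing cross: they are different edges and have a
common interior point. -/
def Cross (p : V → ℝ × ℝ) (u v w z : V) : Prop :=
  s(u, v) ≠ s(w, z) ∧ (openSegment ℝ (p u) (p v) ∩ openSegment ℝ (p w) (p z)).Nonempty

/-- The side of the line from `a` to `b` on which `q` lies: positive on the left, negative on the
right. -/
def side (a b q : ℝ × ℝ) : ℝ := (b.1 - a.1) * (q.2 - a.2) - (b.2 - a.2) * (q.1 - a.1)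

/-- `p` is a straight-line drawing of `G`: the vertices are distinct points, no edge passes through a
vertex, two edges have at most one common point (so they meet only at a common endpoint or at a
proper crossing), and no three edges cross at one point. -/
structure IsDrawing (G : SimpleGraph V) (p : V → ℝ × ℝ) : Prop where
  injective : Function.Injective p
  no_vertex : ∀ u v w, G.Adj u v → p w ∉ openSegment ℝ (p u) (p v)
  meet : ∀ u v w z, G.Adj u v → G.Adj w z → s(u, v) ≠ s(w, z) →
    (segment ℝ (p u) (p v) ∩ segment ℝ (p w) (p z)).Subsingleton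
  no_triple : ∀ a b c d e f, G.Adj a b → G.Adj c d → G.Adj e f → s(a, b) ≠ s(c, d) →
    s(a, b) ≠ s(e, f) → s(c, d) ≠ s(e, f) →
    openSegment ℝ (p a) (p b) ∩ openSegment ℝ (p c) (p d) ∩ openSegment ℝ (p e) (p f) = ∅

/-- `p` is a fan-planar straight-line drawing of `G`: there is no configuration (I), an edge crossed
by two edges that have no common endpoint, and no configuration (II), an edge `ab` crossed by two
edges `uv`, `uw` from opposite sides. -/
structure IsFanPlanar (G : SimpleGraph V) (p : V → ℝ × ℝ) : Prop extends IsDrawing G p where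
  no_I : ∀ a b c d e f, G.Adj a b → G.Adj c d → G.Adj e f → Cross p a b c d → Cross p a b e f →
    ∃ x, (x = c ∨ x = d) ∧ (x = e ∨ x = f)
  no_II : ∀ a b u v w, G.Adj a b → G.Adj u v → G.Adj u w → Cross p a b u v → Cross p a b u w →
    ¬ ((0 < side (p a) (p b) (p u) ∧ side (p a) (p b) (p v) < 0) ∧
      (side (p a) (p b) (p u) < 0 ∧ 0 < side (p a) (p b) (p w)))

/-- `G` is 2-layer fan-planar: it has a fan-planar drawing in which every vertex lies on one of two
distinct horizontal lines and every edge is a straight segment joining vertices on different lines. -/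
def TwoLayerFanPlanar (G : SimpleGraph V) : Prop :=
  ∃ p : V → ℝ × ℝ, IsFanPlanar G p ∧ ∃ h₀ h₁ : ℝ, h₀ ≠ h₁ ∧
    (∀ v, (p v).2 = h₀ ∨ (p v).2 = h₁) ∧ ∀ u v, G.Adj u v → (p u).2 ≠ (p v).2

end Pool.Agent.R552.Fan
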