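import Pool.Agent.R552.Fan.Glue

/-!
# The drawing of the whole graph
-/

namespace Pool.Agent.R552.Fan

open Relation

theorem lt2 {M a b a' b' : ℕ} (hb : b < M) (hb' : b' < M) :
    a * M + b < a' * M + b' ↔ a < a' ∨ (a = a' ∧ b < b') := by
  rcases lt_trichotomy a a' with h | h | h
  · have h1 : (a + 1) * M ≤ a' * M := Nat.mul_le_mul_right _ h
    rw [Nat.add_mul] at h1
    constructor
    · intro _; exact Or.inl h
    · intro _; omega
  · subst h
    constructor
    · intro h1; exact Or.inr ⟨rfl, by omega⟩
    · rintro (h1 | ⟨_, h1⟩)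
      · omega
      · omega
  · have h1 : (a' + 1) * M ≤ a * M := Nat.mul_le_mul_right _ h
    rw [Nat.add_mul] at h1
    constructor
    · intro _; omega
    · rintro (h2 | ⟨h2, _⟩) <;> omega

theorem eq2 {M a b a' b' : ℕ} (hb : b < M) (hb' : b' < M) :
    a * M + b = a' * M + b' ↔ a = a' ∧ b = b' := by
  have h1 := lt2 (a := a) (a' := a') hb hb'
  have h2 := lt2 (a := a') (a' := a) hb' hb
  constructor
  · intro h
    have h3 : ¬ (a < a' ∨ (a = a' ∧ b < b')) := fun hc => by
      have := h1.2 hc
      omega
    have h4 : ¬ (a' < a ∨ (a' = a ∧ b' < b)) := fun hc => by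
      have := h2.2 hc
      omega
    omega
  · rintro ⟨rfl, rfl⟩; rfl

variable {n : ℕ} {adj : ℕ → ℕ → Prop}

open Classical in
/-- the first vertex of the component -/
noncomputable def root (n : ℕ) (adj : ℕ → ℕ → Prop) (u : ℕ) : ℕ :=
  if h : ∃ v, v < n ∧ CC n adj v u then Nat.find h else 0

theorem root_spec {u : ℕ} (hu : u < n) : root n adj u < n ∧ CC n adj (root n adj u) u := by
  classical
  have h : ∃ v, v < n ∧ CC n adj v u := ⟨u, hu, .refl⟩
  unfold root
  rw [dif_pos h]
  exact Nat.find_spec h

theorem root_eq (hsym : ∀ u v, adj u v → adj v u) (hlt : ∀ u v, adj u v → u < n ∧ v < n) {u w : ℕ}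
    (h : adj u w) : root n adj u = root n adj w := by
  classical
  have e : ∀ v, (v < n ∧ CC n adj v u) ↔ (v < n ∧ CC n adj v w) := by
    intro v
    exact and_congr_right fun _ => ⟨fun h1 => cc_adj hlt h1 h, fun h1 => cc_adj hlt h1 (hsym _ _ h)⟩
  unfold root
  have e' : (fun v => v < n ∧ CC n adj v u) = (fun v => v < n ∧ CC n adj v w) := by
    funext v
    exact propext (e v)
  by_cases h1 : ∃ v, v < n ∧ CC n adj v u
  · have h2 : ∃ v, v < n ∧ CC n adj v w := by
      obtain ⟨v, hv⟩ := h1
      exact ⟨v, (e v).1 hv⟩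
    rw [dif_pos h1, dif_pos h2]
    apply le_antisymm
    · exact Nat.find_min' h1 ((e _).2 (Nat.find_spec h2))
    · exact Nat.find_min' h2 ((e _).1 (Nat.find_spec h1))
  · have h2 : ¬ ∃ v, v < n ∧ CC n adj v w := by
      rintro ⟨v, hv⟩
      exact h1 ⟨v, (e v).2 hv⟩
    rw [dif_neg h1, dif_neg h2]

theorem all_of_comp (hsym : ∀ u v, adj u v → adj v u) (hlt : ∀ u v, adj u v → u < n ∧ v < n)
    (hbip : ∀ v < n, ∀ u < n, ¬ (DD n adj v u 0 ∧ DD n adj v u 1))
    (hc : ∀ v < n, (∃ y, adj v y) → ∃ pos, Dr adj (Wv n adj v) (fun u => DD n adj v u 0) pos) :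
    ∃ top pos, Dr adj (Finset.range n) top pos := by
  classical
  have hc' : ∀ v, ∃ pos : ℕ → ℕ, v < n → (∃ y, adj v y) →
      Dr adj (Wv n adj v) (fun u => DD n adj v u 0) pos := by
    intro v
    by_cases hv : v < n ∧ ∃ y, adj v y
    · obtain ⟨pos, hp⟩ := hc v hv.1 hv.2
      exact ⟨pos, fun _ _ => hp⟩
    · exact ⟨fun _ => 0, fun h1 h2 => absurd ⟨h1, h2⟩ hv⟩
  choose pv hpv using hc'
  set P : ℕ := (Finset.range n ×ˢ Finset.range n).sup (fun x => pv x.1 x.2) + 1 with hP
  have hPlt : ∀ v < n, ∀ x < n, pv v x < P := by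
    intro v hv x hx
    have := Finset.le_sup (f := fun x : ℕ × ℕ => pv x.1 x.2)
      (show (v, x) ∈ Finset.range n ×ˢ Finset.range n from
        Finset.mem_product.2 ⟨Finset.mem_range.2 hv, Finset.mem_range.2 hx⟩)
    simp only at this
    omega
  let q : ℕ → ℕ := fun u => pv (root n adj u) (rep adj u)
  have hq : ∀ u < n, q u < P := fun u hu =>
    hPlt _ (root_spec hu).1 _ (lt_of_le_of_lt (rep_le u) hu)
  let pos : ℕ → ℕ := fun u => (root n adj u * P + q u) * n + u
  have hpos : ∀ u < n, ∀ w < n, (pos u < pos w ↔ root n adj u < root n adj w ∨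
      (root n adj u = root n adj w ∧ (q u < q w ∨ (q u = q w ∧ u < w)))) := by
    intro u hu w hw
    simp only [pos]
    rw [lt2 hu hw, lt2 (hq u hu) (hq w hw), eq2 (hq u hu) (hq w hw)]
    tauto
  let top : ℕ → Prop := fun u => DD n adj (root n adj u) u 0
  -- roots of non-isolated vertices
  have rni : ∀ u w, adj u w → ∃ y, adj (root n adj u) y := by
    intro u w huw
    obtain ⟨h1, h2⟩ := root_spec (adj := adj) (hlt _ _ huw).1
    have gen : ∀ v, CC n adj u v → ∃ y, adj v y := by
      intro v hv
      cases hv with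
      | refl => exact ⟨w, huw⟩
      | tail _ h => exact ⟨_, hsym _ _ h.2.2⟩
    exact gen _ (cc_symm hsym h2)
  have halt : ∀ u w, adj u w → (top u ↔ ¬ top w) := by
    intro u w huw
    have h1 := root_spec (adj := adj) (hlt _ _ huw).1
    have h2 := alt_Wv hlt (hbip _ h1.1) h1.1 h1.2 huw
    simp only [top]
    rw [← root_eq hsym hlt huw]
    exact h2
  refine ⟨top, pos, ⟨?_, ?_, ?_⟩⟩
  · intro u _ w _ huw
    exact halt u w huw
  · intro u hu w hw _ he
    rw [Finset.mem_range] at hu hw
    simp only [pos] at he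
    rw [eq2 hu hw] at he
    exact he.2
  · intro a ha b hb c hc d hd e he f hf ta tc te hab hcd hef h1 h2
    rw [Finset.mem_range] at ha hb hc hd he hf
    -- a crossing in the whole drawing is one in the component
    have key : ∀ a b c d, a < n → b < n → c < n → d < n → top a → top c → adj a b → adj c d →
        pos a < pos c → pos d < pos b →
        root n adj c = root n adj a ∧
        pv (root n adj a) (rep adj a) < pv (root n adj a) (rep adj c) ∧
        pv (root n adj a) (rep adj d) < pv (root n adj a) (rep adj b) := by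
      intro a b c d ha hb hc hd ta tc hab hcd p1 p2
      rw [hpos a ha c hc] at p1
      rw [hpos d hd b hb] at p2
      have r1 := root_eq hsym hlt hab
      have r2 := root_eq hsym hlt hcd
      have e1 : root n adj c = root n adj a := by
        rcases p1 with p1 | ⟨p1, _⟩
        · rcases p2 with p2 | ⟨p2, _⟩ <;> omega
        · exact p1.symm
      have e2 : root n adj d = root n adj a := by rw [← r2, e1]
      have e3 : root n adj b = root n adj a := r1.symm
      have q1 : q a < q c ∨ (q a = q c ∧ a < c) := by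
        rcases p1 with p1 | ⟨_, p1⟩
        · omega
        · exact p1
      have q2 : q d < q b ∨ (q d = q b ∧ d < b) := by
        rcases p2 with p2 | ⟨_, p2⟩
        · omega
        · exact p2
      simp only [q, e1, e2, e3] at q1 q2
      have hr := root_spec (adj := adj) ha
      have hD := hpv _ hr.1 (rni a b hab)
      have ca : CC n adj (root n adj a) a := hr.2
      have cb : CC n adj (root n adj a) b := cc_adj hlt ca hab
      have cc' : CC n adj (root n adj a) c := e1 ▸ (root_spec (adj := adj) hc).2
      have cd : CC n adj (root n adj a) d := cc_adj hlt cc' hcd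
      have ma := rep_mem hsym hlt hr.1 ca
      have mb := rep_mem hsym hlt hr.1 cb
      have mc := rep_mem hsym hlt hr.1 cc'
      have md := rep_mem hsym hlt hr.1 cd
      have ta' : DD n adj (root n adj a) (rep adj a) 0 := (dd_rep hsym hlt (by omega)).1 ta
      have tc' : DD n adj (root n adj a) (rep adj c) 0 := by
        rw [← dd_rep hsym hlt (by omega), ← e1]
        exact tc
      have tb' : ¬ DD n adj (root n adj a) (rep adj b) 0 := by
        have := halt a b hab
        rw [← dd_rep hsym hlt (by omega), ← e3]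
        tauto
      have td' : ¬ DD n adj (root n adj a) (rep adj d) 0 := by
        have := halt c d hcd
        rw [← dd_rep hsym hlt (by omega), ← e2]
        tauto
      refine ⟨e1, ?_, ?_⟩
      · rcases q1 with q1 | ⟨q1, q3⟩
        · exact q1
        · exfalso
          have e4 := hD.inj _ ma _ mc (by tauto) q1
          obtain ⟨z, h3, h4⟩ := rep_eq e4 (by omega)
          have e5 := h3.2 b hab
          have e6 := h4.2 d hcd
          rw [← e6] at e5
          rw [e5] at q2
          omega
      · rcases q2 with q2 | ⟨q2, q3⟩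
        · exact q2
        · exfalso
          have e4 := hD.inj _ md _ mb (by tauto) q2
          obtain ⟨z, h3, h4⟩ := rep_eq e4 (by omega)
          have e5 := h3.2 c (hsym _ _ hcd)
          have e6 := h4.2 a (hsym _ _ hab)
          rw [← e6] at e5
          rw [e5] at q1
          omega
    have key2 : ∀ c d, c < n → d < n → top c → adj c d → X pos a b c d →
        root n adj c = root n adj a ∧ X (pv (root n adj a)) (rep adj a) (rep adj b) (rep adj c)
          (rep adj d) := by
      intro c d hc hd tc hcd hX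
      rcases hX with ⟨p1, p2⟩ | ⟨p1, p2⟩
      · obtain ⟨k1, k2, k3⟩ := key a b c d ha hb hc hd ta tc hab hcd p1 p2
        exact ⟨k1, Or.inl ⟨k2, k3⟩⟩
      · obtain ⟨k1, k2, k3⟩ := key c d a b hc hd ha hb tc ta hcd hab p1 p2
        rw [← k1] at k2 k3
        exact ⟨k1.symm, Or.inr ⟨k2, k3⟩⟩
    obtain ⟨x1, x2⟩ := key2 c d hc hd tc hcd h1
    obtain ⟨x3, x4⟩ := key2 e f he hf te hef h2
    have hr := root_spec (adj := adj) ha
    have hD := hpv _ hr.1 (rni a b hab)
    have ca : CC n adj (root n adj a) a := hr.2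
    have cb : CC n adj (root n adj a) b := cc_adj hlt ca hab
    have cc' : CC n adj (root n adj a) c := x1 ▸ (root_spec (adj := adj) hc).2
    have cd : CC n adj (root n adj a) d := cc_adj hlt cc' hcd
    have ce : CC n adj (root n adj a) e := x3 ▸ (root_spec (adj := adj) he).2
    have cf : CC n adj (root n adj a) f := cc_adj hlt ce hef
    have := hD.fan _ (rep_mem hsym hlt hr.1 ca) _ (rep_mem hsym hlt hr.1 cb) _
      (rep_mem hsym hlt hr.1 cc') _ (rep_mem hsym hlt hr.1 cd) _ (rep_mem hsym hlt hr.1 ce) _
      (rep_mem hsym hlt hr.1 cf) ((dd_rep hsym hlt (by omega)).1 ta)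
      (by
        rw [← dd_rep hsym hlt (by omega), ← x1]
        exact tc)
      (by
        rw [← dd_rep hsym hlt (by omega), ← x3]
        exact te)
      (adj_rep hsym hab) (adj_rep hsym hcd) (adj_rep hsym hef) x2 x4
    rcases this with h5 | h5
    · by_cases hce : c = e
      · exact Or.inl hce
      · obtain ⟨z, h3, h4⟩ := rep_eq h5 hce
        right
        rw [h3.2 d hcd, h4.2 f hef]
    · by_cases hdf : d = f
      · exact Or.inr hdf
      · obtain ⟨z, h3, h4⟩ := rep_eq h5 hdf
        left
        rw [h3.2 c (hsym _ _ hcd), h4.2 e (hsym _ _ hef)]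

end Pool.Agent.R552.Fan
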