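import Pool.Agent.R552.Fan.AlgPoly
import Pool.Agent.R552.Fan.Glue2

/-!
# The algorithm
-/

namespace Pool.Agent.R552.Fan

open Pool.Agent.NPC Pool.Agent.NPC.R671 Pool.Agent.H671R2.Ord Relation Pool.Agent.R552.Reach

/-- the double cover of the component -/
def compL (M : List (List Bool)) (v : ℕ) : List Bool :=
  reachL (2 * M.length) (fun i j => me M (i / 2) (j / 2) && !decide (i % 2 = j % 2))
    (fun i => decide (i = 2 * v))

/-- leaves -/
def lfB (M : List (List Bool)) (x z : ℕ) : Bool :=
  me M x z && (List.range M.length).all (fun y => !me M x y || decide (y = z))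

/-- duplicate leaves -/
def dupB (M : List (List Bool)) (u : ℕ) : Bool :=
  (List.range M.length).any fun w => decide (w < u) && (List.range M.length).any fun z =>
    lfB M w z && lfB M u z

/-- the vertices of the component -/
def wlL (M : List (List Bool)) (v : ℕ) : List Bool :=
  (List.range M.length).map fun u =>
    ((compL M v).getD (2 * u) false || (compL M v).getD (2 * u + 1) false) && !dupB M u

/-- the upper vertices -/
def tlL (M : List (List Bool)) (v : ℕ) : List Bool :=
  (List.range M.length).map fun u => (compL M v).getD (2 * u) false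

/-- the test for one component -/
def algV (M : List (List Bool)) (v : ℕ) : Bool :=
  (List.range M.length).all (fun u =>
    !((compL M v).getD (2 * u) false && (compL M v).getD (2 * u + 1) false)) &&
  ((List.range M.length).all (fun y => !me M v y) ||
    acc (List.range M.length, M, wlL M v, tlL M v))

/-- **the algorithm** -/
def alg (M : List (List Bool)) : Bool := wf M && (List.range M.length).all fun v => algV M v

/-! ### Correctness -/

/-- adjacency -/
def adM (M : List (List Bool)) (i j : ℕ) : Prop := me M i j = true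

theorem adM_iff {n : ℕ} (G : SimpleGraph (Fin n)) (i j : ℕ) :
    adM (adjMatrix G) i j ↔ ∃ (hi : i < n) (hj : j < n), G.Adj ⟨i, hi⟩ ⟨j, hj⟩ := by
  unfold adM
  constructor
  · intro h
    have hi : i < n := by
      by_contra hcon
      unfold me at h
      have h1 : (adjMatrix G).getD i [] = [] := by
        rw [List.getD_eq_getElem?_getD, List.getElem?_eq_none]
        · rfl
        · rw [length_adjMatrix]; omega
      rw [h1] at h
      simp at h
    have hj : j < n := by
      by_contra hcon
      unfold me at h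
      have h1 : (adjMatrix G).getD i [] = (adjMatrix G)[i]'(by rw [length_adjMatrix]; exact hi) := by
        rw [List.getD_eq_getElem?_getD, List.getElem?_eq_getElem]
        rfl
      rw [h1] at h
      have h2 : ((adjMatrix G)[i]'(by rw [length_adjMatrix]; exact hi)).length = n := by
        simp [adjMatrix]
      rw [List.getD_eq_getElem?_getD, List.getElem?_eq_none (by omega)] at h
      simp at h
    exact ⟨hi, hj, (me_adj G ⟨i, hi⟩ ⟨j, hj⟩).1 h⟩
  · rintro ⟨hi, hj, h⟩
    exact (me_adj G ⟨i, hi⟩ ⟨j, hj⟩).2 h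

theorem adM_symm {n : ℕ} (G : SimpleGraph (Fin n)) (i j : ℕ) (h : adM (adjMatrix G) i j) :
    adM (adjMatrix G) j i := by
  rw [adM_iff] at h ⊢
  obtain ⟨hi, hj, h⟩ := h
  exact ⟨hj, hi, h.symm⟩

theorem adM_lt {n : ℕ} (G : SimpleGraph (Fin n)) (i j : ℕ) (h : adM (adjMatrix G) i j) :
    i < n ∧ j < n := by
  rw [adM_iff] at h
  obtain ⟨hi, hj, _⟩ := h
  exact ⟨hi, hj⟩

section

variable {n : ℕ} (G : SimpleGraph (Fin n))

theorem compL_iff {v u p : ℕ} (hv : v < n) :
    (compL (adjMatrix G) v).getD (2 * u + p) false = true ↔ DD n (adM (adjMatrix G)) v u p := by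
  unfold compL
  rw [reachL_iff, length_adjMatrix]
  have e : (fun i j => i < 2 * n ∧ j < 2 * n ∧ (me (adjMatrix G) (i / 2) (j / 2) &&
      !decide (i % 2 = j % 2)) = true) = D2 n (adM (adjMatrix G)) := by
    funext i j
    unfold D2 adM
    simp only [Bool.and_eq_true, Bool.not_eq_true', decide_eq_false_iff_not, ne_eq]
  rw [e]
  unfold DD
  simp only [decide_eq_true_eq]
  constructor
  · rintro ⟨s, _, rfl, h⟩
    exact h
  · intro h
    exact ⟨2 * v, by omega, rfl, h⟩

theorem lfB_iff {x z : ℕ} : lfB (adjMatrix G) x z = true ↔ Lf (adM (adjMatrix G)) x z := by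
  unfold lfB Lf
  simp only [Bool.and_eq_true, List.all_eq_true, List.mem_range, Bool.or_eq_true,
    Bool.not_eq_true', decide_eq_true_eq, length_adjMatrix]
  apply and_congr_right
  intro _
  constructor
  · intro h y hy
    rcases h y (adM_lt G _ _ hy).2 with h1 | h1
    · unfold adM at hy
      rw [h1] at hy
      exact absurd hy (by simp)
    · exact h1
  · intro h y _
    by_cases hy : me (adjMatrix G) x y = true
    · exact Or.inr (h y hy)
    · exact Or.inl (by simpa using hy)

theorem dupB_iff {u : ℕ} : dupB (adjMatrix G) u = true ↔ Dup (adM (adjMatrix G)) u := by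
  unfold dupB Dup
  simp only [List.any_eq_true, List.mem_range, Bool.and_eq_true, decide_eq_true_eq, lfB_iff,
    length_adjMatrix]
  constructor
  · rintro ⟨w, _, h1, z, _, h2, h3⟩
    exact ⟨w, h1, z, h2, h3⟩
  · rintro ⟨w, h1, z, h2, h3⟩
    have := adM_lt G _ _ h2.1
    exact ⟨w, this.1, h1, z, this.2, h2, h3⟩

theorem wlL_iff {v u : ℕ} (hv : v < n) : (wlL (adjMatrix G) v).getD u false = true ↔
    u ∈ Wv n (adM (adjMatrix G)) v := by
  unfold wlL
  have h0 := compL_iff G (u := u) (p := 0) hv
  have h1 := compL_iff G (u := u) (p := 1) hv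
  rw [add_zero] at h0
  rw [getD_map, length_adjMatrix, mem_Wv]
  simp only [Bool.and_eq_true, Bool.or_eq_true, h0, h1, Bool.not_eq_true']
  rw [← Bool.not_eq_true, dupB_iff]
  apply and_congr_right
  intro _
  apply and_congr_left
  intro _
  constructor
  · rintro (h | h)
    · exact cc_of_dd (by omega) h
    · exact cc_of_dd (by omega) h
  · intro h
    exact dd_of_cc (adM_lt G) h

theorem ok_dt {v : ℕ} (hv : v < n) :
    Ok (List.range (adjMatrix G).length, adjMatrix G, wlL (adjMatrix G) v, tlL (adjMatrix G) v) := by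
  refine ⟨?_, ?_⟩
  · simp
  · intro x hx
    have : (wlL (adjMatrix G) v).getD x false = true := hx
    rw [wlL_iff G hv, mem_Wv] at this
    simp only [List.length_range, length_adjMatrix]
    exact this.1

theorem Wd_eq {v : ℕ} (hv : v < n) :
    Wd (List.range (adjMatrix G).length, adjMatrix G, wlL (adjMatrix G) v, tlL (adjMatrix G) v) =
      Wv n (adM (adjMatrix G)) v := by
  ext x
  rw [(ok_dt G hv).memW]
  exact wlL_iff G hv

theorem acc_comp {v : ℕ} (hv : v < n)
    (hbip : ∀ u < n, ¬ (DD n (adM (adjMatrix G)) v u 0 ∧ DD n (adM (adjMatrix G)) v u 1))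
    (hni : ∃ y, adM (adjMatrix G) v y) :
    acc (List.range (adjMatrix G).length, adjMatrix G, wlL (adjMatrix G) v, tlL (adjMatrix G) v)
      = true ↔ ∃ pos, Dr (adM (adjMatrix G)) (Wv n (adM (adjMatrix G)) v)
        (fun u => DD n (adM (adjMatrix G)) v u 0) pos := by
  rw [acc_iff (ok_dt G hv)]
  obtain ⟨h1, h2, h3, h4⟩ := comp_hyps (adM_symm G) (adM_lt G) hv hni
  have halt : ∀ u ∈ Wv n (adM (adjMatrix G)) v, ∀ w ∈ Wv n (adM (adjMatrix G)) v,
      adM (adjMatrix G) u w → (DD n (adM (adjMatrix G)) v u 0 ↔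
        ¬ DD n (adM (adjMatrix G)) v w 0) := by
    intro u hu w _ huw
    exact alt_Wv (adM_lt G) hbip hv (mem_Wv.1 hu).2.1 huw
  have htd : ∀ x ∈ Wv n (adM (adjMatrix G)) v, (td (List.range (adjMatrix G).length, adjMatrix G,
      wlL (adjMatrix G) v, tlL (adjMatrix G) v) x ↔ DD n (adM (adjMatrix G)) v x 0) := by
    intro x hx
    unfold td ub tlL
    simp only
    rw [getD_map, length_adjMatrix]
    have h0 := compL_iff G (u := x) (p := 0) hv
    rw [add_zero] at h0
    rw [h0]
    exact ⟨fun h => h.2, fun h => ⟨(mem_Wv.1 hx).1, h⟩⟩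
  have had : ad (List.range (adjMatrix G).length, adjMatrix G, wlL (adjMatrix G) v,
      tlL (adjMatrix G) v) = adM (adjMatrix G) := rfl
  rw [Wd_eq G hv, had]
  have halt' : ∀ u ∈ Wv n (adM (adjMatrix G)) v, ∀ w ∈ Wv n (adM (adjMatrix G)) v,
      adM (adjMatrix G) u w → (td (List.range (adjMatrix G).length, adjMatrix G,
        wlL (adjMatrix G) v, tlL (adjMatrix G) v) u ↔ ¬ td (List.range (adjMatrix G).length,
        adjMatrix G, wlL (adjMatrix G) v, tlL (adjMatrix G) v) w) := by
    intro u hu w hw huw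
    rw [htd u hu, htd w hw]
    exact halt u hu w hw huw
  rw [← conn_iff (adM_symm G) halt' h1 h2 h3 h4]
  constructor
  · rintro ⟨pos, hp⟩
    exact ⟨pos, hp.congr htd⟩
  · rintro ⟨pos, hp⟩
    exact ⟨pos, hp.congr fun x hx => (htd x hx).symm⟩

/-- **Correctness of the algorithm.** -/
theorem alg_iff : alg (adjMatrix G) = true ↔
    ∃ top pos, Dr (adM (adjMatrix G)) (Finset.range n) top pos := by
  have hwf : wf (adjMatrix G) = true := (wf_iff _).2 ⟨n, G, rfl⟩
  have hbip : ∀ v < n, ((List.range (adjMatrix G).length).all (fun u =>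
      !((compL (adjMatrix G) v).getD (2 * u) false &&
        (compL (adjMatrix G) v).getD (2 * u + 1) false)) = true ↔
      ∀ u < n, ¬ (DD n (adM (adjMatrix G)) v u 0 ∧ DD n (adM (adjMatrix G)) v u 1)) := by
    intro v hv
    rw [List.all_eq_true]
    simp only [List.mem_range, length_adjMatrix, Bool.not_eq_true', ← Bool.not_eq_true]
    have h0 := fun u => compL_iff G (u := u) (p := 0) hv
    have h1 := fun u => compL_iff G (u := u) (p := 1) hv
    simp only [add_zero] at h0
    simp only [Bool.and_eq_true, h0, h1]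
  have hiso : ∀ v, ((List.range (adjMatrix G).length).all (fun y => !me (adjMatrix G) v y) = true ↔
      ¬ ∃ y, adM (adjMatrix G) v y) := by
    intro v
    rw [List.all_eq_true]
    simp only [List.mem_range, length_adjMatrix, Bool.not_eq_true', ← Bool.not_eq_true]
    constructor
    · rintro h ⟨y, hy⟩
      exact h y (adM_lt G _ _ hy).2 hy
    · intro h y _ hy
      exact h ⟨y, hy⟩
  unfold alg
  rw [hwf, Bool.true_and, List.all_eq_true]
  simp only [List.mem_range, length_adjMatrix]
  constructor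
  · intro h
    have h' : ∀ v < n, (∀ u < n, ¬ (DD n (adM (adjMatrix G)) v u 0 ∧
        DD n (adM (adjMatrix G)) v u 1)) ∧ ((¬ ∃ y, adM (adjMatrix G) v y) ∨
        acc (List.range (adjMatrix G).length, adjMatrix G, wlL (adjMatrix G) v,
          tlL (adjMatrix G) v) = true) := by
      intro v hv
      have := h v hv
      unfold algV at this
      rw [Bool.and_eq_true, Bool.or_eq_true, hbip v hv, hiso v] at this
      exact this
    refine all_of_comp (adM_symm G) (adM_lt G) (fun v hv => (h' v hv).1) ?_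
    intro v hv hni
    rcases (h' v hv).2 with h1 | h1
    · exact absurd hni h1
    · exact (acc_comp G hv (h' v hv).1 hni).1 h1
  · rintro ⟨top, pos, hD⟩ v hv
    obtain ⟨h1, h2⟩ := comp_of_all (adM_symm G) (adM_lt G) hD hv
    unfold algV
    rw [Bool.and_eq_true, Bool.or_eq_true, hbip v hv, hiso v]
    refine ⟨h1, ?_⟩
    by_cases hni : ∃ y, adM (adjMatrix G) v y
    · exact Or.inr ((acc_comp G hv h1 hni).2 h2)
    · exact Or.inl hni

end

/-! ### Polynomial time -/

attribute [local irreducible] me reachL acc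

section

variable {α : Type} [TEnc α]

theorem lenM {M : α → List (List Bool)} (hM : Poly M) : UPoly (fun a => (M a).length) :=
  UPoly.length hM

theorem compL_poly {M : α → List (List Bool)} {v : α → ℕ} (hM : Poly M) (hv : Poly v) :
    Poly (fun a => compL (M a) (v a)) := by
  unfold compL
  refine reachL_poly (N := fun a => 2 * (M a).length)
    (E := fun a i j => me (M a) (i / 2) (j / 2) && !decide (i % 2 = j % 2))
    (init := fun a i => decide (i = 2 * v a)) (UPoly.mul (UPoly.const 2) (UPoly.length hM)) ?_ ?_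
  · have hM' : Poly (fun p : α × ℕ × ℕ => M p.1) := hM.comp (NPC.Poly.fst NPC.Poly.id)
    have hi : Poly (fun p : α × ℕ × ℕ => p.2.1) := NPC.Poly.fst (NPC.Poly.snd NPC.Poly.id)
    have hj : Poly (fun p : α × ℕ × ℕ => p.2.2) := NPC.Poly.snd (NPC.Poly.snd NPC.Poly.id)
    exact NPC.Poly.and (me_poly hM' (NPC.Poly.div hi (NPC.Poly.const 2))
      (NPC.Poly.div hj (NPC.Poly.const 2))) (ne_poly (NPC.Poly.mod hi (NPC.Poly.const 2))
      (NPC.Poly.mod hj (NPC.Poly.const 2)))
  · have hv' : Poly (fun p : α × ℕ => v p.1) := hv.comp (NPC.Poly.fst NPC.Poly.id)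
    exact NPC.Poly.dec_eq (NPC.Poly.snd NPC.Poly.id) (NPC.Poly.mul (NPC.Poly.const 2) hv')

theorem lfB_poly {M : α → List (List Bool)} {x z : α → ℕ} (hM : Poly M) (hx : Poly x)
    (hz : Poly z) : Poly (fun a => lfB (M a) (x a) (z a)) := by
  have hM' : Poly (fun p : α × ℕ => M p.1) := hM.comp (NPC.Poly.fst NPC.Poly.id)
  have hx' : Poly (fun p : α × ℕ => x p.1) := hx.comp (NPC.Poly.fst NPC.Poly.id)
  have hz' : Poly (fun p : α × ℕ => z p.1) := hz.comp (NPC.Poly.fst NPC.Poly.id)
  have hy : Poly (fun p : α × ℕ => p.2) := NPC.Poly.snd NPC.Poly.id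
  exact NPC.Poly.and (me_poly hM hx hz) (NPC.Poly.all (l := fun a => List.range (M a).length)
    (p := fun a y => !me (M a) (x a) y || decide (y = z a)) (lenM hM).range
    (NPC.Poly.or (NPC.Poly.not (me_poly hM' hx' hy)) (NPC.Poly.dec_eq hy hz')))

theorem dupB_poly {M : α → List (List Bool)} {u : α → ℕ} (hM : Poly M) (hu : Poly u) :
    Poly (fun a => dupB (M a) (u a)) := by
  have hM' : Poly (fun p : α × ℕ => M p.1) := hM.comp (NPC.Poly.fst NPC.Poly.id)
  have hu' : Poly (fun p : α × ℕ => u p.1) := hu.comp (NPC.Poly.fst NPC.Poly.id)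
  have hM'' : Poly (fun p : (α × ℕ) × ℕ => M p.1.1) :=
    hM.comp (NPC.Poly.fst (NPC.Poly.fst NPC.Poly.id))
  have hu'' : Poly (fun p : (α × ℕ) × ℕ => u p.1.1) :=
    hu.comp (NPC.Poly.fst (NPC.Poly.fst NPC.Poly.id))
  have hw'' : Poly (fun p : (α × ℕ) × ℕ => p.1.2) := NPC.Poly.snd (NPC.Poly.fst NPC.Poly.id)
  have hz'' : Poly (fun p : (α × ℕ) × ℕ => p.2) := NPC.Poly.snd NPC.Poly.id
  have hw : Poly (fun p : α × ℕ => p.2) := NPC.Poly.snd NPC.Poly.id
  exact NPC.Poly.any (l := fun a => List.range (M a).length)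
    (p := fun a w => decide (w < u a) && (List.range (M a).length).any fun z =>
      lfB (M a) w z && lfB (M a) (u a) z) (lenM hM).range
    (NPC.Poly.and (NPC.Poly.decide_lt hw hu') (NPC.Poly.any
      (l := fun p : α × ℕ => List.range (M p.1).length)
      (p := fun p z => lfB (M p.1) p.2 z && lfB (M p.1) (u p.1) z) (lenM hM').range
      (NPC.Poly.and (lfB_poly hM'' hw'' hz'') (lfB_poly hM'' hu'' hz''))))

theorem getComp_poly {M : α → List (List Bool)} {v u : α → ℕ} (hM : Poly M) (hv : Poly v)
    (hu : Poly u) : Poly (fun a => (compL (M a) (v a)).getD (u a) false) :=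
  gb_poly (compL_poly hM hv) hu

theorem wlL_poly {M : α → List (List Bool)} {v : α → ℕ} (hM : Poly M) (hv : Poly v) :
    Poly (fun a => wlL (M a) (v a)) := by
  have hM' : Poly (fun p : α × ℕ => M p.1) := hM.comp (NPC.Poly.fst NPC.Poly.id)
  have hv' : Poly (fun p : α × ℕ => v p.1) := hv.comp (NPC.Poly.fst NPC.Poly.id)
  have hu : Poly (fun p : α × ℕ => p.2) := NPC.Poly.snd NPC.Poly.id
  have h2u : Poly (fun p : α × ℕ => 2 * p.2) := NPC.Poly.mul (NPC.Poly.const 2) hu
  exact NPC.Poly.map (l := fun a => List.range (M a).length)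
    (F := fun a u => ((compL (M a) (v a)).getD (2 * u) false ||
      (compL (M a) (v a)).getD (2 * u + 1) false) && !dupB (M a) u) (lenM hM).range
    (NPC.Poly.and (NPC.Poly.or (getComp_poly hM' hv' h2u) (getComp_poly hM' hv'
      (NPC.Poly.add h2u (NPC.Poly.const 1)))) (NPC.Poly.not (dupB_poly hM' hu)))

theorem tlL_poly {M : α → List (List Bool)} {v : α → ℕ} (hM : Poly M) (hv : Poly v) :
    Poly (fun a => tlL (M a) (v a)) := by
  have hM' : Poly (fun p : α × ℕ => M p.1) := hM.comp (NPC.Poly.fst NPC.Poly.id)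
  have hv' : Poly (fun p : α × ℕ => v p.1) := hv.comp (NPC.Poly.fst NPC.Poly.id)
  have hu : Poly (fun p : α × ℕ => p.2) := NPC.Poly.snd NPC.Poly.id
  have h2u : Poly (fun p : α × ℕ => 2 * p.2) := NPC.Poly.mul (NPC.Poly.const 2) hu
  exact NPC.Poly.map (l := fun a => List.range (M a).length)
    (F := fun a u => (compL (M a) (v a)).getD (2 * u) false) (lenM hM).range
    (getComp_poly hM' hv' h2u)

theorem algV_poly {M : α → List (List Bool)} {v : α → ℕ} (hM : Poly M) (hv : Poly v) :
    Poly (fun a => algV (M a) (v a)) := by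
  have hM' : Poly (fun p : α × ℕ => M p.1) := hM.comp (NPC.Poly.fst NPC.Poly.id)
  have hv' : Poly (fun p : α × ℕ => v p.1) := hv.comp (NPC.Poly.fst NPC.Poly.id)
  have hu : Poly (fun p : α × ℕ => p.2) := NPC.Poly.snd NPC.Poly.id
  have h2u : Poly (fun p : α × ℕ => 2 * p.2) := NPC.Poly.mul (NPC.Poly.const 2) hu
  have hacc : Poly (fun a => acc (List.range (M a).length, M a, wlL (M a) (v a), tlL (M a) (v a))) := by
    have h1 : Poly (fun a => (List.range (M a).length, M a, wlL (M a) (v a), tlL (M a) (v a))) :=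
      NPC.Poly.pair (lenM hM).range (NPC.Poly.pair hM (NPC.Poly.pair (wlL_poly hM hv)
        (tlL_poly hM hv)))
    have h2 := acc_poly.comp h1
    exact h2
  exact NPC.Poly.and (NPC.Poly.all (l := fun a => List.range (M a).length)
    (p := fun a u => !((compL (M a) (v a)).getD (2 * u) false &&
      (compL (M a) (v a)).getD (2 * u + 1) false)) (lenM hM).range
    (NPC.Poly.not (NPC.Poly.and (getComp_poly hM' hv' h2u) (getComp_poly hM' hv'
      (NPC.Poly.add h2u (NPC.Poly.const 1))))))
    (NPC.Poly.or (NPC.Poly.all (l := fun a => List.range (M a).length)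
      (p := fun a y => !me (M a) (v a) y) (lenM hM).range
      (NPC.Poly.not (me_poly hM' hv' hu))) hacc)

theorem alg_poly : Poly alg := by
  have hM : Poly (fun M : List (List Bool) => M) := NPC.Poly.id
  exact NPC.Poly.and wf_poly (NPC.Poly.all (l := fun M : List (List Bool) => List.range M.length)
    (p := fun M v => algV M v) (lenM hM).range
    (algV_poly (NPC.Poly.fst NPC.Poly.id) (NPC.Poly.snd NPC.Poly.id)))

end

end Pool.Agent.R552.Fan
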