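import Pool.Agent.R552.Fan.Defs
import Pool.Agent.R552.Fan.Full

/-!
# Geometric drawings and drawings given by positions
-/

namespace Pool.Agent.R552.Fan

open Pool.Agent.NPC Pool.Agent.NPC.R671 Pool.Agent.H671R2.Ord

/-! ### From positions to points -/

theorem mem_seg {α β : ℝ} {q : ℝ × ℝ} :
    q ∈ segment ℝ (α, (1 : ℝ)) (β, (0 : ℝ)) ↔ 0 ≤ q.2 ∧ q.2 ≤ 1 ∧ q.1 = q.2 * α + (1 - q.2) * β := by
  constructor
  · rintro ⟨s, t, hs, ht, hst, rfl⟩
    simp only [Prod.fst_add, Prod.smul_fst, smul_eq_mul, Prod.snd_add, Prod.smul_snd, mul_one,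
      mul_zero, add_zero]
    refine ⟨hs, by linarith, ?_⟩
    have : t = 1 - s := by linarith
    rw [this]
  · rintro ⟨h1, h2, h3⟩
    refine ⟨q.2, 1 - q.2, h1, by linarith, by ring, ?_⟩
    ext
    · simp only [Prod.fst_add, Prod.smul_fst, smul_eq_mul]
      exact h3.symm
    · simp only [Prod.snd_add, Prod.smul_snd, smul_eq_mul, mul_one, mul_zero, add_zero]

theorem mem_oseg {α β : ℝ} {q : ℝ × ℝ} :
    q ∈ openSegment ℝ (α, (1 : ℝ)) (β, (0 : ℝ)) ↔
      0 < q.2 ∧ q.2 < 1 ∧ q.1 = q.2 * α + (1 - q.2) * β := by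
  constructor
  · rintro ⟨s, t, hs, ht, hst, rfl⟩
    simp only [Prod.fst_add, Prod.smul_fst, smul_eq_mul, Prod.snd_add, Prod.smul_snd, mul_one,
      mul_zero, add_zero]
    refine ⟨hs, by linarith, ?_⟩
    have : t = 1 - s := by linarith
    rw [this]
  · rintro ⟨h1, h2, h3⟩
    refine ⟨q.2, 1 - q.2, h1, by linarith, by ring, ?_⟩
    ext
    · simp only [Prod.fst_add, Prod.smul_fst, smul_eq_mul]
      exact h3.symm
    · simp only [Prod.snd_add, Prod.smul_snd, smul_eq_mul, mul_one, mul_zero, add_zero]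

section

variable {n : ℕ} {G : SimpleGraph (Fin n)}

open Classical in
/-- the points -/
noncomputable def pts (top : ℕ → Prop) (pos : ℕ → ℕ) (v : Fin n) : ℝ × ℝ :=
  ((pos v : ℝ), if top v then 1 else 0)

theorem pts_top {top : ℕ → Prop} {pos : ℕ → ℕ} {v : Fin n} (h : top v) :
    pts top pos v = ((pos v : ℝ), 1) := by
  unfold pts
  rw [if_pos h]

theorem pts_bot {top : ℕ → Prop} {pos : ℕ → ℕ} {v : Fin n} (h : ¬ top v) :
    pts top pos v = ((pos v : ℝ), 0) := by
  unfold pts
  rw [if_neg h]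

theorem geo_of_dr {top : ℕ → Prop} {pos : ℕ → ℕ}
    (h : Dr (adM (adjMatrix G)) (Finset.range n) top pos) : TwoLayerFanPlanar G := by
  classical
  have mr : ∀ v : Fin n, (v : ℕ) ∈ Finset.range n := fun v => Finset.mem_range.2 v.isLt
  have had : ∀ u v : Fin n, G.Adj u v → adM (adjMatrix G) u v := fun u v huv =>
    (adM_iff G _ _).2 ⟨u.isLt, v.isLt, huv⟩
  have halt : ∀ u v : Fin n, G.Adj u v → (top u ↔ ¬ top v) := fun u v huv =>
    h.alt u (mr u) v (mr v) (had u v huv)
  have hinj : ∀ u v : Fin n, (top u ↔ top v) → pos u = pos v → u = v := fun u v h1 h2 =>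
    Fin.ext (h.inj u (mr u) v (mr v) h1 h2)
  -- orient an edge
  have orient : ∀ u v : Fin n, G.Adj u v → ∃ a b : Fin n, G.Adj a b ∧ top a ∧ ¬ top b ∧
      s(u, v) = s(a, b) ∧
      segment ℝ (pts top pos u) (pts top pos v) = segment ℝ (pts top pos a) (pts top pos b) ∧
      openSegment ℝ (pts top pos u) (pts top pos v) =
        openSegment ℝ (pts top pos a) (pts top pos b) ∧ ((a = u ∧ b = v) ∨ (a = v ∧ b = u)) := by
    intro u v huv
    by_cases hu : top u
    · exact ⟨u, v, huv, hu, (halt u v huv).1 hu, rfl, rfl, rfl, Or.inl ⟨rfl, rfl⟩⟩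
    · refine ⟨v, u, huv.symm, ?_, hu, Sym2.eq_swap, segment_symm ℝ _ _, openSegment_symm ℝ _ _,
        Or.inr ⟨rfl, rfl⟩⟩
      have := halt u v huv
      tauto
  -- crossings
  have cr : ∀ a b c d : Fin n, top a → ¬ top b → top c → ¬ top d → s(a, b) ≠ s(c, d) →
      (openSegment ℝ (pts top pos a) (pts top pos b) ∩
        openSegment ℝ (pts top pos c) (pts top pos d)).Nonempty → X pos a b c d := by
    intro a b c d ta tb tc td hne hcr
    obtain ⟨q, hq1, hq2⟩ := hcr
    rw [pts_top ta, pts_bot tb, mem_oseg] at hq1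
    rw [pts_top tc, pts_bot td, mem_oseg] at hq2
    obtain ⟨y0, y1, e1⟩ := hq1
    obtain ⟨_, _, e2⟩ := hq2
    have e : q.2 * ((pos a : ℝ) - pos c) + (1 - q.2) * ((pos b : ℝ) - pos d) = 0 := by
      linarith
    have y1' : 0 < 1 - q.2 := by linarith
    rcases lt_trichotomy (pos a) (pos c) with h1 | h1 | h1
    · left
      refine ⟨h1, ?_⟩
      by_contra hcon
      have h1' : (pos a : ℝ) - pos c < 0 := by
        have : (pos a : ℝ) < pos c := by exact_mod_cast h1
        linarith
      have h2' : (pos b : ℝ) - pos d ≤ 0 := by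
        have : (pos b : ℝ) ≤ pos d := by exact_mod_cast not_lt.1 hcon
        linarith
      have h3 : q.2 * ((pos a : ℝ) - pos c) < 0 := mul_neg_of_pos_of_neg y0 h1'
      have h4 : (1 - q.2) * ((pos b : ℝ) - pos d) ≤ 0 :=
        mul_nonpos_of_nonneg_of_nonpos y1'.le h2'
      linarith
    · exfalso
      have h2 : (pos a : ℝ) - pos c = 0 := by
        have : (pos a : ℝ) = pos c := by exact_mod_cast h1
        linarith
      rw [h2, mul_zero, zero_add] at e
      have h3 : (pos b : ℝ) - pos d = 0 := by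
        rcases mul_eq_zero.1 e with h4 | h4
        · linarith
        · exact h4
      have h4 : pos b = pos d := by
        have : (pos b : ℝ) = pos d := by linarith
        exact_mod_cast this
      have e5 := hinj a c (by tauto) h1
      have e6 := hinj b d (by tauto) h4
      rw [e5, e6] at hne
      exact hne rfl
    · right
      refine ⟨h1, ?_⟩
      by_contra hcon
      have h1' : 0 < (pos a : ℝ) - pos c := by
        have : (pos c : ℝ) < pos a := by exact_mod_cast h1
        linarith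
      have h2' : 0 ≤ (pos b : ℝ) - pos d := by
        have : (pos d : ℝ) ≤ pos b := by exact_mod_cast not_lt.1 hcon
        linarith
      have h3 : 0 < q.2 * ((pos a : ℝ) - pos c) := mul_pos y0 h1'
      have h4 : 0 ≤ (1 - q.2) * ((pos b : ℝ) - pos d) := mul_nonneg y1'.le h2'
      linarith
  have hfan : ∀ a b c d e f : Fin n, G.Adj a b → G.Adj c d → G.Adj e f → top a → top c → top e →
      X pos a b c d → X pos a b e f → c = e ∨ d = f := by
    intro a b c d e f hab hcd hef ta tc te h1 h2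
    rcases h.fan a (mr a) b (mr b) c (mr c) d (mr d) e (mr e) f (mr f) ta tc te (had _ _ hab)
      (had _ _ hcd) (had _ _ hef) h1 h2 with h3 | h3
    · exact Or.inl (Fin.ext h3)
    · exact Or.inr (Fin.ext h3)
  refine ⟨pts top pos, ⟨⟨?_, ?_, ?_, ?_⟩, ?_, ?_⟩, 0, 1, by norm_num, ?_, ?_⟩
  · intro u v huv
    unfold pts at huv
    rw [Prod.mk.injEq] at huv
    obtain ⟨h1, h2⟩ := huv
    have h3 : pos u = pos v := by exact_mod_cast h1
    refine hinj u v ?_ h3
    by_cases hu : top u <;> by_cases hv : top v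
    · tauto
    · rw [if_pos hu, if_neg hv] at h2
      norm_num at h2
    · rw [if_neg hu, if_pos hv] at h2
      norm_num at h2
    · tauto
  · intro u v w huv hw
    obtain ⟨a, b, hab, ta, tb, _, _, e2, _⟩ := orient u v huv
    rw [e2, pts_top ta, pts_bot tb, mem_oseg] at hw
    obtain ⟨h1, h2, _⟩ := hw
    unfold pts at h1 h2
    simp only at h1 h2
    split_ifs at h1 h2 <;> linarith
  · intro u v w z huv hwz hne
    obtain ⟨a, b, hab, ta, tb, e0, e1, _, _⟩ := orient u v huv
    obtain ⟨c, d, hcd, tc, td, e0', e1', _, _⟩ := orient w z hwz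
    rw [e1, e1', pts_top ta, pts_bot tb, pts_top tc, pts_bot td]
    rintro q ⟨hq1, hq2⟩ r ⟨hr1, hr2⟩
    rw [mem_seg] at hq1 hq2 hr1 hr2
    obtain ⟨_, _, q1⟩ := hq1
    obtain ⟨_, _, q2⟩ := hq2
    obtain ⟨_, _, r1⟩ := hr1
    obtain ⟨_, _, r2⟩ := hr2
    by_cases hy : q.2 = r.2
    · ext
      · rw [q1, r1, hy]
      · exact hy
    · exfalso
      have eq1 : q.2 * ((pos a : ℝ) - pos c) + (1 - q.2) * ((pos b : ℝ) - pos d) = 0 := by
        linarith
      have eq2 : r.2 * ((pos a : ℝ) - pos c) + (1 - r.2) * ((pos b : ℝ) - pos d) = 0 := by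
        linarith
      have eq3 : (q.2 - r.2) * (((pos a : ℝ) - pos c) - ((pos b : ℝ) - pos d)) = 0 := by
        linarith
      have hy' : q.2 - r.2 ≠ 0 := sub_ne_zero.2 hy
      have eq4 : ((pos a : ℝ) - pos c) = ((pos b : ℝ) - pos d) := by
        rcases mul_eq_zero.1 eq3 with h1 | h1
        · exact absurd h1 hy'
        · linarith
      have eq5 : (pos b : ℝ) - pos d = 0 := by
        rw [eq4] at eq1
        linarith
      have h1 : pos a = pos c := by
        have : (pos a : ℝ) = pos c := by linarith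
        exact_mod_cast this
      have h2 : pos b = pos d := by
        have : (pos b : ℝ) = pos d := by linarith
        exact_mod_cast this
      have e5 := hinj a c (by tauto) h1
      have e6 := hinj b d (by tauto) h2
      rw [e0, e0', e5, e6] at hne
      exact hne rfl
  · intro a' b' c' d' e' f' hab' hcd' hef' n1 n2 n3
    obtain ⟨a, b, hab, ta, tb, e0, _, e1, _⟩ := orient a' b' hab'
    obtain ⟨c, d, hcd, tc, td, e0', _, e1', _⟩ := orient c' d' hcd'
    obtain ⟨e, f, hef, te, tf, e0'', _, e1'', _⟩ := orient e' f' hef'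
    rw [e0, e0'] at n1
    rw [e0, e0''] at n2
    rw [e0', e0''] at n3
    rw [e1, e1', e1'']
    by_contra hcon
    obtain ⟨q, ⟨hq1, hq2⟩, hq3⟩ := Set.nonempty_iff_ne_empty.2 hcon
    have x1 := cr a b c d ta tb tc td n1 ⟨q, hq1, hq2⟩
    have x2 := cr a b e f ta tb te tf n2 ⟨q, hq1, hq3⟩
    have x3 := cr c d e f tc td te tf n3 ⟨q, hq2, hq3⟩
    rcases hfan a b c d e f hab hcd hef ta tc te x1 x2 with rfl | rfl
    · rcases x3 with ⟨h1, _⟩ | ⟨h1, _⟩ <;> exact lt_irrefl _ h1
    · rcases x3 with ⟨_, h1⟩ | ⟨_, h1⟩ <;> exact lt_irrefl _ h1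
  · intro a' b' c' d' e' f' hab' hcd' hef' h1 h2
    obtain ⟨a, b, hab, ta, tb, e0, _, e1, _⟩ := orient a' b' hab'
    obtain ⟨c, d, hcd, tc, td, e0', _, e1', k1⟩ := orient c' d' hcd'
    obtain ⟨e, f, hef, te, tf, e0'', _, e1'', k2⟩ := orient e' f' hef'
    unfold Cross at h1 h2
    rw [e0, e0', e1, e1'] at h1
    rw [e0, e0'', e1, e1''] at h2
    have x1 := cr a b c d ta tb tc td h1.1 h1.2
    have x2 := cr a b e f ta tb te tf h2.1 h2.2
    rcases hfan a b c d e f hab hcd hef ta tc te x1 x2 with h3 | h3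
    · refine ⟨c, ?_, ?_⟩
      · rcases k1 with ⟨k, _⟩ | ⟨k, _⟩ <;> tauto
      · rw [h3]
        rcases k2 with ⟨k, _⟩ | ⟨k, _⟩ <;> tauto
    · refine ⟨d, ?_, ?_⟩
      · rcases k1 with ⟨_, k⟩ | ⟨_, k⟩ <;> tauto
      · rw [h3]
        rcases k2 with ⟨_, k⟩ | ⟨_, k⟩ <;> tauto
  · rintro a b u v w _ _ _ _ _ ⟨⟨h1, _⟩, h2, _⟩
    linarith
  · intro v
    by_cases hv : top v
    · right; rw [pts_top hv]
    · left; rw [pts_bot hv]
  · intro u v huv
    have := halt u v huv
    by_cases hu : top u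
    · rw [pts_top hu, pts_bot (this.1 hu)]
      norm_num
    · have hv : top v := by tauto
      rw [pts_bot hu, pts_top hv]
      norm_num

/-! ### From points to positions -/

theorem cross_pts {x1 x2 x3 x4 h1 h0 : ℝ} (h13 : x1 < x3) (h42 : x4 < x2) :
    (openSegment ℝ (x1, h1) (x2, h0) ∩ openSegment ℝ (x3, h1) (x4, h0)).Nonempty := by
  have hpos : 0 < (x3 - x1) + (x2 - x4) := by linarith
  set D := (x3 - x1) + (x2 - x4) with hD
  have hDne : D ≠ 0 := hpos.ne'
  have ht0 : 0 < (x3 - x1) / D := div_pos (by linarith) hpos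
  have hs0 : 0 < (x2 - x4) / D := div_pos (by linarith) hpos
  have hst : (x2 - x4) / D + (x3 - x1) / D = 1 := by
    field_simp
    rw [hD]
    ring
  refine ⟨((x2 - x4) / D) • (x1, h1) + ((x3 - x1) / D) • (x2, h0), ⟨_, _, hs0, ht0, hst, rfl⟩,
    ⟨_, _, hs0, ht0, hst, ?_⟩⟩
  ext
  · simp only [Prod.fst_add, Prod.smul_fst, smul_eq_mul]
    field_simp
    ring
  · simp only [Prod.snd_add, Prod.smul_snd, smul_eq_mul]

theorem dr_of_geo (h : TwoLayerFanPlanar G) :
    ∃ top pos, Dr (adM (adjMatrix G)) (Finset.range n) top pos := by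
  classical
  obtain ⟨p, hp, h₀, h₁, hne, hl, hadj⟩ := h
  let rk : Fin n → ℕ := fun v => (Finset.univ.filter fun u => (p u).1 < (p v).1).card
  have rk_lt : ∀ u v : Fin n, (p u).1 < (p v).1 → rk u < rk v := by
    intro u v huv
    apply Finset.card_lt_card
    rw [Finset.ssubset_iff_of_subset]
    · refine ⟨u, ?_, ?_⟩
      · simp only [Finset.mem_filter, Finset.mem_univ, true_and]
        exact huv
      · simp only [Finset.mem_filter, Finset.mem_univ, true_and]
        exact lt_irrefl _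
    · intro w hw
      simp only [Finset.mem_filter, Finset.mem_univ, true_and] at hw ⊢
      exact hw.trans huv
  have rk_iff : ∀ u v : Fin n, rk u < rk v ↔ (p u).1 < (p v).1 := by
    intro u v
    constructor
    · intro h1
      rcases lt_trichotomy (p u).1 (p v).1 with h2 | h2 | h2
      · exact h2
      · exfalso
        have : rk u = rk v := by
          simp only [rk, h2]
        omega
      · have := rk_lt v u h2
        omega
    · exact rk_lt u v
  have rk_eq : ∀ u v : Fin n, rk u = rk v → (p u).1 = (p v).1 := by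
    intro u v huv
    rcases lt_trichotomy (p u).1 (p v).1 with h2 | h2 | h2
    · have := rk_lt u v h2
      omega
    · exact h2
    · have := rk_lt v u h2
      omega
  let top : ℕ → Prop := fun i => ∃ hi : i < n, (p ⟨i, hi⟩).2 = h₁
  let pos : ℕ → ℕ := fun i => if hi : i < n then rk ⟨i, hi⟩ else 0
  have top_iff : ∀ v : Fin n, top v ↔ (p v).2 = h₁ := by
    intro v
    constructor
    · rintro ⟨_, h1⟩
      exact h1
    · intro h1
      exact ⟨v.isLt, h1⟩
  have ntop_iff : ∀ v : Fin n, ¬ top v ↔ (p v).2 = h₀ := by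
    intro v
    rw [top_iff]
    rcases hl v with h1 | h1
    · rw [h1]
      exact ⟨fun _ => rfl, fun _ => hne⟩
    · rw [h1]
      exact ⟨fun h2 => absurd rfl h2, fun h2 => absurd h2.symm hne⟩
  have pos_eq : ∀ v : Fin n, pos v = rk v := by
    intro v
    simp only [pos]
    rw [dif_pos v.isLt]
  have ex : ∀ i ∈ Finset.range n, ∃ v : Fin n, (v : ℕ) = i := by
    intro i hi
    exact ⟨⟨i, Finset.mem_range.1 hi⟩, rfl⟩
  have adj_iff : ∀ u v : Fin n, adM (adjMatrix G) u v ↔ G.Adj u v := by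
    intro u v
    rw [adM_iff]
    exact ⟨fun ⟨_, _, h1⟩ => h1, fun h1 => ⟨u.isLt, v.isLt, h1⟩⟩
  have cr : ∀ a b c d : Fin n, top a → ¬ top b → top c → ¬ top d → X pos a b c d →
      Cross p a b c d := by
    intro a b c d ta tb tc td hX
    have ta' := (top_iff a).1 ta
    have tb' := (ntop_iff b).1 tb
    have tc' := (top_iff c).1 tc
    have td' := (ntop_iff d).1 td
    have ea : p a = ((p a).1, h₁) := by rw [← ta']
    have eb : p b = ((p b).1, h₀) := by rw [← tb']
    have ec : p c = ((p c).1, h₁) := by rw [← tc']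
    have ed : p d = ((p d).1, h₀) := by rw [← td']
    unfold X at hX
    rw [pos_eq, pos_eq, pos_eq, pos_eq, rk_iff, rk_iff, rk_iff, rk_iff] at hX
    constructor
    · intro he
      rw [Sym2.eq_iff] at he
      rcases he with ⟨rfl, rfl⟩ | ⟨rfl, rfl⟩
      · rcases hX with ⟨h1, _⟩ | ⟨h1, _⟩ <;> exact lt_irrefl _ h1
      · exact td ta
    · rcases hX with ⟨h1, h2⟩ | ⟨h1, h2⟩
      · rw [ea, eb, ec, ed]
        exact cross_pts h1 h2
      · rw [ea, eb, ec, ed, Set.inter_comm]
        exact cross_pts h1 h2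
  refine ⟨top, pos, ⟨?_, ?_, ?_⟩⟩
  · intro u' hu' v' hv' huv
    obtain ⟨u, rfl⟩ := ex u' hu'
    obtain ⟨v, rfl⟩ := ex v' hv'
    rw [adj_iff] at huv
    have h1 := hadj u v huv
    rw [ntop_iff, top_iff]
    constructor
    · intro h2
      rcases hl v with h3 | h3
      · exact h3
      · exact absurd (h2.trans h3.symm) h1
    · intro h2
      rcases hl u with h3 | h3
      · exact absurd (h3.trans h2.symm) h1
      · exact h3
  · intro u' hu' v' hv' huv he
    obtain ⟨u, rfl⟩ := ex u' hu'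
    obtain ⟨v, rfl⟩ := ex v' hv'
    rw [pos_eq, pos_eq] at he
    have h1 := rk_eq u v he
    have h2 : (p u).2 = (p v).2 := by
      by_cases hu : top u
      · rw [(top_iff u).1 hu, (top_iff v).1 (huv.1 hu)]
      · have hv : ¬ top v := fun h3 => hu (huv.2 h3)
        rw [(ntop_iff u).1 hu, (ntop_iff v).1 hv]
    exact congrArg Fin.val (hp.injective (Prod.ext h1 h2))
  · intro a' ha' b' hb' c' hc' d' hd' e' he' f' hf' ta tc te hab hcd hef x1 x2
    obtain ⟨a, rfl⟩ := ex a' ha'
    obtain ⟨b, rfl⟩ := ex b' hb'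
    obtain ⟨c, rfl⟩ := ex c' hc'
    obtain ⟨d, rfl⟩ := ex d' hd'
    obtain ⟨e, rfl⟩ := ex e' he'
    obtain ⟨f, rfl⟩ := ex f' hf'
    rw [adj_iff] at hab hcd hef
    have nt : ∀ u v : Fin n, G.Adj u v → top u → ¬ top v := by
      intro u v huv hu hv
      exact hadj u v huv (((top_iff u).1 hu).trans ((top_iff v).1 hv).symm)
    have tb := nt a b hab ta
    have td := nt c d hcd tc
    have tf := nt e f hef te
    obtain ⟨x, hx1, hx2⟩ := hp.no_I a b c d e f hab hcd hef (cr a b c d ta tb tc td x1)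
      (cr a b e f ta tb te tf x2)
    rcases hx1 with rfl | rfl <;> rcases hx2 with rfl | rfl
    · exact Or.inl rfl
    · exact absurd tc tf
    · exact absurd te td
    · exact Or.inr rfl

theorem geo_iff : TwoLayerFanPlanar G ↔
    ∃ top pos, Dr (adM (adjMatrix G)) (Finset.range n) top pos :=
  ⟨dr_of_geo, fun ⟨_, _, h⟩ => geo_of_dr h⟩

end

/-- The recognition problem: the input is the adjacency matrix of a graph. -/
def TwoLayerFanPlanarGraph (M : List (List Bool)) : Prop :=
  ∃ (n : ℕ) (G : SimpleGraph (Fin n)), adjMatrix G = M ∧ TwoLayerFanPlanar G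

theorem fan_inPP : InPP TwoLayerFanPlanarGraph := by
  refine inPP_of alg_poly ?_
  intro M
  constructor
  · rintro ⟨n, G, rfl, h⟩
    exact (alg_iff G).2 (geo_iff.1 h)
  · intro h
    have hw : wf M = true := by
      unfold alg at h
      rw [Bool.and_eq_true] at h
      exact h.1
    obtain ⟨n, G, rfl⟩ := (wf_iff M).1 hw
    exact ⟨n, G, rfl, geo_iff.2 ((alg_iff G).1 h)⟩

end Pool.Agent.R552.Fan
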