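import Pool.Agent.R552.Fan.Path

/-!
# From components to the whole graph
-/

namespace Pool.Agent.R552.Fan

open Relation

section rep

variable {n : ℕ} {adj : ℕ → ℕ → Prop}

/-- `x` is a leaf at `z` -/
def Lf (adj : ℕ → ℕ → Prop) (x z : ℕ) : Prop := adj x z ∧ ∀ y, adj x y → y = z

/-- `u` is a leaf and there is a smaller one at the same vertex -/
def Dup (adj : ℕ → ℕ → Prop) (u : ℕ) : Prop := ∃ w < u, ∃ z, Lf adj w z ∧ Lf adj u z

open Classical in
/-- the representative of a vertex -/
noncomputable def rep (adj : ℕ → ℕ → Prop) (u : ℕ) : ℕ :=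
  if h : ∃ w, w < u ∧ ∃ z, Lf adj w z ∧ Lf adj u z then Nat.find h else u

theorem rep_of_not_dup {u : ℕ} (h : ¬ Dup adj u) : rep adj u = u := by
  classical
  unfold rep
  rw [dif_neg]
  rintro ⟨w, h1, h2⟩
  exact h ⟨w, h1, h2⟩

theorem rep_spec {u : ℕ} (h : Dup adj u) : rep adj u < u ∧ ∃ z, Lf adj (rep adj u) z ∧ Lf adj u z := by
  classical
  unfold rep
  have h' : ∃ w, w < u ∧ ∃ z, Lf adj w z ∧ Lf adj u z := by
    obtain ⟨w, h1, h2⟩ := h
    exact ⟨w, h1, h2⟩
  rw [dif_pos h']
  exact Nat.find_spec h'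

theorem Lf.unique {x z z' : ℕ} (h : Lf adj x z) (h' : Lf adj x z') : z = z' := h'.2 z h.1

theorem rep_not_dup (u : ℕ) : ¬ Dup adj (rep adj u) := by
  classical
  by_cases h : Dup adj u
  · have hs := rep_spec h
    obtain ⟨h1, z, h2, h3⟩ := hs
    rintro ⟨w, hw, z', h4, h5⟩
    have e : z' = z := h5.unique h2
    subst e
    have h' : ∃ w, w < u ∧ ∃ z, Lf adj w z ∧ Lf adj u z := ⟨rep adj u, h1, z', h2, h3⟩
    have hr : rep adj u = Nat.find h' := by
      unfold rep
      rw [dif_pos h']
    have : Nat.find h' ≤ w := Nat.find_min' h' ⟨hw.trans h1, z', h4, h3⟩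
    omega
  · rw [rep_of_not_dup h]
    exact h

theorem rep_le (u : ℕ) : rep adj u ≤ u := by
  by_cases h : Dup adj u
  · exact (rep_spec h).1.le
  · rw [rep_of_not_dup h]

/-- two vertices with the same representative -/
theorem rep_eq {u w : ℕ} (h : rep adj u = rep adj w) (hne : u ≠ w) :
    ∃ z, Lf adj u z ∧ Lf adj w z := by
  by_cases hu : Dup adj u
  · obtain ⟨_, z, h2, h3⟩ := rep_spec hu
    by_cases hw : Dup adj w
    · obtain ⟨_, z', h5, h6⟩ := rep_spec hw
      rw [h] at h2
      have := h2.unique h5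
      subst this
      exact ⟨z, h3, h6⟩
    · rw [rep_of_not_dup hw] at h
      rw [h] at h2
      exact ⟨z, h3, h2⟩
  · rw [rep_of_not_dup hu] at h
    by_cases hw : Dup adj w
    · obtain ⟨_, z', h5, h6⟩ := rep_spec hw
      rw [← h] at h5
      exact ⟨z', h5, h6⟩
    · rw [rep_of_not_dup hw] at h
      exact absurd h hne

theorem adj_rep (hsym : ∀ u v, adj u v → adj v u) {a b : ℕ} (h : adj a b) :
    adj (rep adj a) (rep adj b) := by
  have key : ∀ a b, adj a b → Dup adj a → adj (rep adj a) (rep adj b) := by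
    intro a b h ha
    obtain ⟨_, z, h2, h3⟩ := rep_spec ha
    have e : b = z := h3.2 b h
    subst e
    have hb : ¬ Dup adj b := by
      rintro ⟨w, hw, z', h4, h5⟩
      have e' : a = z' := h5.2 a (hsym _ _ h)
      subst e'
      have := h3.2 w (hsym _ _ h4.1)
      omega
    rw [rep_of_not_dup hb]
    exact h2.1
  by_cases ha : Dup adj a
  · exact key a b h ha
  · by_cases hb : Dup adj b
    · exact hsym _ _ (key b a (hsym _ _ h) hb)
    · rw [rep_of_not_dup ha, rep_of_not_dup hb]
      exact h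

end rep

/-- adjacency of the double cover: steps change the parity -/
def D2 (n : ℕ) (adj : ℕ → ℕ → Prop) (i j : ℕ) : Prop :=
  i < 2 * n ∧ j < 2 * n ∧ adj (i / 2) (j / 2) ∧ i % 2 ≠ j % 2

/-- reachable from `v` in an even (`p = 0`) or odd (`p = 1`) number of steps -/
def DD (n : ℕ) (adj : ℕ → ℕ → Prop) (v u p : ℕ) : Prop :=
  ReflTransGen (D2 n adj) (2 * v) (2 * u + p)

/-- reachable -/
def CC (n : ℕ) (adj : ℕ → ℕ → Prop) (v u : ℕ) : Prop :=
  ReflTransGen (fun i j => i < n ∧ j < n ∧ adj i j) v u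

section comp

variable {n : ℕ} {adj : ℕ → ℕ → Prop} (hsym : ∀ u v, adj u v → adj v u)
  (hlt : ∀ u v, adj u v → u < n ∧ v < n)

include hlt in
theorem dd_step {v u w p : ℕ} (hp : p < 2) (h : DD n adj v u p) (huw : adj u w) :
    DD n adj v w (1 - p) := by
  obtain ⟨h1, h2⟩ := hlt _ _ huw
  refine ReflTransGen.tail h ⟨by omega, by omega, ?_, by omega⟩
  rw [show (2 * u + p) / 2 = u by omega, show (2 * w + (1 - p)) / 2 = w by omega]
  exact huw

theorem cc_of_dd {v u p : ℕ} (hp : p < 2) (h : DD n adj v u p) : CC n adj v u := by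
  have key : ∀ k, ReflTransGen (D2 n adj) (2 * v) k → CC n adj v (k / 2) := by
    intro k hk
    induction hk with
    | refl =>
      rw [show 2 * v / 2 = v by omega]
      exact .refl
    | tail _ h ih =>
      obtain ⟨h1, h2, h3, h4⟩ := h
      exact ih.tail ⟨by omega, by omega, h3⟩
  have := key _ h
  rwa [show (2 * u + p) / 2 = u by omega] at this

include hlt in
theorem dd_of_cc {v u : ℕ} (h : CC n adj v u) : DD n adj v u 0 ∨ DD n adj v u 1 := by
  induction h with
  | refl => exact Or.inl .refl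
  | tail _ h ih =>
    rcases ih with ih | ih
    · exact Or.inr (dd_step hlt (by omega) ih h.2.2)
    · exact Or.inl (dd_step hlt (by omega) ih h.2.2)

include hsym in
theorem cc_symm {v u : ℕ} (h : CC n adj v u) : CC n adj u v := by
  induction h with
  | refl => exact .refl
  | tail _ h ih => exact (ReflTransGen.single ⟨h.2.1, h.1, hsym _ _ h.2.2⟩).trans ih

include hlt in
theorem cc_adj {v u w : ℕ} (h : CC n adj v u) (huw : adj u w) : CC n adj v w :=
  h.tail ⟨(hlt _ _ huw).1, (hlt _ _ huw).2, huw⟩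

theorem cc_lt {v u : ℕ} (hv : v < n) (h : CC n adj v u) : u < n := by
  induction h with
  | refl => exact hv
  | tail _ h _ => exact h.2.1

include hsym hlt in
theorem cc_rep {v u : ℕ} (h : CC n adj v u) : CC n adj v (rep adj u) := by
  by_cases hu : Dup adj u
  · obtain ⟨_, z, h2, h3⟩ := rep_spec hu
    exact cc_adj hlt (cc_adj hlt h h3.1) (hsym _ _ h2.1)
  · rw [rep_of_not_dup hu]
    exact h

include hsym hlt in
theorem dd_rep {v u p : ℕ} (hp : p < 2) : DD n adj v u p ↔ DD n adj v (rep adj u) p := by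
  by_cases hu : Dup adj u
  · obtain ⟨_, z, h2, h3⟩ := rep_spec hu
    constructor
    · intro h
      have := dd_step hlt (by omega) (dd_step hlt hp h h3.1) (hsym _ _ h2.1)
      rwa [show 1 - (1 - p) = p by omega] at this
    · intro h
      have := dd_step hlt (by omega) (dd_step hlt hp h h2.1) (hsym _ _ h3.1)
      rwa [show 1 - (1 - p) = p by omega] at this
  · rw [rep_of_not_dup hu]

open Classical in
/-- the vertex set of a component, without the duplicates -/
noncomputable def Wv (n : ℕ) (adj : ℕ → ℕ → Prop) (v : ℕ) : Finset ℕ :=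
  (Finset.range n).filter fun u => CC n adj v u ∧ ¬ Dup adj u

theorem mem_Wv {v u : ℕ} : u ∈ Wv n adj v ↔ u < n ∧ CC n adj v u ∧ ¬ Dup adj u := by
  classical
  unfold Wv
  simp only [Finset.mem_filter, Finset.mem_range]

include hsym hlt in
theorem rep_mem {v u : ℕ} (hv : v < n) (h : CC n adj v u) : rep adj u ∈ Wv n adj v :=
  mem_Wv.2 ⟨cc_lt hv (cc_rep hsym hlt h), cc_rep hsym hlt h, rep_not_dup u⟩

include hlt in
theorem alt_Wv {v : ℕ} (hbip : ∀ u < n, ¬ (DD n adj v u 0 ∧ DD n adj v u 1)) {u w : ℕ}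
    (hv : v < n) (hu : CC n adj v u) (huw : adj u w) :
    (DD n adj v u 0 ↔ ¬ DD n adj v w 0) := by
  have h1 := hbip w (hlt _ _ huw).2
  constructor
  · intro h2 h3
    exact h1 ⟨h3, dd_step hlt (by omega) h2 huw⟩
  · intro h2
    rcases dd_of_cc hlt hu with h3 | h3
    · exact h3
    · exact absurd (dd_step hlt (by omega) h3 huw) h2

include hsym hlt in
/-- the hypotheses of the theorem about components hold -/
theorem comp_hyps {v : ℕ} (hv : v < n) (hni : ∃ y, adj v y) :
    (∀ u ∈ Wv n adj v, ∃ w ∈ Wv n adj v, adj u w) ∧ (Wv n adj v).Nonempty ∧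
    (∀ y ∈ Wv n adj v, ∀ y' ∈ Wv n adj v, ∀ z ∈ Wv n adj v, adj y z → adj y' z →
      (∀ x ∈ Wv n adj v, adj y x → x = z) → (∀ x ∈ Wv n adj v, adj y' x → x = z) → y = y') ∧
    (∀ u ∈ Wv n adj v, ∀ w ∈ Wv n adj v,
      ReflTransGen (fun i j => i ∈ Wv n adj v ∧ j ∈ Wv n adj v ∧ adj i j) u w) := by
  have nb : ∀ u, CC n adj v u → ∃ w, adj u w := by
    intro u hu
    cases hu with
    | refl => exact hni
    | tail _ h => exact ⟨_, hsym _ _ h.2.2⟩
  have repW : ∀ u, CC n adj v u → rep adj u ∈ Wv n adj v := fun u hu => rep_mem hsym hlt hv hu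
  have repu : ∀ u ∈ Wv n adj v, rep adj u = u := fun u hu => rep_of_not_dup (mem_Wv.1 hu).2.2
  refine ⟨?_, ⟨rep adj v, repW v .refl⟩, ?_, ?_⟩
  · intro u hu
    obtain ⟨w, hw⟩ := nb u (mem_Wv.1 hu).2.1
    refine ⟨rep adj w, repW w (cc_adj hlt (mem_Wv.1 hu).2.1 hw), ?_⟩
    have := adj_rep hsym hw
    rwa [repu u hu] at this
  · intro y hy y' hy' z hz hyz hyz' h1 h2
    have key : ∀ y y', y ∈ Wv n adj v → adj y z → adj y' z →
        (∀ x ∈ Wv n adj v, adj y x → x = z) → Lf adj y z ∨ y' = y := by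
      intro y y' hy hyz hyz' h1
      by_cases hl : Lf adj y z
      · exact Or.inl hl
      · right
        unfold Lf at hl
        push_neg at hl
        obtain ⟨x, hx, hxz⟩ := hl hyz
        have h3 := adj_rep hsym hx
        rw [repu y hy] at h3
        have h4 := h1 _ (repW x (cc_adj hlt (mem_Wv.1 hy).2.1 hx)) h3
        have h5 : Dup adj x := by
          by_contra hcon
          rw [rep_of_not_dup hcon] at h4
          exact hxz h4
        obtain ⟨_, z', h6, h7⟩ := rep_spec h5
        have h8 : y = z' := h7.2 y (hsym _ _ hx)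
        subst h8
        rw [h4] at h6
        exact h6.2 y' (hsym _ _ hyz')
    rcases key y y' hy hyz hyz' h1 with h3 | h3
    · rcases key y' y hy' hyz' hyz h2 with h4 | h4
      · by_contra hne
        rcases lt_or_gt_of_ne hne with h5 | h5
        · exact (mem_Wv.1 hy').2.2 ⟨y, h5, z, h3, h4⟩
        · exact (mem_Wv.1 hy).2.2 ⟨y', h5, z, h4, h3⟩
      · exact h4
    · exact h3.symm
  · intro u hu w hw
    have h1 : CC n adj u w := (cc_symm hsym (mem_Wv.1 hu).2.1).trans (mem_Wv.1 hw).2.1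
    have key : ∀ x, CC n adj u x → ReflTransGen (fun i j => i ∈ Wv n adj v ∧ j ∈ Wv n adj v ∧
        adj i j) (rep adj u) (rep adj x) := by
      intro x hx
      induction hx with
      | refl => exact .refl
      | tail hx h ih =>
        have h3 : CC n adj v _ := (mem_Wv.1 hu).2.1.trans hx
        exact ih.tail ⟨repW _ h3, repW _ (cc_adj hlt h3 h.2.2), adj_rep hsym h.2.2⟩
    have := key w h1
    rwa [repu u hu, repu w hw] at this

theorem Dr.congr {W : Finset ℕ} {top top' : ℕ → Prop} {pos : ℕ → ℕ} (h : Dr adj W top pos)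
    (ht : ∀ x ∈ W, (top x ↔ top' x)) : Dr adj W top' pos := by
  refine ⟨?_, ?_, ?_⟩
  · intro u hu v hv huv
    rw [← ht u hu, ← ht v hv]
    exact h.alt u hu v hv huv
  · intro u hu v hv huv hp
    rw [← ht u hu, ← ht v hv] at huv
    exact h.inj u hu v hv huv hp
  · intro a ha b hb c hc d hd e he f hf ta tc te
    exact h.fan a ha b hb c hc d hd e he f hf ((ht a ha).2 ta) ((ht c hc).2 tc) ((ht e he).2 te)

include hsym hlt in
/-- from the whole graph to a component -/
theorem comp_of_all {top : ℕ → Prop} {pos : ℕ → ℕ} (h : Dr adj (Finset.range n) top pos) {v : ℕ}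
    (hv : v < n) : (∀ u < n, ¬ (DD n adj v u 0 ∧ DD n adj v u 1)) ∧
      ∃ pos', Dr adj (Wv n adj v) (fun u => DD n adj v u 0) pos' := by
  have key : ∀ k, ReflTransGen (D2 n adj) (2 * v) k → (top (k / 2) ↔ (top v ↔ k % 2 = 0)) := by
    intro k hk
    induction hk with
    | refl =>
      rw [show 2 * v / 2 = v by omega, show 2 * v % 2 = 0 by omega]
      tauto
    | @tail i j _ hij ih =>
      obtain ⟨h1, h2, h3, h4⟩ := hij
      have := h.alt (i / 2) (Finset.mem_range.2 (by omega)) (j / 2) (Finset.mem_range.2 (by omega)) h3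
      have h5 : (j % 2 = 0 ↔ ¬ i % 2 = 0) := by omega
      rw [h5]
      tauto
  have k0 : ∀ u, DD n adj v u 0 → (top u ↔ top v) := by
    intro u hu
    have := key _ hu
    rw [show (2 * u + 0) / 2 = u by omega, show (2 * u + 0) % 2 = 0 by omega] at this
    tauto
  have k1 : ∀ u, DD n adj v u 1 → (top u ↔ ¬ top v) := by
    intro u hu
    have := key _ hu
    rw [show (2 * u + 1) / 2 = u by omega, show (2 * u + 1) % 2 = 1 by omega] at this
    simp only [one_ne_zero, iff_false] at this
    exact this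
  refine ⟨?_, pos, ?_⟩
  · rintro u _ ⟨h1, h2⟩
    have := k0 u h1
    have := k1 u h2
    tauto
  · have hs : Wv n adj v ⊆ Finset.range n := by
      intro u hu
      exact Finset.mem_range.2 (mem_Wv.1 hu).1
    have hd : ∀ u ∈ Wv n adj v, (DD n adj v u 0 ↔ (top u ↔ top v)) := by
      intro u hu
      refine ⟨k0 u, fun h1 => ?_⟩
      by_contra hcon
      have hcc := (mem_Wv.1 hu).2.1
      rcases dd_of_cc hlt hcc with h2 | h2
      · exact hcon h2
      · have := k1 u h2
        tauto
    by_cases hvt : top v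
    · refine (h.mono hs).congr ?_
      intro x hx
      rw [hd x hx]
      tauto
    · refine ((h.mono hs).swap hsym).congr ?_
      intro x hx
      rw [hd x hx]
      tauto

end comp

end Pool.Agent.R552.Fan
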