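import Pool.Agent.R552.Fan.Sound

/-!
# A drawing gives a path of states
-/

namespace Pool.Agent.R552.Fan

variable {adj : ℕ → ℕ → Prop} {W : Finset ℕ} {top : ℕ → Prop} {pos : ℕ → ℕ}

/-- no edge crosses the line from `t` to `b` -/
def Free (adj : ℕ → ℕ → Prop) (W : Finset ℕ) (top : ℕ → Prop) (pos : ℕ → ℕ) (t b : ℕ) : Prop :=
  ∀ a ∈ W, ∀ c ∈ W, top a → adj a c → ¬ X pos a c t b

open Classical in
/-- the vertices left of the line from `t` to `b` -/
noncomputable def lft (W : Finset ℕ) (top : ℕ → Prop) (pos : ℕ → ℕ) (t b : ℕ) : Finset ℕ :=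
  W.filter fun x => (top x ∧ pos x < pos t) ∨ (¬ top x ∧ pos x < pos b)

/-- the state of a line -/
noncomputable def stt (W : Finset ℕ) (top : ℕ → Prop) (pos : ℕ → ℕ) (t b : ℕ) : St :=
  ⟨t, b, lft W top pos t b⟩

theorem mem_lft {t b x : ℕ} : x ∈ lft W top pos t b ↔
    x ∈ W ∧ ((top x ∧ pos x < pos t) ∨ (¬ top x ∧ pos x < pos b)) := by
  classical
  unfold lft
  simp only [Finset.mem_filter]

theorem Dr.swap (hsym : ∀ u v, adj u v → adj v u) (h : Dr adj W top pos) :
    Dr adj W (fun x => ¬ top x) pos := by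
  refine ⟨?_, ?_, ?_⟩
  · intro u hu v hv huv
    have := h.alt u hu v hv huv
    tauto
  · intro u hu v hv huv hp
    exact h.inj u hu v hv (by tauto) hp
  · intro a ha b hb c hc d hd e he f hf ta tc te hab hcd hef h1 h2
    have tb : top b := by
      have := h.alt a ha b hb hab
      tauto
    have td : top d := by
      have := h.alt c hc d hd hcd
      tauto
    have tf : top f := by
      have := h.alt e he f hf hef
      tauto
    have := h.fan b hb a ha d hd c hc f hf e he tb td tf (hsym _ _ hab) (hsym _ _ hcd)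
      (hsym _ _ hef) (by unfold X at *; tauto) (by unfold X at *; tauto)
    tauto

theorem Free.swap (hsym : ∀ u v, adj u v → adj v u)
    (alt : ∀ u ∈ W, ∀ v ∈ W, adj u v → (top u ↔ ¬ top v)) {t b : ℕ}
    (h : Free adj W top pos t b) : Free adj W (fun x => ¬ top x) pos b t := by
  intro a ha c hc ta hac hX
  have tc : top c := by
    have := alt a ha c hc hac
    tauto
  exact h c hc a ha tc (hsym _ _ hac) (by unfold X at *; tauto)

theorem valid_stt (hsym : ∀ u v, adj u v → adj v u) (h : Dr adj W top pos) {t b : ℕ}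
    (ht : t ∈ W) (hb : b ∈ W) (tt : top t) (tb : ¬ top b) (hf : Free adj W top pos t b) :
    Valid adj W top (stt W top pos t b) := by
  refine ⟨ht, hb, tt, tb, ?_, ?_, ?_, ?_⟩
  · intro x hx
    exact (mem_lft.1 hx).1
  · intro hx
    have := (mem_lft.1 hx).2
    rcases this with ⟨_, h1⟩ | ⟨h1, _⟩
    · exact lt_irrefl _ h1
    · exact h1 tt
  · intro hx
    have := (mem_lft.1 hx).2
    rcases this with ⟨h1, _⟩ | ⟨_, h1⟩
    · exact tb h1
    · exact lt_irrefl _ h1
  · intro u hu v hv huv
    obtain ⟨huW, hu'⟩ := mem_lft.1 hu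
    have halt := h.alt u huW v hv huv
    simp only [stt] at *
    rcases hu' with ⟨tu, pu⟩ | ⟨tu, pu⟩
    · have tv : ¬ top v := halt.1 tu
      have h1 := hf u huW v hv tu huv
      unfold X at h1
      rcases lt_trichotomy (pos v) (pos b) with h2 | h2 | h2
      · left
        exact mem_lft.2 ⟨hv, Or.inr ⟨tv, h2⟩⟩
      · right; right
        exact h.inj v hv b hb (by tauto) h2
      · exact absurd (Or.inl ⟨pu, h2⟩) h1
    · have tv : top v := by tauto
      have h1 := hf v hv u huW tv (hsym _ _ huv)
      unfold X at h1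
      rcases lt_trichotomy (pos v) (pos t) with h2 | h2 | h2
      · left
        exact mem_lft.2 ⟨hv, Or.inl ⟨tv, h2⟩⟩
      · right; left
        exact h.inj v hv t ht (by tauto) h2
      · exact absurd (Or.inr ⟨h2, pu⟩) h1

/-- the next vertex on a layer -/
theorem next_of {P : ℕ → Prop} {k : ℕ} (h : ∃ x ∈ W, P x ∧ k < pos x) :
    ∃ x ∈ W, P x ∧ k < pos x ∧ ∀ y ∈ W, P y → k < pos y → pos x ≤ pos y := by
  classical
  obtain ⟨x, hx, hP, hk⟩ := h
  obtain ⟨y, hy, hmin⟩ := Finset.exists_min_image (W.filter fun x => P x ∧ k < pos x) pos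
    ⟨x, Finset.mem_filter.2 ⟨hx, hP, hk⟩⟩
  rw [Finset.mem_filter] at hy
  refine ⟨y, hy.1, hy.2.1, hy.2.2, fun z hz hPz hkz => hmin z ?_⟩
  rw [Finset.mem_filter]
  exact ⟨hz, hPz, hkz⟩

theorem max_of {P : ℕ → Prop} (h : ∃ x ∈ W, P x) :
    ∃ x ∈ W, P x ∧ ∀ y ∈ W, P y → pos y ≤ pos x := by
  classical
  obtain ⟨x, hx, hP⟩ := h
  obtain ⟨y, hy, hmax⟩ := Finset.exists_max_image (W.filter P) pos
    ⟨x, Finset.mem_filter.2 ⟨hx, hP⟩⟩
  rw [Finset.mem_filter] at hy
  refine ⟨y, hy.1, hy.2, fun z hz hPz => hmax z ?_⟩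
  rw [Finset.mem_filter]
  exact ⟨hz, hPz⟩

/-- moving to the next upper vertex -/
theorem move_top (h : Dr adj W top pos) {t b t1 : ℕ} (ht : t ∈ W) (hb : b ∈ W) (h1 : t1 ∈ W)
    (tt : top t) (tb : ¬ top b) (tt1 : top t1) (hlt : pos t < pos t1)
    (hn : ∀ y ∈ W, top y → pos t < pos y → pos t1 ≤ pos y) :
    Tr adj W top (stt W top pos t b) (stt W top pos t1 b) ∧
      t ∈ (stt W top pos t1 b).L := by
  have hmid : ∀ x, ¬ Mid (stt W top pos t b) (stt W top pos t1 b) x := by
    rintro x ⟨h2, h3, h4, h5⟩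
    simp only [stt, mem_lft, not_and, not_or, ne_eq] at h2 h3 h4 h5
    obtain ⟨h6, h7⟩ := h2
    obtain ⟨h8, h9⟩ := h3 h6
    rcases h7 with ⟨h7, h10⟩ | ⟨h7, h10⟩
    · have h11 := h8 h7
      have h12 : pos x ≠ pos t := fun he => h4 (h.inj x h6 t ht (by tauto) he)
      have := hn x h6 h7 (by omega)
      omega
    · exact h9 h7 h10
  have htL : t ∈ lft W top pos t1 b := mem_lft.2 ⟨ht, Or.inl ⟨tt, hlt⟩⟩
  refine ⟨⟨?_, ?_, ?_, ?_, ?_, ?_, ?_, ?_⟩, htL⟩
  · intro x hx
    simp only [stt] at hx ⊢
    rw [mem_lft] at hx ⊢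
    refine ⟨hx.1, ?_⟩
    rcases hx.2 with ⟨h2, h3⟩ | h2
    · left; exact ⟨h2, by omega⟩
    · right; exact h2
  · simp only [stt, mem_lft]
    rintro ⟨_, ⟨_, h2⟩ | ⟨h2, _⟩⟩
    · omega
    · exact h2 tt1
  · simp only [stt, mem_lft]
    rintro ⟨_, ⟨h2, _⟩ | ⟨_, h2⟩⟩
    · exact tb h2
    · omega
  · right; exact htL
  · left; rfl
  · intro x hx; exact absurd hx (hmid x)
  · intro x hx; exact absurd hx (hmid x)
  · left; intro x hx; exact absurd hx (hmid x)

/-- moving to the next lower vertex -/
theorem move_bot (h : Dr adj W top pos) {t b b1 : ℕ} (ht : t ∈ W) (hb : b ∈ W) (h1 : b1 ∈ W)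
    (tt : top t) (tb : ¬ top b) (tb1 : ¬ top b1) (hlt : pos b < pos b1)
    (hn : ∀ y ∈ W, ¬ top y → pos b < pos y → pos b1 ≤ pos y) :
    Tr adj W top (stt W top pos t b) (stt W top pos t b1) ∧
      b ∈ (stt W top pos t b1).L := by
  have hmid : ∀ x, ¬ Mid (stt W top pos t b) (stt W top pos t b1) x := by
    rintro x ⟨h2, h3, h4, h5⟩
    simp only [stt, mem_lft, not_and, not_or, ne_eq] at h2 h3 h4 h5
    obtain ⟨h6, h7⟩ := h2
    obtain ⟨h8, h9⟩ := h3 h6
    rcases h7 with ⟨h7, h10⟩ | ⟨h7, h10⟩
    · exact h8 h7 h10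
    · have h11 := h9 h7
      have h12 : pos x ≠ pos b := fun he => h5 (h.inj x h6 b hb (by tauto) he)
      have := hn x h6 h7 (by omega)
      omega
  have hbL : b ∈ lft W top pos t b1 := mem_lft.2 ⟨hb, Or.inr ⟨tb, hlt⟩⟩
  refine ⟨⟨?_, ?_, ?_, ?_, ?_, ?_, ?_, ?_⟩, hbL⟩
  · intro x hx
    simp only [stt] at hx ⊢
    rw [mem_lft] at hx ⊢
    refine ⟨hx.1, ?_⟩
    rcases hx.2 with h2 | ⟨h2, h3⟩
    · left; exact h2
    · right; exact ⟨h2, by omega⟩
  · simp only [stt, mem_lft]
    rintro ⟨_, ⟨_, h2⟩ | ⟨h2, _⟩⟩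
    · omega
    · exact h2 tt
  · simp only [stt, mem_lft]
    rintro ⟨_, ⟨h2, _⟩ | ⟨_, h2⟩⟩
    · exact tb1 h2
    · omega
  · left; rfl
  · right; exact hbL
  · intro x hx; exact absurd hx (hmid x)
  · intro x hx; exact absurd hx (hmid x)
  · left; intro x hx; exact absurd hx (hmid x)

/-- **The next state.** -/
theorem next_state (hsym : ∀ u v, adj u v → adj v u) (h : Dr adj W top pos)
    (hni : ∀ u ∈ W, ∃ v ∈ W, adj u v) {t b : ℕ} (ht : t ∈ W) (hb : b ∈ W) (tt : top t)
    (tb : ¬ top b) (hf : Free adj W top pos t b)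
    (hnf : ∃ x ∈ W, x ≠ t ∧ x ≠ b ∧ x ∉ lft W top pos t b) :
    ∃ t' b', t' ∈ W ∧ b' ∈ W ∧ top t' ∧ ¬ top b' ∧ Free adj W top pos t' b' ∧
      Tr adj W top (stt W top pos t b) (stt W top pos t' b') ∧
      (t ∈ lft W top pos t' b' ∨ b ∈ lft W top pos t' b') := by
  classical
  have halt := h.alt
  by_cases hT : ∃ x ∈ W, top x ∧ pos t < pos x
  · by_cases hB : ∃ x ∈ W, ¬ top x ∧ pos b < pos x
    · obtain ⟨t1, ht1, tt1, lt1, nt1⟩ := next_of hT
      obtain ⟨b1, hb1, tb1, lb1, nb1⟩ := next_of hB
      by_cases hft : Free adj W top pos t1 b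
      · obtain ⟨h1, h2⟩ := move_top h ht hb ht1 tt tb tt1 lt1 nt1
        exact ⟨t1, b, ht1, hb, tt1, tb, hft, h1, Or.inl h2⟩
      by_cases hfb : Free adj W top pos t b1
      · obtain ⟨h1, h2⟩ := move_bot h ht hb hb1 tt tb tb1 lb1 nb1
        exact ⟨t, b1, ht, hb1, tt, tb1, hfb, h1, Or.inr h2⟩
      -- the two long edges
      have e1 : ∃ c ∈ W, adj t c ∧ pos b < pos c := by
        unfold Free at hft
        push_neg at hft
        obtain ⟨a, ha, c, hc, ta, hac, hX⟩ := hft
        have h1 := hf a ha c hc ta hac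
        unfold X at hX h1
        have h2 : pos a = pos t := by
          by_contra hne
          rcases hX with ⟨h3, h4⟩ | ⟨h3, h4⟩
          · have : ¬ pos t < pos a := fun h5 => by
              have := nt1 a ha ta h5
              omega
            omega
          · omega
        have h3 : a = t := h.inj a ha t ht (by tauto) h2
        subst h3
        exact ⟨c, hc, hac, by omega⟩
      have e2 : ∃ c ∈ W, adj c b ∧ pos t < pos c := by
        unfold Free at hfb
        push_neg at hfb
        obtain ⟨a, ha, c, hc, ta, hac, hX⟩ := hfb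
        have h1 := hf a ha c hc ta hac
        have tc : ¬ top c := (halt a ha c hc hac).1 ta
        unfold X at hX h1
        have h2 : pos c = pos b := by
          by_contra hne
          rcases hX with ⟨h3, h4⟩ | ⟨h3, h4⟩
          · omega
          · have : ¬ pos b < pos c := fun h5 => by
              have := nb1 c hc tc h5
              omega
            omega
        have h3 : c = b := h.inj c hc b hb (by tauto) h2
        subst h3
        exact ⟨a, ha, hac, by omega⟩
      obtain ⟨c0, hc0, hc1, hc2⟩ := e1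
      obtain ⟨d0, hd0, hd1, hd2⟩ := e2
      obtain ⟨y, hy, ⟨y1, y2⟩, ymax⟩ := max_of (W := W) (pos := pos)
        (P := fun c => adj t c ∧ pos b < pos c) ⟨c0, hc0, hc1, hc2⟩
      obtain ⟨x, hx, ⟨x1, x2⟩, xmax⟩ := max_of (W := W) (pos := pos)
        (P := fun c => adj c b ∧ pos t < pos c) ⟨d0, hd0, hd1, hd2⟩
      have tx : top x := by
        have := halt x hx b hb x1
        tauto
      have ty : ¬ top y := (halt t ht y hy y1).1 tt
      have hxt : x ≠ t := fun e => by rw [e] at x2; exact lt_irrefl _ x2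
      have hyb : y ≠ b := fun e => by rw [e] at y2; exact lt_irrefl _ y2
      -- the new line is free
      have hfree : Free adj W top pos x y := by
        intro a ha c hc ta hac hX
        have tc : ¬ top c := (halt a ha c hc hac).1 ta
        have h1 := hf a ha c hc ta hac
        rcases hX with ⟨p1, p2⟩ | ⟨p1, p2⟩
        · -- `a` left of `x`, `c` right of `y`
          have hat : pos t < pos a := by
            by_contra hcon
            rcases Nat.lt_or_ge (pos a) (pos t) with h2 | h2
            · exact h1 (Or.inl ⟨h2, by omega⟩)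
            · have h3 : a = t := h.inj a ha t ht (by tauto) (by omega)
              subst h3
              have := ymax c hc ⟨hac, by omega⟩
              omega
          have := h.fan x hx b hb t ht y hy a ha c hc tx tt ta x1 y1 hac
            (Or.inr ⟨x2, y2⟩) (Or.inr ⟨p1, by omega⟩)
          rcases this with rfl | rfl
          · exact lt_irrefl _ hat
          · exact lt_irrefl _ p2
        · -- `a` right of `x`, `c` left of `y`
          have hcb : pos b < pos c := by
            by_contra hcon
            rcases Nat.lt_or_ge (pos c) (pos b) with h2 | h2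
            · exact h1 (Or.inr ⟨by omega, h2⟩)
            · have h3 : c = b := h.inj c hc b hb (by tauto) (by omega)
              subst h3
              have := xmax a ha ⟨hac, by omega⟩
              omega
          have := h.fan t ht y hy x hx b hb a ha c hc tt tx ta y1 x1 hac
            (Or.inl ⟨x2, y2⟩) (Or.inl ⟨by omega, p2⟩)
          rcases this with rfl | rfl
          · exact lt_irrefl _ p1
          · exact lt_irrefl _ hcb
      have htL : t ∈ lft W top pos x y := mem_lft.2 ⟨ht, Or.inl ⟨tt, x2⟩⟩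
      have hbL : b ∈ lft W top pos x y := mem_lft.2 ⟨hb, Or.inr ⟨tb, y2⟩⟩
      -- the middle vertices
      have midt : ∀ k, Mid (stt W top pos t b) (stt W top pos x y) k → top k →
          k ∈ W ∧ pos t < pos k ∧ pos k < pos x := by
        rintro k ⟨h2, h3, h4, h5⟩ tk
        simp only [stt, mem_lft, not_and, not_or, ne_eq] at h2 h3 h4 h5
        obtain ⟨h6, h7⟩ := h2
        obtain ⟨h8, h9⟩ := h3 h6
        have h10 := h8 tk
        have h11 : pos k ≠ pos t := fun he => h4 (h.inj k h6 t ht (by tauto) he)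
        refine ⟨h6, by omega, ?_⟩
        rcases h7 with ⟨_, h7⟩ | ⟨h7, _⟩
        · exact h7
        · exact absurd tk h7
      have midb : ∀ k, Mid (stt W top pos t b) (stt W top pos x y) k → ¬ top k →
          k ∈ W ∧ pos b < pos k ∧ pos k < pos y := by
        rintro k ⟨h2, h3, h4, h5⟩ tk
        simp only [stt, mem_lft, not_and, not_or, ne_eq] at h2 h3 h4 h5
        obtain ⟨h6, h7⟩ := h2
        obtain ⟨h8, h9⟩ := h3 h6
        have h10 := h9 tk
        have h11 : pos k ≠ pos b := fun he => h5 (h.inj k h6 b hb (by tauto) he)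
        refine ⟨h6, by omega, ?_⟩
        rcases h7 with ⟨h7, _⟩ | ⟨_, h7⟩
        · exact absurd h7 tk
        · exact h7
      -- their neighbours
      have nbt : ∀ k, Mid (stt W top pos t b) (stt W top pos x y) k → top k →
          ∀ c ∈ W, adj k c → c = b ∨ c = y := by
        intro k hk tk c hc hkc
        obtain ⟨kW, k1, k2⟩ := midt k hk tk
        have tc : ¬ top c := (halt k kW c hc hkc).1 tk
        have h1 := hf k kW c hc tk hkc
        have h2 := hfree k kW c hc tk hkc
        unfold X at h1 h2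
        by_contra hcon
        push_neg at hcon
        obtain ⟨n1, n2⟩ := hcon
        have h3 : pos c ≠ pos b := fun he => n1 (h.inj c hc b hb (by tauto) he)
        have h4 : pos c ≠ pos y := fun he => n2 (h.inj c hc y hy (by tauto) he)
        have := h.fan k kW c hc t ht y hy x hx b hb tk tt tx hkc y1 x1
          (Or.inr ⟨k1, by omega⟩) (Or.inl ⟨k2, by omega⟩)
        rcases this with h5 | h5
        · exact hxt h5.symm
        · exact hyb h5
      have nbb : ∀ k, Mid (stt W top pos t b) (stt W top pos x y) k → ¬ top k →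
          ∀ a ∈ W, adj k a → a = t ∨ a = x := by
        intro k hk tk a ha hka
        obtain ⟨kW, k1, k2⟩ := midb k hk tk
        have ta : top a := by
          have := halt k kW a ha hka
          tauto
        have hak := hsym _ _ hka
        have h1 := hf a ha k kW ta hak
        have h2 := hfree a ha k kW ta hak
        unfold X at h1 h2
        by_contra hcon
        push_neg at hcon
        obtain ⟨n1, n2⟩ := hcon
        have h3 : pos a ≠ pos t := fun he => n1 (h.inj a ha t ht (by tauto) he)
        have h4 : pos a ≠ pos x := fun he => n2 (h.inj a ha x hx (by tauto) he)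
        have := h.fan a ha k kW t ht y hy x hx b hb ta tt tx hak y1 x1
          (Or.inr ⟨by omega, k2⟩) (Or.inl ⟨by omega, k1⟩)
        rcases this with h5 | h5
        · exact hxt h5.symm
        · exact hyb h5
      refine ⟨x, y, hx, hy, tx, ty, hfree, ⟨?_, ?_, ?_, Or.inr htL, Or.inr hbL, ?_, ?_, ?_⟩,
        Or.inl htL⟩
      · intro k hk
        simp only [stt] at hk ⊢
        rw [mem_lft] at hk ⊢
        refine ⟨hk.1, ?_⟩
        rcases hk.2 with ⟨h2, h3⟩ | ⟨h2, h3⟩
        · left; exact ⟨h2, by omega⟩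
        · right; exact ⟨h2, by omega⟩
      · simp only [stt, mem_lft]
        rintro ⟨_, ⟨_, h2⟩ | ⟨h2, _⟩⟩
        · omega
        · exact h2 tx
      · simp only [stt, mem_lft]
        rintro ⟨_, ⟨h2, _⟩ | ⟨_, h2⟩⟩
        · exact ty h2
        · omega
      · intro _ _ _; exact hxt
      · intro _ _ _; exact hyb
      · -- the shape
        by_cases s1 : ∀ k, Mid (stt W top pos t b) (stt W top pos x y) k → ¬ top k
        · exact Or.inl s1
        by_cases s2 : ∀ k, Mid (stt W top pos t b) (stt W top pos x y) k → top k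
        · exact Or.inr (Or.inl s2)
        right; right
        push_neg at s1 s2
        obtain ⟨k0, hk0, tk0⟩ := s1
        obtain ⟨l0, hl0, tl0⟩ := s2
        -- the two conflicts
        have conf1 : ∀ k l, Mid (stt W top pos t b) (stt W top pos x y) k → top k →
            Mid (stt W top pos t b) (stt W top pos x y) l → ¬ top l → adj k b → ¬ adj l x := by
          intro k l hk tk hl tl hkb hlx
          obtain ⟨kW, k1, k2⟩ := midt k hk tk
          obtain ⟨lW, l1, l2⟩ := midb l hl tl
          have := h.fan t ht y hy k kW b hb x hx l lW tt tk tx y1 hkb (hsym _ _ hlx)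
            (Or.inl ⟨k1, y2⟩) (Or.inl ⟨x2, l2⟩)
          rcases this with rfl | rfl
          · exact lt_irrefl _ k2
          · exact lt_irrefl _ l1
        have conf2 : ∀ k l, Mid (stt W top pos t b) (stt W top pos x y) k → top k →
            Mid (stt W top pos t b) (stt W top pos x y) l → ¬ top l → adj k y → ¬ adj l t := by
          intro k l hk tk hl tl hky hlt
          obtain ⟨kW, k1, k2⟩ := midt k hk tk
          obtain ⟨lW, l1, l2⟩ := midb l hl tl
          have := h.fan x hx b hb k kW y hy t ht l lW tx tk tt x1 hky (hsym _ _ hlt)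
            (Or.inr ⟨k2, y2⟩) (Or.inr ⟨x2, l1⟩)
          rcases this with rfl | rfl
          · exact lt_irrefl _ k1
          · exact lt_irrefl _ l2
        by_cases s3 : ∃ k, Mid (stt W top pos t b) (stt W top pos x y) k ∧ top k ∧ adj k b
        · left
          obtain ⟨k, hk, tk, hkb⟩ := s3
          have q2 : ∀ l, Mid (stt W top pos t b) (stt W top pos x y) l → ¬ top l →
              ∀ a ∈ W, adj l a → a = t := by
            intro l hl tl a ha hla
            rcases nbb l hl tl a ha hla with h3 | h3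
            · exact h3
            · rw [h3] at hla
              exact absurd hla (conf1 k l hk tk hl tl hkb)
          refine ⟨?_, q2⟩
          intro k' hk' tk' c hc hkc
          rcases nbt k' hk' tk' c hc hkc with h3 | h3
          · exact h3
          · rw [h3] at hkc
            obtain ⟨a, ha, hla⟩ := hni l0 (midb l0 hl0 tl0).1
            have h4 := q2 l0 hl0 tl0 a ha hla
            rw [h4] at hla
            exact absurd hla (conf2 k' l0 hk' tk' hl0 tl0 hkc)
        · right
          have q1 : ∀ k, Mid (stt W top pos t b) (stt W top pos x y) k → top k →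
              ∀ a ∈ W, adj k a → a = y := by
            intro k hk tk a ha hka
            rcases nbt k hk tk a ha hka with h3 | h3
            · rw [h3] at hka
              exact absurd ⟨k, hk, tk, hka⟩ s3
            · exact h3
          refine ⟨q1, ?_⟩
          intro l hl tl a ha hla
          rcases nbb l hl tl a ha hla with h3 | h3
          · rw [h3] at hla
            obtain ⟨c, hc, hkc⟩ := hni k0 (midt k0 hk0 tk0).1
            have h4 := q1 k0 hk0 tk0 c hc hkc
            rw [h4] at hkc
            exact absurd hla (conf2 k0 l hk0 tk0 hl tl hkc)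
          · exact h3
    · -- no lower vertex on the right
      obtain ⟨t1, ht1, tt1, lt1, nt1⟩ := next_of hT
      have hft : Free adj W top pos t1 b := by
        intro a ha c hc ta hac hX
        have tc : ¬ top c := (halt a ha c hc hac).1 ta
        have h1 := hf a ha c hc ta hac
        rcases hX with ⟨p1, p2⟩ | ⟨p1, p2⟩
        · exact hB ⟨c, hc, tc, p2⟩
        · exact h1 (Or.inr ⟨by omega, p2⟩)
      obtain ⟨h1, h2⟩ := move_top h ht hb ht1 tt tb tt1 lt1 nt1
      exact ⟨t1, b, ht1, hb, tt1, tb, hft, h1, Or.inl h2⟩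
  · by_cases hB : ∃ x ∈ W, ¬ top x ∧ pos b < pos x
    · obtain ⟨b1, hb1, tb1, lb1, nb1⟩ := next_of hB
      have hfb : Free adj W top pos t b1 := by
        intro a ha c hc ta hac hX
        have h1 := hf a ha c hc ta hac
        rcases hX with ⟨p1, p2⟩ | ⟨p1, p2⟩
        · exact h1 (Or.inl ⟨p1, by omega⟩)
        · exact hT ⟨a, ha, ta, p1⟩
      obtain ⟨h1, h2⟩ := move_bot h ht hb hb1 tt tb tb1 lb1 nb1
      exact ⟨t, b1, ht, hb1, tt, tb1, hfb, h1, Or.inr h2⟩
    · exfalso
      obtain ⟨z, hz, z1, z2, z3⟩ := hnf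
      rw [mem_lft] at z3
      push_neg at hT hB z3
      obtain ⟨z4, z5⟩ := z3 hz
      by_cases tz : top z
      · have h1 := hT z hz tz
        have h2 := z4 tz
        exact z1 (h.inj z hz t ht (by tauto) (by omega))
      · have h1 := hB z hz tz
        have h2 := z5 tz
        exact z2 (h.inj z hz b hb (by tauto) (by omega))

end Pool.Agent.R552.Fan
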