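import Pool.Agent.R552.Fan.Next

/-!
# Drawings of connected graphs and paths of states with few representatives
-/

namespace Pool.Agent.R552.Fan

open Relation

variable {adj : ℕ → ℕ → Prop} {W : Finset ℕ} {top : ℕ → Prop} {pos : ℕ → ℕ}

/-- adjacency in the graph without `t` and `b` -/
def R' (adj : ℕ → ℕ → Prop) (W : Finset ℕ) (t b i j : ℕ) : Prop :=
  i ∈ W ∧ i ≠ t ∧ i ≠ b ∧ j ∈ W ∧ j ≠ t ∧ j ≠ b ∧ adj i j

/-- the vertices in the components of some representatives -/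
def Rch (adj : ℕ → ℕ → Prop) (W : Finset ℕ) (t b : ℕ) (C : List ℕ) (u : ℕ) : Prop :=
  ∃ c ∈ C, c ∈ W ∧ c ≠ t ∧ c ≠ b ∧ ReflTransGen (R' adj W t b) c u

theorem R'.symm (hsym : ∀ u v, adj u v → adj v u) {t b i j : ℕ} (h : R' adj W t b i j) :
    R' adj W t b j i := by
  obtain ⟨h1, h2, h3, h4, h5, h6, h7⟩ := h
  exact ⟨h4, h5, h6, h1, h2, h3, hsym _ _ h7⟩

theorem RT.symm (hsym : ∀ u v, adj u v → adj v u) {t b i j : ℕ}
    (h : ReflTransGen (R' adj W t b) i j) : ReflTransGen (R' adj W t b) j i := by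
  induction h with
  | refl => exact .refl
  | tail _ h ih => exact (ReflTransGen.single (R'.symm hsym h)).trans ih

theorem R'.swap {t b i j : ℕ} (h : R' adj W t b i j) : R' adj W b t i j := by
  obtain ⟨h1, h2, h3, h4, h5, h6, h7⟩ := h
  exact ⟨h1, h3, h2, h4, h6, h5, h7⟩

theorem RT.swap {t b i j : ℕ} (h : ReflTransGen (R' adj W t b) i j) :
    ReflTransGen (R' adj W b t) i j := by
  induction h with
  | refl => exact .refl
  | tail _ h ih => exact ih.tail (R'.swap h)

theorem Rch.inW {t b u : ℕ} {C : List ℕ} (h : Rch adj W t b C u) : u ∈ W ∧ u ≠ t ∧ u ≠ b := by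
  obtain ⟨c, _, h1, h2, h3, h4⟩ := h
  induction h4 with
  | refl => exact ⟨h1, h2, h3⟩
  | tail _ h _ => exact ⟨h.2.2.2.1, h.2.2.2.2.1, h.2.2.2.2.2.1⟩

/-- the three representatives on one side -/
theorem reps_half (hsym : ∀ u v, adj u v → adj v u) (h : Dr adj W top pos)
    (hleaf : ∀ y ∈ W, ∀ y' ∈ W, ∀ z ∈ W, adj y z → adj y' z → (∀ x ∈ W, adj y x → x = z) →
      (∀ x ∈ W, adj y' x → x = z) → y = y')
    {t b : ℕ} (ht : t ∈ W) (hb : b ∈ W) (tt : top t) (tb : ¬ top b)
    (hf : Free adj W top pos t b) :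
    ∃ c1 c2 c3 : ℕ, (∀ c ∈ [c1, c2, c3], c = t ∨ c ∈ lft W top pos t b) ∧
      ∀ w ∈ lft W top pos t b, adj w t →
        ∃ c ∈ [c1, c2, c3], c ∈ lft W top pos t b ∧ ReflTransGen (R' adj W t b) c w := by
  classical
  have hv := valid_stt hsym h ht hb tt tb hf
  have hcl : ∀ u ∈ lft W top pos t b, ∀ v ∈ W, adj u v → v ∈ lft W top pos t b ∨ v = t ∨ v = b :=
    hv.cl
  have hLW : ∀ u ∈ lft W top pos t b, u ∈ W := fun u hu => hv.LW hu
  have hLt : ∀ u ∈ lft W top pos t b, u ≠ t := fun u hu he => hv.tL (by rw [he] at hu; exact hu)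
  have hLb : ∀ u ∈ lft W top pos t b, u ≠ b := fun u hu he => hv.bL (by rw [he] at hu; exact hu)
  -- the leaf
  obtain ⟨c1, h1, h1'⟩ : ∃ c1, (c1 = t ∨ c1 ∈ lft W top pos t b) ∧
      ∀ w ∈ lft W top pos t b, adj w t → (∀ z ∈ W, adj w z → z = t) →
        c1 ∈ lft W top pos t b ∧ c1 = w := by
    by_cases hex : ∃ y ∈ lft W top pos t b, adj y t ∧ ∀ z ∈ W, adj y z → z = t
    · obtain ⟨y, hy, hyt, hyz⟩ := hex
      refine ⟨y, Or.inr hy, ?_⟩
      intro w hw hwt hwz
      exact ⟨hy, hleaf y (hLW y hy) w (hLW w hw) t ht hyt hwt hyz hwz⟩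
    · refine ⟨t, Or.inl rfl, ?_⟩
      intro w hw hwt hwz
      exact absurd ⟨w, hw, hwt, hwz⟩ hex
  by_cases hP : ∃ y ∈ lft W top pos t b, adj y t ∧ ∃ z ∈ W, adj y z ∧ z ≠ t
  · obtain ⟨y1, hy1, ⟨hy1t, hy1z⟩, hmin⟩ : ∃ y ∈ lft W top pos t b,
        (adj y t ∧ ∃ z ∈ W, adj y z ∧ z ≠ t) ∧
        ∀ w ∈ lft W top pos t b, (adj w t ∧ ∃ z ∈ W, adj w z ∧ z ≠ t) → pos y ≤ pos w := by
      obtain ⟨y0, hy0, hy0'⟩ := hP
      obtain ⟨y, hy, hm⟩ := Finset.exists_min_image ((lft W top pos t b).filter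
        fun y => adj y t ∧ ∃ z ∈ W, adj y z ∧ z ≠ t) pos ⟨y0, Finset.mem_filter.2 ⟨hy0, hy0'⟩⟩
      rw [Finset.mem_filter] at hy
      exact ⟨y, hy.1, hy.2, fun w hw hw' => hm w (Finset.mem_filter.2 ⟨hw, hw'⟩)⟩
    obtain ⟨c3, h3, h3'⟩ : ∃ c3, (c3 = t ∨ c3 ∈ lft W top pos t b) ∧
        ∀ w ∈ lft W top pos t b, adj w t → (∃ z ∈ W, adj w z ∧ z ≠ t) →
          ¬ ReflTransGen (R' adj W t b) y1 w →
          c3 ∈ lft W top pos t b ∧ ReflTransGen (R' adj W t b) c3 w := by
      by_cases hex : ∃ y ∈ lft W top pos t b, adj y t ∧ (∃ z ∈ W, adj y z ∧ z ≠ t) ∧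
          ¬ ReflTransGen (R' adj W t b) y1 y
      · obtain ⟨y2, hy2, hy2t, hy2z, hy2r⟩ := hex
        refine ⟨y2, Or.inr hy2, ?_⟩
        intro w hw hwt hwz hwr
        refine ⟨hy2, ?_⟩
        have hm2 := hmin y2 hy2 ⟨hy2t, hy2z⟩
        have hmw := hmin w hw ⟨hwt, hwz⟩
        obtain ⟨z2, hz2, e2, n2⟩ := hy2z
        obtain ⟨zw, hzw, ew, nw⟩ := hwz
        have halt := h.alt
        have ty1 : ¬ top y1 := by
          have := halt y1 (hLW _ hy1) t ht hy1t; tauto
        have ty2 : ¬ top y2 := by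
          have := halt y2 (hLW _ hy2) t ht hy2t; tauto
        have tw : ¬ top w := by
          have := halt w (hLW _ hw) t ht hwt; tauto
        have tz2 : top z2 := by
          have := halt y2 (hLW _ hy2) z2 hz2 e2; tauto
        have tzw : top zw := by
          have := halt w (hLW _ hw) zw hzw ew; tauto
        have z2L : z2 ∈ lft W top pos t b := by
          rcases hcl y2 hy2 z2 hz2 e2 with h4 | h4 | h4
          · exact h4
          · exact absurd h4 n2
          · rw [h4] at tz2; exact absurd tz2 tb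
        have zwL : zw ∈ lft W top pos t b := by
          rcases hcl w hw zw hzw ew with h4 | h4 | h4
          · exact h4
          · exact absurd h4 nw
          · rw [h4] at tzw; exact absurd tzw tb
        have pz2 : pos z2 < pos t := by
          rcases (mem_lft.1 z2L).2 with h4 | h4
          · exact h4.2
          · exact absurd tz2 h4.1
        have pzw : pos zw < pos t := by
          rcases (mem_lft.1 zwL).2 with h4 | h4
          · exact h4.2
          · exact absurd tzw h4.1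
        have p2 : pos y1 ≠ pos y2 := fun he => by
          have := h.inj y1 (hLW _ hy1) y2 (hLW _ hy2) (by tauto) he
          rw [this] at hy2r
          exact hy2r .refl
        have pw : pos y1 ≠ pos w := fun he => by
          have := h.inj y1 (hLW _ hy1) w (hLW _ hw) (by tauto) he
          rw [this] at hwr
          exact hwr .refl
        have := h.fan t ht y1 (hLW _ hy1) z2 hz2 y2 (hLW _ hy2) zw hzw w (hLW _ hw) tt tz2 tzw
          (hsym _ _ hy1t) (hsym _ _ e2) (hsym _ _ ew) (Or.inr ⟨pz2, by omega⟩)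
          (Or.inr ⟨pzw, by omega⟩)
        rcases this with h5 | h5
        · have r1 : R' adj W t b y2 z2 := ⟨hLW _ hy2, hLt _ hy2, hLb _ hy2, hz2, n2,
            hLb _ z2L, e2⟩
          have r2 : R' adj W t b z2 w := by
            refine ⟨hz2, n2, hLb _ z2L, hLW _ hw, hLt _ hw, hLb _ hw, ?_⟩
            rw [h5]
            exact hsym _ _ ew
          exact (ReflTransGen.single r1).tail r2
        · rw [h5]
      · refine ⟨t, Or.inl rfl, ?_⟩
        intro w hw hwt hwz hwr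
        exact absurd ⟨w, hw, hwt, hwz, hwr⟩ hex
    refine ⟨c1, y1, c3, ?_, ?_⟩
    · intro c hc
      simp only [List.mem_cons, List.not_mem_nil, or_false] at hc
      rcases hc with rfl | rfl | rfl
      · exact h1
      · exact Or.inr hy1
      · exact h3
    · intro w hw hwt
      by_cases hl : ∀ z ∈ W, adj w z → z = t
      · obtain ⟨h4, h5⟩ := h1' w hw hwt hl
        refine ⟨c1, by simp, h4, ?_⟩
        rw [h5]
      · push_neg at hl
        by_cases hr : ReflTransGen (R' adj W t b) y1 w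
        · exact ⟨y1, by simp, hy1, hr⟩
        · obtain ⟨h4, h5⟩ := h3' w hw hwt hl hr
          exact ⟨c3, by simp, h4, h5⟩
  · refine ⟨c1, t, t, ?_, ?_⟩
    · intro c hc
      simp only [List.mem_cons, List.not_mem_nil, or_false] at hc
      rcases hc with rfl | rfl | rfl
      · exact h1
      · exact Or.inl rfl
      · exact Or.inl rfl
    · intro w hw hwt
      by_cases hl : ∀ z ∈ W, adj w z → z = t
      · obtain ⟨h4, h5⟩ := h1' w hw hwt hl
        refine ⟨c1, by simp, h4, ?_⟩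
        rw [h5]
      · push_neg at hl
        exact absurd ⟨w, hw, hwt, hl⟩ hP

theorem lft_swap {t b : ℕ} : lft W (fun x => ¬ top x) pos b t = lft W top pos t b := by
  ext x
  rw [mem_lft, mem_lft]
  tauto

/-- from any vertex a path leads to a neighbour of `t` or `b` -/
theorem to_line {t b u : ℕ} (h : ReflTransGen (fun i j => i ∈ W ∧ j ∈ W ∧ adj i j) u t)
    (hu : u ∈ W) (h1 : u ≠ t) (h2 : u ≠ b) :
    ∃ w, ReflTransGen (R' adj W t b) u w ∧ w ∈ W ∧ (adj w t ∨ adj w b) := by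
  induction h using ReflTransGen.head_induction_on with
  | refl => exact absurd rfl h1
  | @head a c hac _ ih =>
    obtain ⟨ha, hc, hadj⟩ := hac
    by_cases h3 : c = t
    · exact ⟨a, .refl, ha, Or.inl (h3 ▸ hadj)⟩
    · by_cases h4 : c = b
      · exact ⟨a, .refl, ha, Or.inr (h4 ▸ hadj)⟩
      · obtain ⟨w, hw1, hw2⟩ := ih hc h3 h4
        exact ⟨w, ReflTransGen.head ⟨ha, h1, h2, hc, h3, h4, hadj⟩ hw1, hw2⟩

theorem reps (hsym : ∀ u v, adj u v → adj v u) (h : Dr adj W top pos)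
    (hleaf : ∀ y ∈ W, ∀ y' ∈ W, ∀ z ∈ W, adj y z → adj y' z → (∀ x ∈ W, adj y x → x = z) →
      (∀ x ∈ W, adj y' x → x = z) → y = y')
    (hconn : ∀ u ∈ W, ∀ v ∈ W, ReflTransGen (fun i j => i ∈ W ∧ j ∈ W ∧ adj i j) u v)
    {t b : ℕ} (ht : t ∈ W) (hb : b ∈ W) (tt : top t) (tb : ¬ top b)
    (hf : Free adj W top pos t b) :
    ∃ C : List ℕ, C.length = 6 ∧ (∀ c ∈ C, c ∈ W) ∧
      ∀ u, u ∈ lft W top pos t b ↔ Rch adj W t b C u := by
  have hv := valid_stt hsym h ht hb tt tb hf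
  have hcl : ∀ u ∈ lft W top pos t b, ∀ v ∈ W, adj u v → v ∈ lft W top pos t b ∨ v = t ∨ v = b :=
    hv.cl
  have hLW : ∀ u ∈ lft W top pos t b, u ∈ W := fun u hu => hv.LW hu
  have hLt : ∀ u ∈ lft W top pos t b, u ≠ t := fun u hu he => hv.tL (by rw [he] at hu; exact hu)
  have hLb : ∀ u ∈ lft W top pos t b, u ≠ b := fun u hu he => hv.bL (by rw [he] at hu; exact hu)
  have clos : ∀ c ∈ lft W top pos t b, ∀ u, ReflTransGen (R' adj W t b) c u →
      u ∈ lft W top pos t b := by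
    intro c hc u hu
    induction hu with
    | refl => exact hc
    | tail _ h ih =>
      rcases hcl _ ih _ h.2.2.2.1 h.2.2.2.2.2.2 with h4 | h4 | h4
      · exact h4
      · exact absurd h4 h.2.2.2.2.1
      · exact absurd h4 h.2.2.2.2.2.1
  obtain ⟨c1, c2, c3, h1, h2⟩ := reps_half hsym h hleaf ht hb tt tb hf
  obtain ⟨c4, c5, c6, h3, h4⟩ := reps_half hsym (h.swap hsym) hleaf hb ht tb
    (by simpa using tt) (hf.swap hsym h.alt)
  rw [lft_swap] at h3 h4
  refine ⟨[c1, c2, c3, c4, c5, c6], rfl, ?_, ?_⟩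
  · intro c hc
    have h5 : c ∈ [c1, c2, c3] ∨ c ∈ [c4, c5, c6] := by
      simp only [List.mem_cons, List.not_mem_nil, or_false] at hc ⊢
      tauto
    rcases h5 with h5 | h5
    · rcases h1 c h5 with h6 | h6
      · rw [h6]; exact ht
      · exact hLW c h6
    · rcases h3 c h5 with h6 | h6
      · rw [h6]; exact hb
      · exact hLW c h6
  · intro u
    constructor
    · intro hu
      obtain ⟨w, hw1, hw2, hw3⟩ := to_line (b := b) (hconn u (hLW u hu) t ht) (hLW u hu) (hLt u hu)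
        (hLb u hu)
      have hwL := clos u hu w hw1
      rcases hw3 with hw3 | hw3
      · obtain ⟨c, hc, hcL, hcw⟩ := h2 w hwL hw3
        refine ⟨c, ?_, hLW c hcL, hLt c hcL, hLb c hcL, hcw.trans (RT.symm hsym hw1)⟩
        simp only [List.mem_cons, List.not_mem_nil, or_false] at hc ⊢
        tauto
      · obtain ⟨c, hc, hcL, hcw⟩ := h4 w hwL hw3
        refine ⟨c, ?_, hLW c hcL, hLt c hcL, hLb c hcL, (RT.swap hcw).trans (RT.symm hsym hw1)⟩
        simp only [List.mem_cons, List.not_mem_nil, or_false] at hc ⊢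
        tauto
    · rintro ⟨c, hc, hcW, hct, hcb, hcu⟩
      refine clos c ?_ u hcu
      have h5 : c ∈ [c1, c2, c3] ∨ c ∈ [c4, c5, c6] := by
        simp only [List.mem_cons, List.not_mem_nil, or_false] at hc ⊢
        tauto
      rcases h5 with h5 | h5
      · rcases h1 c h5 with h6 | h6
        · exact absurd h6 hct
        · exact h6
      · rcases h3 c h5 with h6 | h6
        · exact absurd h6 hcb
        · exact h6

/-! ### Paths of states -/

open Classical in
/-- the state given by representatives -/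
noncomputable def stC (adj : ℕ → ℕ → Prop) (W : Finset ℕ) (t b : ℕ) (C : List ℕ) : St :=
  ⟨t, b, W.filter (Rch adj W t b C)⟩

theorem mem_stC {t b u : ℕ} {C : List ℕ} : u ∈ (stC adj W t b C).L ↔ Rch adj W t b C u := by
  classical
  unfold stC
  simp only [Finset.mem_filter]
  exact ⟨fun h => h.2, fun h => ⟨h.inW.1, h⟩⟩

/-- codes of states -/
structure Vld (W : Finset ℕ) (top : ℕ → Prop) (s : ℕ × ℕ × List ℕ) : Prop where
  tW : s.1 ∈ W
  tt : top s.1
  bW : s.2.1 ∈ W
  tb : ¬ top s.2.1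
  len : s.2.2.length = 6
  C : ∀ c ∈ s.2.2, c ∈ W

theorem valid_stC {s : ℕ × ℕ × List ℕ} (h : Vld W top s) :
    Valid adj W top (stC adj W s.1 s.2.1 s.2.2) := by
  refine ⟨h.tW, h.bW, h.tt, h.tb, ?_, ?_, ?_, ?_⟩
  · intro u hu
    exact (mem_stC.1 hu).inW.1
  · intro hu
    exact (mem_stC.1 hu).inW.2.1 rfl
  · intro hu
    exact (mem_stC.1 hu).inW.2.2 rfl
  · intro u hu v hv huv
    have h1 := mem_stC.1 hu
    have h2 := h1.inW
    by_cases h3 : v = s.1
    · exact Or.inr (Or.inl h3)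
    by_cases h4 : v = s.2.1
    · exact Or.inr (Or.inr h4)
    left
    rw [mem_stC]
    obtain ⟨c, hc, h5, h6, h7, h8⟩ := h1
    exact ⟨c, hc, h5, h6, h7, h8.tail ⟨h2.1, h2.2.1, h2.2.2, hv, h3, h4, huv⟩⟩

/-- transitions between codes -/
def TT (adj : ℕ → ℕ → Prop) (W : Finset ℕ) (top : ℕ → Prop) (s s' : ℕ × ℕ × List ℕ) : Prop :=
  Vld W top s ∧ Vld W top s' ∧
    Tr adj W top (stC adj W s.1 s.2.1 s.2.2) (stC adj W s'.1 s'.2.1 s'.2.2)

theorem Dr.mono {W' : Finset ℕ} (h : Dr adj W' top pos) (hs : W ⊆ W') : Dr adj W top pos :=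
  ⟨fun u hu v hv => h.alt u (hs hu) v (hs hv), fun u hu v hv => h.inj u (hs hu) v (hs hv),
    fun a ha b hb c hc d hd e he f hf => h.fan a (hs ha) b (hs hb) c (hs hc) d (hs hd) e (hs he)
      f (hs hf)⟩

theorem stt_eq_stC {t b : ℕ} {C : List ℕ} (h : ∀ u, u ∈ lft W top pos t b ↔ Rch adj W t b C u) :
    stt W top pos t b = stC adj W t b C := by
  have : lft W top pos t b = (stC adj W t b C).L := by
    ext u
    rw [mem_stC, h]
  unfold stt
  rw [this]
  rfl

/-- **Drawings are paths of states.** -/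
theorem conn_iff (hsym : ∀ u v, adj u v → adj v u)
    (alt : ∀ u ∈ W, ∀ v ∈ W, adj u v → (top u ↔ ¬ top v))
    (hni : ∀ u ∈ W, ∃ v ∈ W, adj u v) (hne : W.Nonempty)
    (hleaf : ∀ y ∈ W, ∀ y' ∈ W, ∀ z ∈ W, adj y z → adj y' z → (∀ x ∈ W, adj y x → x = z) →
      (∀ x ∈ W, adj y' x → x = z) → y = y')
    (hconn : ∀ u ∈ W, ∀ v ∈ W, ReflTransGen (fun i j => i ∈ W ∧ j ∈ W ∧ adj i j) u v) :
    (∃ pos, Dr adj W top pos) ↔ ∃ s s', Vld W top s ∧ Vld W top s' ∧
      ReflTransGen (TT adj W top) s s' ∧ (∀ u, ¬ Rch adj W s.1 s.2.1 s.2.2 u) ∧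
      ∀ u ∈ W, u = s'.1 ∨ u = s'.2.1 ∨ Rch adj W s'.1 s'.2.1 s'.2.2 u := by
  classical
  constructor
  · rintro ⟨pos, h⟩
    have ex : ∃ a ∈ W, top a := by
      obtain ⟨u, hu⟩ := hne
      obtain ⟨v, hv, huv⟩ := hni u hu
      by_cases hu' : top u
      · exact ⟨u, hu, hu'⟩
      · refine ⟨v, hv, ?_⟩
        have := alt u hu v hv huv
        tauto
    have ex' : ∃ a ∈ W, ¬ top a := by
      obtain ⟨u, hu⟩ := hne
      obtain ⟨v, hv, huv⟩ := hni u hu
      by_cases hu' : top u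
      · refine ⟨v, hv, ?_⟩
        have := alt u hu v hv huv
        tauto
      · exact ⟨u, hu, hu'⟩
    -- the main induction
    have main : ∀ (m : ℕ) (t b : ℕ) (C : List ℕ), t ∈ W → b ∈ W → top t → ¬ top b →
        Free adj W top pos t b → C.length = 6 → (∀ c ∈ C, c ∈ W) →
        (∀ u, u ∈ lft W top pos t b ↔ Rch adj W t b C u) →
        (W \ lft W top pos t b).card ≤ m →
        ∃ s', Vld W top s' ∧ ReflTransGen (TT adj W top) (t, b, C) s' ∧
          ∀ u ∈ W, u = s'.1 ∨ u = s'.2.1 ∨ Rch adj W s'.1 s'.2.1 s'.2.2 u := by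
      intro m
      induction m with
      | zero =>
        intro t b C ht hb tt tb hf h1 h2 h3 hc
        exfalso
        have h4 : t ∈ W \ lft W top pos t b := by
          rw [Finset.mem_sdiff]
          exact ⟨ht, (valid_stt hsym h ht hb tt tb hf).tL⟩
        have := Finset.card_pos.2 ⟨t, h4⟩
        omega
      | succ m ih =>
        intro t b C ht hb tt tb hf h1 h2 h3 hc
        by_cases hfin : ∀ u ∈ W, u = t ∨ u = b ∨ Rch adj W t b C u
        · exact ⟨(t, b, C), ⟨ht, tt, hb, tb, h1, h2⟩, .refl, hfin⟩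
        · have hnf : ∃ x ∈ W, x ≠ t ∧ x ≠ b ∧ x ∉ lft W top pos t b := by
            push_neg at hfin
            obtain ⟨x, hx, n1, n2, n3⟩ := hfin
            exact ⟨x, hx, n1, n2, fun h4 => n3 ((h3 x).1 h4)⟩
          obtain ⟨t', b', ht', hb', tt', tb', hf', hTr, hgrow⟩ :=
            next_state hsym h hni ht hb tt tb hf hnf
          obtain ⟨C', h1', h2', h3'⟩ := reps hsym h hleaf hconn ht' hb' tt' tb' hf'
          have hlt : (W \ lft W top pos t' b').card < (W \ lft W top pos t b).card := by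
            apply Finset.card_lt_card
            rw [Finset.ssubset_iff_of_subset]
            · have hv := valid_stt hsym h ht hb tt tb hf
              rcases hgrow with hg | hg
              · refine ⟨t, Finset.mem_sdiff.2 ⟨ht, hv.tL⟩, ?_⟩
                rw [Finset.mem_sdiff]
                rintro ⟨_, h5⟩
                exact h5 hg
              · refine ⟨b, Finset.mem_sdiff.2 ⟨hb, hv.bL⟩, ?_⟩
                rw [Finset.mem_sdiff]
                rintro ⟨_, h5⟩
                exact h5 hg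
            · intro x hx
              rw [Finset.mem_sdiff] at hx ⊢
              exact ⟨hx.1, fun h5 => hx.2 (hTr.sub h5)⟩
          obtain ⟨s', hs1, hs2, hs3⟩ := ih t' b' C' ht' hb' tt' tb' hf' h1' h2' h3' (by omega)
          refine ⟨s', hs1, ReflTransGen.head ?_ hs2, hs3⟩
          refine ⟨⟨ht, tt, hb, tb, h1, h2⟩, ⟨ht', tt', hb', tb', h1', h2'⟩, ?_⟩
          rw [stt_eq_stC h3, stt_eq_stC h3'] at hTr
          exact hTr
    -- the first line
    obtain ⟨t0, ht0, tt0, hm0⟩ : ∃ t ∈ W, top t ∧ ∀ a ∈ W, top a → pos t ≤ pos a := by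
      obtain ⟨a, ha, ta⟩ := ex
      obtain ⟨t, ht, hm⟩ := Finset.exists_min_image (W.filter top) pos
        ⟨a, Finset.mem_filter.2 ⟨ha, ta⟩⟩
      rw [Finset.mem_filter] at ht
      exact ⟨t, ht.1, ht.2, fun a ha ta => hm a (Finset.mem_filter.2 ⟨ha, ta⟩)⟩
    obtain ⟨b0, hb0, tb0, hm0'⟩ : ∃ t ∈ W, ¬ top t ∧ ∀ a ∈ W, ¬ top a → pos t ≤ pos a := by
      obtain ⟨a, ha, ta⟩ := ex'
      obtain ⟨t, ht, hm⟩ := Finset.exists_min_image (W.filter fun x => ¬ top x) pos
        ⟨a, Finset.mem_filter.2 ⟨ha, ta⟩⟩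
      rw [Finset.mem_filter] at ht
      exact ⟨t, ht.1, ht.2, fun a ha ta => hm a (Finset.mem_filter.2 ⟨ha, ta⟩)⟩
    have hf0 : Free adj W top pos t0 b0 := by
      intro a ha c hc ta hac hX
      have h1 := hm0 a ha ta
      have h2 := hm0' c hc ((alt a ha c hc hac).1 ta)
      rcases hX with ⟨h3, _⟩ | ⟨_, h3⟩ <;> omega
    obtain ⟨C0, h1, h2, h3⟩ := reps hsym h hleaf hconn ht0 hb0 tt0 tb0 hf0
    have hemp : ∀ u, ¬ u ∈ lft W top pos t0 b0 := by
      intro u hu
      rw [mem_lft] at hu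
      obtain ⟨h4, h5⟩ := hu
      rcases h5 with ⟨h5, h6⟩ | ⟨h5, h6⟩
      · have := hm0 u h4 h5
        omega
      · have := hm0' u h4 h5
        omega
    obtain ⟨s', hs1, hs2, hs3⟩ := main _ t0 b0 C0 ht0 hb0 tt0 tb0 hf0 h1 h2 h3 le_rfl
    exact ⟨(t0, b0, C0), s', ⟨ht0, tt0, hb0, tb0, h1, h2⟩, hs1, hs2,
      fun u hu => hemp u ((h3 u).2 hu), hs3⟩
  · rintro ⟨s, s', hs, hs', hp, h0, h1⟩
    have P0 : Part adj top (stC adj W s.1 s.2.1 s.2.2) := by
      apply part_start hsym (valid_stC hs) alt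
      apply Finset.eq_empty_of_forall_notMem
      intro u hu
      exact h0 u (mem_stC.1 hu)
    have P1 : Part adj top (stC adj W s'.1 s'.2.1 s'.2.2) := by
      clear h1 hs'
      induction hp with
      | refl => exact P0
      | tail _ h ih => exact part_step hsym (valid_stC h.1) (valid_stC h.2.1) alt h.2.2 ih
    obtain ⟨pos, hD, _⟩ := P1
    refine ⟨pos, hD.mono ?_⟩
    intro u hu
    rw [Finset.mem_insert, Finset.mem_insert, mem_stC]
    rcases h1 u hu with h2 | h2 | h2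
    · exact Or.inl h2
    · exact Or.inr (Or.inl h2)
    · exact Or.inr (Or.inr h2)

end Pool.Agent.R552.Fan
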