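import Pool.Agent.R552.Fan.Comb

/-!
# A path of states gives a drawing
-/

namespace Pool.Agent.R552.Fan

theorem X.symm {pos : ℕ → ℕ} {a b c d : ℕ} (h : X pos a b c d) : X pos c d a b := by
  unfold X at *
  tauto

variable {adj : ℕ → ℕ → Prop} {W : Finset ℕ} {top : ℕ → Prop}

/-- the abstract analysis of a block -/
theorem block {pos : ℕ → ℕ} {s s' : St} {Bt Bb : ℕ → Prop}
    (hsym : ∀ u v, adj u v → adj v u)
    (hW : ∀ x, Bt x ∨ Bb x → x ∈ W)
    (ht : ∀ x, Bt x → x = s.t ∨ x = s'.t ∨ (Mid s s' x ∧ top x))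
    (hb : ∀ x, Bb x → x = s.b ∨ x = s'.b ∨ (Mid s s' x ∧ ¬ top x))
    (mt : ∀ x, Bt x → pos s.t ≤ pos x ∧ pos x ≤ pos s'.t)
    (mb : ∀ x, Bb x → pos s.b ≤ pos x ∧ pos x ≤ pos s'.b)
    (hTr : Tr adj W top s s') {a b c d e f : ℕ} (ha : Bt a) (hb' : Bb b) (hc : Bt c) (hd : Bb d)
    (he : Bt e) (hf : Bb f) (hab : adj a b) (hcd : adj c d) (hef : adj e f)
    (h1 : X pos a b c d) (h2 : X pos a b e f) : c = e ∨ d = f := by
  rcases hTr.shape with hs | hs | ⟨hs1, hs2⟩ | ⟨hs1, hs2⟩
  · left
    have q : ∀ x, Bt x → x = s.t ∨ x = s'.t := by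
      intro x hx
      rcases ht x hx with h | h | h
      · exact Or.inl h
      · exact Or.inr h
      · exact absurd h.2 (hs x h.1)
    have n1 : a ≠ c := by
      rintro rfl
      rcases h1 with ⟨h, _⟩ | ⟨h, _⟩ <;> exact lt_irrefl _ h
    have n2 : a ≠ e := by
      rintro rfl
      rcases h2 with ⟨h, _⟩ | ⟨h, _⟩ <;> exact lt_irrefl _ h
    rcases q a ha with rfl | rfl <;> rcases q c hc with rfl | rfl <;>
      rcases q e he with rfl | rfl <;> first | rfl | exact absurd rfl n1 | exact absurd rfl n2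
  · right
    have q : ∀ x, Bb x → x = s.b ∨ x = s'.b := by
      intro x hx
      rcases hb x hx with h | h | h
      · exact Or.inl h
      · exact Or.inr h
      · exact absurd (hs x h.1) h.2
    have n1 : b ≠ d := by
      rintro rfl
      rcases h1 with ⟨_, h⟩ | ⟨_, h⟩ <;> exact lt_irrefl _ h
    have n2 : b ≠ f := by
      rintro rfl
      rcases h2 with ⟨_, h⟩ | ⟨_, h⟩ <;> exact lt_irrefl _ h
    rcases q b hb' with rfl | rfl <;> rcases q d hd with rfl | rfl <;>
      rcases q f hf with rfl | rfl <;> first | rfl | exact absurd rfl n1 | exact absurd rfl n2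
  · have key : ∀ a b c d, Bt a → Bb b → Bt c → Bb d → adj a b → adj c d → pos a < pos c →
        pos d < pos b → a = s.t ∧ d = s.b := by
      intro a b c d ha hb1 hc hd hab hcd p1 p2
      constructor
      · rcases ht a ha with h | h | h
        · exact h
        · have := (mt c hc).2
          rw [← h] at this
          omega
        · have := hs1 a h.1 h.2 b (hW b (Or.inr hb1)) hab
          have := (mb d hd).1
          subst_vars
          omega
      · rcases hb d hd with h | h | h
        · exact h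
        · have := (mb b hb1).2
          rw [← h] at this
          omega
        · have := hs2 d h.1 h.2 c (hW c (Or.inl hc)) (hsym _ _ hcd)
          have := (mt a ha).1
          subst_vars
          omega
    rcases h1 with ⟨p1, p2⟩ | ⟨p1, p2⟩
    · obtain ⟨k1, k2⟩ := key _ _ _ _ ha hb' hc hd hab hcd p1 p2
      rcases h2 with ⟨q1, q2⟩ | ⟨q1, q2⟩
      · obtain ⟨_, k4⟩ := key _ _ _ _ ha hb' he hf hab hef q1 q2
        right; rw [k2, k4]
      · have := (mt e he).1
        rw [k1] at q1
        omega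
    · obtain ⟨k1, k2⟩ := key _ _ _ _ hc hd ha hb' hcd hab p1 p2
      rcases h2 with ⟨q1, q2⟩ | ⟨q1, q2⟩
      · have := (mb f hf).1
        rw [k2] at q2
        omega
      · obtain ⟨k3, _⟩ := key _ _ _ _ he hf ha hb' hef hab q1 q2
        left; rw [k1, k3]
  · have key : ∀ a b c d, Bt a → Bb b → Bt c → Bb d → adj a b → adj c d → pos a < pos c →
        pos d < pos b → c = s'.t ∧ b = s'.b := by
      intro a b c d ha hb1 hc hd hab hcd p1 p2
      constructor
      · rcases ht c hc with h | h | h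
        · have := (mt a ha).1
          rw [← h] at this
          omega
        · exact h
        · have := hs1 c h.1 h.2 d (hW d (Or.inr hd)) hcd
          have := (mb b hb1).2
          subst_vars
          omega
      · rcases hb b hb1 with h | h | h
        · have := (mb d hd).1
          rw [← h] at this
          omega
        · exact h
        · have := hs2 b h.1 h.2 a (hW a (Or.inl ha)) (hsym _ _ hab)
          have := (mt c hc).2
          subst_vars
          omega
    rcases h1 with ⟨p1, p2⟩ | ⟨p1, p2⟩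
    · obtain ⟨k1, k2⟩ := key _ _ _ _ ha hb' hc hd hab hcd p1 p2
      rcases h2 with ⟨q1, q2⟩ | ⟨q1, q2⟩
      · obtain ⟨k3, _⟩ := key _ _ _ _ ha hb' he hf hab hef q1 q2
        left; rw [k1, k3]
      · have := (mb f hf).2
        rw [k2] at q2
        omega
    · obtain ⟨k1, k2⟩ := key _ _ _ _ hc hd ha hb' hcd hab p1 p2
      rcases h2 with ⟨q1, q2⟩ | ⟨q1, q2⟩
      · have := (mt e he).2
        rw [k1] at q1
        omega
      · obtain ⟨_, k4⟩ := key _ _ _ _ he hf ha hb' hef hab q1 q2
        right; rw [k2, k4]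

theorem part_step (hsym : ∀ u v, adj u v → adj v u) {s s' : St} (hv : Valid adj W top s)
    (hv' : Valid adj W top s')
    (alt : ∀ u ∈ W, ∀ v ∈ W, adj u v → (top u ↔ ¬ top v)) (hTr : Tr adj W top s s')
    (hP : Part adj top s) : Part adj top s' := by
  classical
  obtain ⟨pos, hD, hLt, hLb⟩ := hP
  set O : Finset ℕ := insert s.t (insert s.b s.L) with hO
  set K : ℕ := O.sup pos + 1 with hK
  set N : ℕ := W.sup id + 1 with hN
  have htt := hv.tt
  have htb := hv.tb
  have htt' := hv'.tt
  have htb' := hv'.tb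
  have oldK : ∀ x ∈ O, pos x < K := by
    intro x hx
    have := Finset.le_sup (f := pos) hx
    omega
  have wN : ∀ x ∈ W, x < N := by
    intro x hx
    have := Finset.le_sup (f := id) hx
    simp only [id] at this
    omega
  have tO : s.t ∈ O := Finset.mem_insert_self _ _
  have bO : s.b ∈ O := Finset.mem_insert_of_mem (Finset.mem_insert_self _ _)
  have LO : ∀ x ∈ s.L, x ∈ O := fun x hx => Finset.mem_insert_of_mem (Finset.mem_insert_of_mem hx)
  have memO : ∀ x, x ∈ O ↔ x = s.t ∨ x = s.b ∨ x ∈ s.L := by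
    intro x
    rw [hO, Finset.mem_insert, Finset.mem_insert]
  have OW : ∀ x ∈ O, x ∈ W := by
    intro x hx
    rw [memO] at hx
    rcases hx with rfl | rfl | hx
    · exact hv.tW
    · exact hv.bW
    · exact hv.LW hx
  -- the new set
  set O' : Finset ℕ := insert s'.t (insert s'.b s'.L) with hO'
  have memO' : ∀ x, x ∈ O' ↔ x = s'.t ∨ x = s'.b ∨ x ∈ s'.L := by
    intro x
    rw [hO', Finset.mem_insert, Finset.mem_insert]
  have OW' : ∀ x ∈ O', x ∈ W := by
    intro x hx
    rw [memO'] at hx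
    rcases hx with rfl | rfl | hx
    · exact hv'.tW
    · exact hv'.bW
    · exact hv'.LW hx
  have tne : s'.t ≠ s.t → s'.t ∉ O := by
    intro h hx
    rw [memO] at hx
    rcases hx with h1 | h1 | h1
    · exact h h1
    · rw [h1] at htt'
      exact htb htt'
    · exact hTr.t' h1
  have bne : s'.b ≠ s.b → s'.b ∉ O := by
    intro h hx
    rw [memO] at hx
    rcases hx with h1 | h1 | h1
    · rw [h1] at htb'
      exact htb' htt
    · exact h h1
    · exact hTr.b' h1
  -- the cases for a vertex of the new set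
  have cases : ∀ x ∈ O', x ∈ O ∨ (x ∉ O ∧ ((x = s'.t ∧ s'.t ≠ s.t) ∨ (x = s'.b ∧ s'.b ≠ s.b) ∨
      (Mid s s' x ∧ x ≠ s'.t ∧ x ≠ s'.b))) := by
    intro x hx
    by_cases hxO : x ∈ O
    · exact Or.inl hxO
    · right
      refine ⟨hxO, ?_⟩
      rw [memO'] at hx
      have h1 : x ≠ s.t := fun h => hxO (h ▸ tO)
      have h2 : x ≠ s.b := fun h => hxO (h ▸ bO)
      have h3 : x ∉ s.L := fun h => hxO (LO x h)
      rcases hx with h | h | h
      · left; exact ⟨h, fun h' => h1 (h.trans h')⟩
      · right; left; exact ⟨h, fun h' => h2 (h.trans h')⟩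
      · right; right
        refine ⟨⟨h, h3, h1, h2⟩, ?_, ?_⟩
        · intro h4
          rw [h4] at h
          exact hv'.tL h
        · intro h4
          rw [h4] at h
          exact hv'.bL h
  let pos' : ℕ → ℕ := fun x => if x ∈ O then pos x else if x = s'.t ∨ x = s'.b then K + N + 1
    else K + x
  have pO : ∀ x ∈ O, pos' x = pos x := fun x hx => if_pos hx
  have pE : ∀ x, x ∉ O → (x = s'.t ∨ x = s'.b) → pos' x = K + N + 1 := fun x hx h => by
    simp only [pos', if_neg hx, if_pos h]
  have pM : ∀ x, x ∉ O → x ≠ s'.t → x ≠ s'.b → pos' x = K + x := fun x hx h1 h2 => by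
    have : ¬ (x = s'.t ∨ x = s'.b) := by tauto
    simp only [pos', if_neg hx, if_neg this]
  have pnew : ∀ x ∈ O', x ∉ O → K ≤ pos' x ∧ pos' x ≤ K + N + 1 := by
    intro x hx hxO
    have h1 := wN x (OW' x hx)
    by_cases h : x = s'.t ∨ x = s'.b
    · rw [pE x hxO h]; omega
    · rw [pM x hxO (fun h' => h (Or.inl h')) (fun h' => h (Or.inr h'))]; omega
  -- extreme positions in the block
  have mint : ∀ x ∈ O', top x → x ∉ s.L → pos' s.t ≤ pos' x ∧ pos' x ≤ pos' s'.t ∧
      (x = s.t ∨ x = s'.t ∨ (Mid s s' x ∧ top x)) := by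
    intro x hx hxt hxL
    have h1 := oldK _ tO
    have h2 := pO _ tO
    rcases cases x hx with h | ⟨h, h'⟩
    · have hx1 : x = s.t := by
        rw [memO] at h
        rcases h with h | h | h
        · exact h
        · rw [h] at hxt; exact absurd hxt htb
        · exact absurd h hxL
      refine ⟨by rw [hx1], ?_, Or.inl hx1⟩
      rw [hx1, h2]
      by_cases h3 : s'.t = s.t
      · rw [h3, h2]
      · rw [pE _ (tne h3) (Or.inl rfl)]
        omega
    · have h3 := pnew x hx h
      refine ⟨by rw [h2]; omega, ?_, ?_⟩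
      · rcases h' with ⟨h4, h5⟩ | ⟨h4, h5⟩ | ⟨h4, h5⟩
        · rw [h4]
        · rw [h4] at hxt; exact absurd hxt htb'
        · rw [pE _ (tne (hTr.mt x h4 hxt)) (Or.inl rfl)]
          omega
      · rcases h' with ⟨h4, h5⟩ | ⟨h4, h5⟩ | ⟨h4, h5⟩
        · exact Or.inr (Or.inl h4)
        · rw [h4] at hxt; exact absurd hxt htb'
        · exact Or.inr (Or.inr ⟨h4, hxt⟩)
  have minb : ∀ x ∈ O', ¬ top x → x ∉ s.L → pos' s.b ≤ pos' x ∧ pos' x ≤ pos' s'.b ∧
      (x = s.b ∨ x = s'.b ∨ (Mid s s' x ∧ ¬ top x)) := by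
    intro x hx hxt hxL
    have h1 := oldK _ bO
    have h2 := pO _ bO
    rcases cases x hx with h | ⟨h, h'⟩
    · have hx1 : x = s.b := by
        rw [memO] at h
        rcases h with h | h | h
        · rw [h] at hxt; exact absurd htt hxt
        · exact h
        · exact absurd h hxL
      refine ⟨by rw [hx1], ?_, Or.inl hx1⟩
      rw [hx1, h2]
      by_cases h3 : s'.b = s.b
      · rw [h3, h2]
      · rw [pE _ (bne h3) (Or.inr rfl)]
        omega
    · have h3 := pnew x hx h
      refine ⟨by rw [h2]; omega, ?_, ?_⟩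
      · rcases h' with ⟨h4, h5⟩ | ⟨h4, h5⟩ | ⟨h4, h5⟩
        · rw [h4] at hxt; exact absurd htt' hxt
        · rw [h4]
        · rw [pE _ (bne (hTr.mb x h4 hxt)) (Or.inr rfl)]
          omega
      · rcases h' with ⟨h4, h5⟩ | ⟨h4, h5⟩ | ⟨h4, h5⟩
        · rw [h4] at hxt; exact absurd htt' hxt
        · exact Or.inr (Or.inl h4)
        · exact Or.inr (Or.inr ⟨h4, hxt⟩)
  -- edges are old or in the block
  have edge : ∀ a ∈ O', ∀ b ∈ O', adj a b → (a ∈ O ∧ b ∈ O) ∨ (a ∉ s.L ∧ b ∉ s.L) := by
    intro a ha b hb hab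
    by_cases h1 : a ∈ s.L
    · left
      refine ⟨LO a h1, ?_⟩
      rw [memO]
      have := hv.cl a h1 b (OW' b hb) hab
      tauto
    · by_cases h2 : b ∈ s.L
      · left
        refine ⟨?_, LO b h2⟩
        rw [memO]
        have := hv.cl b h2 a (OW' a ha) (hsym _ _ hab)
        tauto
      · exact Or.inr ⟨h1, h2⟩
  -- old edges do not cross block edges
  have claimB : ∀ a b c d, a ∈ O → b ∈ O → c ∈ O' → d ∈ O' → top a → ¬ top b → top c → ¬ top d →
      c ∉ s.L → d ∉ s.L → ¬ X pos' a b c d := by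
    intro a b c d ha hb hc hd ta tb tc td hc' hd' hX
    have h1 := (mint c hc tc hc').1
    have h2 := (minb d hd td hd').1
    rw [pO _ tO] at h1
    rw [pO _ bO] at h2
    have h3 : pos' a ≤ pos s.t := by
      rw [pO a ha]
      rw [memO] at ha
      rcases ha with h | h | h
      · rw [h]
      · rw [h] at ta; exact absurd ta htb
      · exact (hLt a h ta).le
    have h4 : pos' b ≤ pos s.b := by
      rw [pO b hb]
      rw [memO] at hb
      rcases hb with h | h | h
      · rw [h] at tb; exact absurd htt tb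
      · rw [h]
      · exact (hLb b h tb).le
    rcases hX with ⟨p1, p2⟩ | ⟨p1, p2⟩ <;> omega
  refine ⟨pos', ⟨?_, ?_, ?_⟩, ?_, ?_⟩
  · intro u hu v hv1 huv
    exact alt u (OW' u hu) v (OW' v hv1) huv
  · intro u hu v hv1 huv hp
    have wu := wN u (OW' u hu)
    have wv := wN v (OW' v hv1)
    have nu := pnew u hu
    have nv := pnew v hv1
    by_cases h1 : u ∈ O <;> by_cases h2 : v ∈ O
    · rw [pO u h1, pO v h2] at hp
      exact hD.inj u h1 v h2 huv hp
    · have := oldK u h1
      rw [pO u h1] at hp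
      have := nv h2
      omega
    · have := oldK v h2
      rw [pO v h2] at hp
      have := nu h1
      omega
    · by_cases h3 : u = s'.t ∨ u = s'.b <;> by_cases h4 : v = s'.t ∨ v = s'.b
      · rcases h3 with rfl | rfl <;> rcases h4 with rfl | rfl
        · rfl
        · exact absurd (huv.1 htt') htb'
        · exact absurd (huv.2 htt') htb'
        · rfl
      · rw [pE u h1 h3, pM v h2 (fun h' => h4 (Or.inl h')) (fun h' => h4 (Or.inr h'))] at hp
        omega
      · rw [pE v h2 h4, pM u h1 (fun h' => h3 (Or.inl h')) (fun h' => h3 (Or.inr h'))] at hp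
        omega
      · rw [pM v h2 (fun h' => h4 (Or.inl h')) (fun h' => h4 (Or.inr h')),
          pM u h1 (fun h' => h3 (Or.inl h')) (fun h' => h3 (Or.inr h'))] at hp
        omega
  · intro a ha b hb c hc d hd e he f hf ta tc te hab hcd hef h1 h2
    have tb : ¬ top b := (alt a (OW' a ha) b (OW' b hb) hab).1 ta
    have td : ¬ top d := (alt c (OW' c hc) d (OW' d hd) hcd).1 tc
    have tf : ¬ top f := (alt e (OW' e he) f (OW' f hf) hef).1 te
    rcases edge a ha b hb hab with ⟨o1, o2⟩ | ⟨n1, n2⟩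
    · rcases edge c hc d hd hcd with ⟨o3, o4⟩ | ⟨n3, n4⟩
      · rcases edge e he f hf hef with ⟨o5, o6⟩ | ⟨n5, n6⟩
        · refine hD.fan a o1 b o2 c o3 d o4 e o5 f o6 ta tc te hab hcd hef ?_ ?_
          · unfold X at h1 ⊢
            rw [pO a o1, pO b o2, pO c o3, pO d o4] at h1
            exact h1
          · unfold X at h2 ⊢
            rw [pO a o1, pO b o2, pO e o5, pO f o6] at h2
            exact h2
        · exact absurd h2 (claimB a b e f o1 o2 he hf ta tb te tf n5 n6)
      · exact absurd h1 (claimB a b c d o1 o2 hc hd ta tb tc td n3 n4)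
    · rcases edge c hc d hd hcd with ⟨o3, o4⟩ | ⟨n3, n4⟩
      · exact absurd h1.symm (claimB c d a b o3 o4 ha hb tc td ta tb n1 n2)
      · rcases edge e he f hf hef with ⟨o5, o6⟩ | ⟨n5, n6⟩
        · exact absurd h2.symm (claimB e f a b o5 o6 ha hb te tf ta tb n1 n2)
        · refine block (W := W) (top := top) (pos := pos') (s := s) (s' := s')
            (Bt := fun x => x ∈ O' ∧ top x ∧ x ∉ s.L) (Bb := fun x => x ∈ O' ∧ ¬ top x ∧ x ∉ s.L)
            hsym ?_ ?_ ?_ ?_ ?_ hTr ⟨ha, ta, n1⟩ ⟨hb, tb, n2⟩ ⟨hc, tc, n3⟩ ⟨hd, td, n4⟩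
            ⟨he, te, n5⟩ ⟨hf, tf, n6⟩ hab hcd hef h1 h2
          · rintro x (h | h) <;> exact OW' x h.1
          · rintro x ⟨h3, h4, h5⟩; exact (mint x h3 h4 h5).2.2
          · rintro x ⟨h3, h4, h5⟩; exact (minb x h3 h4 h5).2.2
          · rintro x ⟨h3, h4, h5⟩; exact ⟨(mint x h3 h4 h5).1, (mint x h3 h4 h5).2.1⟩
          · rintro x ⟨h3, h4, h5⟩; exact ⟨(minb x h3 h4 h5).1, (minb x h3 h4 h5).2.1⟩
  · intro x hx tx
    have hxO' : x ∈ O' := (memO' x).2 (Or.inr (Or.inr hx))
    have hxt : x ≠ s'.t := fun h => hv'.tL (h ▸ hx)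
    have hxb : x ≠ s'.b := fun h => hv'.bL (h ▸ hx)
    have hw := wN x (OW' x hxO')
    by_cases h3 : s'.t = s.t
    · rcases cases x hxO' with h | ⟨h, h'⟩
      · rw [h3, pO x h, pO _ tO]
        rw [memO] at h
        rcases h with h | h | h
        · exact absurd (h.trans h3.symm) hxt
        · rw [h] at tx; exact absurd tx htb
        · exact hLt x h tx
      · rcases h' with ⟨h4, h5⟩ | ⟨h4, h5⟩ | ⟨h4, h5⟩
        · exact absurd h4 hxt
        · exact absurd h4 hxb
        · exact absurd h3 (hTr.mt x h4 tx)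
    · rw [pE _ (tne h3) (Or.inl rfl)]
      by_cases h4 : x ∈ O
      · rw [pO x h4]
        have := oldK x h4
        omega
      · rw [pM x h4 hxt hxb]
        omega
  · intro x hx tx
    have hxO' : x ∈ O' := (memO' x).2 (Or.inr (Or.inr hx))
    have hxt : x ≠ s'.t := fun h => hv'.tL (h ▸ hx)
    have hxb : x ≠ s'.b := fun h => hv'.bL (h ▸ hx)
    have hw := wN x (OW' x hxO')
    by_cases h3 : s'.b = s.b
    · rcases cases x hxO' with h | ⟨h, h'⟩
      · rw [h3, pO x h, pO _ bO]
        rw [memO] at h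
        rcases h with h | h | h
        · rw [h] at tx; exact absurd htt tx
        · exact absurd (h.trans h3.symm) hxb
        · exact hLb x h tx
      · rcases h' with ⟨h4, h5⟩ | ⟨h4, h5⟩ | ⟨h4, h5⟩
        · exact absurd h4 hxt
        · exact absurd h4 hxb
        · exact absurd h3 (hTr.mb x h4 tx)
    · rw [pE _ (bne h3) (Or.inr rfl)]
      by_cases h4 : x ∈ O
      · rw [pO x h4]
        have := oldK x h4
        omega
      · rw [pM x h4 hxt hxb]
        omega

end Pool.Agent.R552.Fan
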